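import Pool.Agent.H533.QM.Masterq
import Pool.Graph.R_seed8.Helper923.PNT

/-!
Progressions to every modulus: the least primes of the residue classes modulo `d`.
-/

set_option autoImplicit false

open Finset Filter Topology

namespace Pool.Agent.H533.QM

open Pool.Agent.H361R2.PP

/-- upper bound for the number of primes -/
theorem pi_upper : ∃ X₀ : ℕ, ∀ X : ℕ, X₀ ≤ X →
    (((range (2 * X)).filter Nat.Prime).card : ℝ) ≤ 4 * X / Real.log X := by
  have h1 := Pool.Agent.Helper923.PNT.pi_tendsto.comp (tendsto_natCast_atTop_atTop (R := ℝ))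
  have h2 : ∀ᶠ X : ℕ in atTop, (Nat.primeCounting X : ℝ) * Real.log X / X ≤ 2 := by
    have := h1.eventually (Iic_mem_nhds (show (1:ℝ) < 2 by norm_num))
    filter_upwards [this] with X hX
    simp only [Function.comp, Nat.floor_natCast] at hX
    exact hX
  have h4 : ∀ᶠ X : ℕ in atTop,
      (Nat.primeCounting (2 * X) : ℝ) * Real.log ((2 * X : ℕ) : ℝ) / ((2 * X : ℕ) : ℝ) ≤ 2 :=
    (tendsto_id.const_mul_atTop' (show 0 < 2 by norm_num)).eventually h2
  obtain ⟨X₀, hX₀⟩ := eventually_atTop.mp h4
  refine ⟨X₀ + 2, fun X hX => ?_⟩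
  have h5 := hX₀ X (by omega)
  have hX2 : (2 : ℝ) ≤ X := by exact_mod_cast (by omega : 2 ≤ X)
  have hl : 0 < Real.log X := Real.log_pos (by linarith)
  have hl2 : Real.log X ≤ Real.log ((2 * X : ℕ) : ℝ) := by
    apply Real.log_le_log (by linarith)
    push_cast
    linarith
  rw [div_le_iff₀ (by push_cast; linarith)] at h5
  push_cast at h5
  have h6 : (((range (2 * X)).filter Nat.Prime).card : ℝ) ≤ (Nat.primeCounting (2 * X) : ℝ) := by
    rw [Nat.primeCounting, Nat.primeCounting', Nat.count_eq_card_filter_range]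
    apply Nat.cast_le.2
    apply card_le_card
    apply filter_subset_filter
    intro n hn
    rw [mem_range] at hn ⊢
    omega
  rw [le_div_iff₀ hl]
  have h7 : (0 : ℝ) ≤ (Nat.primeCounting (2 * X) : ℝ) := Nat.cast_nonneg _
  push_cast at hl2
  calc (((range (2 * X)).filter Nat.Prime).card : ℝ) * Real.log X ≤
      (Nat.primeCounting (2 * X) : ℝ) * Real.log X := mul_le_mul_of_nonneg_right h6 hl.le
    _ ≤ (Nat.primeCounting (2 * X) : ℝ) * Real.log (2 * X) := mul_le_mul_of_nonneg_left hl2 h7
    _ ≤ 2 * (2 * X) := h5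
    _ = 4 * X := by ring

/-- the number of primes up to `2 d` is small compared with `φ(d)` -/
theorem pi_small (c : ℝ) (hc : 0 < c) : ∃ X₀ : ℕ, ∀ d : ℕ, X₀ ≤ d →
    (((range (2 * d)).filter Nat.Prime).card : ℝ) ≤ c * (Nat.totient d : ℝ) := by
  obtain ⟨X1, h1⟩ := pi_upper
  obtain ⟨X2, h2⟩ := L_big (4 / c)
  refine ⟨X1 + X2 + 2, fun d hd => ?_⟩
  have h3 := h1 d (by omega)
  have h4 := h2 d (by omega) d (by omega) le_rfl
  have hd0 : (0 : ℝ) < d := by exact_mod_cast (by omega : 0 < d)
  have hW : (1 : ℝ) ≤ Wq d d := by exact_mod_cast Wq_pos d d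
  have hl : 0 < Real.log d := Real.log_pos (by exact_mod_cast (by omega : 1 < d))
  have h5 : 4 / c ≤ fr d * Real.log d := by
    refine le_trans ?_ h4
    have : 0 < 4 / c := by positivity
    exact le_mul_of_one_le_right this.le (one_le_pow₀ hW)
  have h6 : (Nat.totient d : ℝ) = fr d * d := by
    unfold fr
    field_simp
  rw [h6]
  refine h3.trans ?_
  rw [div_le_iff₀ hl]
  rw [div_le_iff₀ hc] at h5
  nlinarith

theorem dL (d : ℕ) : Ls d d * d = (Nat.totient d : ℝ) * Real.log d := by
  unfold Ls fr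
  rcases Nat.eq_zero_or_pos d with h | h
  · subst h; simp
  · have : (d : ℝ) ≠ 0 := by exact_mod_cast h.ne'
    field_simp

open Classical in
/-- **Windows for the primes of a residue class**, every modulus -/
theorem windows (k m : ℕ) (α : Fin k → ℝ) (ε Λ : ℝ) (hε : 0 < ε) (hΛ : 0 < Λ)
    (hα : ∀ i, 0 ≤ α i ∧ α i + ε ≤ Λ) :
    ∃ c : ℝ, 0 < c ∧ ∃ d₀ : ℕ, ∀ d : ℕ, d₀ ≤ d →
    c * (Nat.totient d : ℝ) ≤ (((range d).filter (fun a => a.Coprime d ∧
      k ≤ 4 * ((univ : Finset (Fin k)).filter (fun i => m ≤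
        ((Icc 1 ⌊Λ * ((Nat.totient d : ℝ) * Real.log d)⌋₊).filter (fun p => p.Prime ∧
          p ≡ a [MOD d] ∧ α i * ((Nat.totient d : ℝ) * Real.log d) < p ∧
          (p : ℝ) ≤ (α i + ε) * ((Nat.totient d : ℝ) * Real.log d))).card)).card ∧
      ∀ p : ℕ, p.Prime → p ≡ a [MOD d] → (p : ℝ) ≤ Λ * ((Nat.totient d : ℝ) * Real.log d) →
        ∃ i, α i * ((Nat.totient d : ℝ) * Real.log d) < p ∧
          (p : ℝ) ≤ (α i + ε) * ((Nat.totient d : ℝ) * Real.log d))).card : ℝ) := by
  obtain ⟨c, hc, X1, h1⟩ := masterq k m α (ε / 2) Λ (by positivity) hΛ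
    (fun i => ⟨(hα i).1, by linarith [(hα i).2]⟩)
  obtain ⟨X2, h2⟩ := pi_small (c / 2) (by positivity)
  obtain ⟨X3, h3⟩ := L_big (4 / ε)
  refine ⟨c / 2, by positivity, X1 + X2 + X3 + 2, fun d hd => ?_⟩
  have hd2 : 2 ≤ d := by omega
  have hd0 : (0 : ℝ) < d := by exact_mod_cast (by omega : 0 < d)
  have hm := h1 d (by omega) d (by omega) le_rfl
  have hp := h2 d (by omega)
  have hbig : 4 / ε ≤ Ls d d := by
    refine le_trans ?_ (h3 d (by omega) d (by omega) le_rfl)
    have hW : (1 : ℝ) ≤ Wq d d := by exact_mod_cast Wq_pos d d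
    have : 0 < 4 / ε := by positivity
    exact le_mul_of_one_le_right this.le (one_le_pow₀ hW)
  have hL2 : 2 ≤ ε / 2 * Ls d d := by
    rw [div_le_iff₀ hε] at hbig
    linarith
  have hL0 : 0 ≤ Ls d d := Ls_nonneg (by omega)
  have hF : (Nat.totient d : ℝ) * Real.log d = Ls d d * d := (dL d).symm
  rw [hF]
  obtain ⟨L, hL⟩ : ∃ L, L = Ls d d := ⟨_, rfl⟩
  have h6 : fr d * d = (Nat.totient d : ℝ) := by
    unfold fr
    field_simp
  rw [h6] at hm
  -- the good classes
  set G := (range d).filter (fun a => a.Coprime d ∧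
      k ≤ 4 * ((univ : Finset (Fin k)).filter (fun i => m ≤
        ((Icc 1 ⌊Λ * (Ls d d * d)⌋₊).filter (fun p => p.Prime ∧
          p ≡ a [MOD d] ∧ α i * (Ls d d * d) < p ∧
          (p : ℝ) ≤ (α i + ε) * (Ls d d * d))).card)).card ∧
      ∀ p : ℕ, p.Prime → p ≡ a [MOD d] → (p : ℝ) ≤ Λ * (Ls d d * d) →
        ∃ i, α i * (Ls d d * d) < p ∧ (p : ℝ) ≤ (α i + ε) * (Ls d d * d)) with hG
  have hcard : ((Ico d (2 * d)).filter
      (fun n => n.Coprime d ∧ Goodq m α (ε / 2) Λ d d n)).card ≤
      G.card + ((range (2 * d)).filter Nat.Prime).card := by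
    have hinj : ((Ico d (2 * d)).filter
        (fun n => n.Coprime d ∧ Goodq m α (ε / 2) Λ d d n)).card =
        (((Ico d (2 * d)).filter
        (fun n => n.Coprime d ∧ Goodq m α (ε / 2) Λ d d n)).image (fun n => n - d)).card := by
      rw [card_image_of_injOn]
      intro n hn n' hn' h
      rw [mem_coe, mem_filter, mem_Ico] at hn hn'
      have : n - d = n' - d := h
      omega
    rw [hinj]
    have hE : (((range d).filter (fun a => a.Prime ∨ (a + d).Prime)).card) ≤
        ((range (2 * d)).filter Nat.Prime).card := by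
      apply card_le_card_of_injOn (fun a : ℕ => (if a.Prime then a else a + d : ℕ))
      · intro a ha
        rw [mem_coe, mem_filter, mem_range] at ha
        rw [mem_coe, mem_filter, mem_range]
        beta_reduce
        split_ifs with h
        · exact ⟨by omega, h⟩
        · exact ⟨by omega, ha.2.resolve_left h⟩
      · intro a ha a' ha' h
        rw [mem_coe, mem_filter, mem_range] at ha ha'
        beta_reduce at h
        split_ifs at h <;> omega
    refine le_trans (card_le_card (t := G ∪ (range d).filter (fun a => a.Prime ∨ (a + d).Prime))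
      ?_) ((card_union_le _ _).trans (by omega))
    intro a ha
    rw [mem_image] at ha
    obtain ⟨n, hn, rfl⟩ := ha
    rw [mem_filter, mem_Ico] at hn
    obtain ⟨⟨hn1, hn2⟩, hn3, hn4⟩ := hn
    obtain ⟨a, rfl⟩ : ∃ a, n = a + d := ⟨n - d, by omega⟩
    have hsub : a + d - d = a := by omega
    rw [hsub, mem_union]
    by_cases hex : a.Prime ∨ (a + d).Prime
    · right
      rw [mem_filter, mem_range]
      exact ⟨by omega, hex⟩
    left
    push Not at hex
    have had : a < d := by omega
    have hadr : (a : ℝ) < d := by exact_mod_cast had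
    rw [hG, mem_filter, mem_range]
    refine ⟨had, by rwa [Nat.coprime_add_self_left] at hn3, ?_, ?_⟩
    · -- many primes in a quarter of the windows
      refine hn4.1.trans ?_
      apply Nat.mul_le_mul_left
      apply card_le_card
      intro i hi
      rw [mem_filter] at hi ⊢
      refine ⟨hi.1, hi.2.trans ?_⟩
      apply card_le_card_of_injOn (fun j : ℕ => (a + d + j * d : ℕ))
      · intro j hj
        rw [mem_coe, mem_filter, mem_Icc] at hj
        obtain ⟨⟨hj1, hj2⟩, ⟨hj3, hj4⟩, hj5⟩ := hj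
        rw [mem_coe, mem_filter, mem_Icc]
        have e1 : α i * (Ls d d * d) < ((a + d + j * d : ℕ) : ℝ) := by
          push_cast
          have h10 : α i * Ls d d * d < j * d := mul_lt_mul_of_pos_right hj3 hd0
          nlinarith [Nat.cast_nonneg (α := ℝ) a]
        have e2 : ((a + d + j * d : ℕ) : ℝ) ≤ (α i + ε) * (Ls d d * d) := by
          push_cast
          have h10 : (j : ℝ) * d ≤ (α i + ε / 2) * Ls d d * d :=
            mul_le_mul_of_nonneg_right hj4 hd0.le
          have h11 : 2 * (d : ℝ) ≤ ε / 2 * Ls d d * d := mul_le_mul_of_nonneg_right hL2 hd0.le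
          nlinarith
        beta_reduce
        refine ⟨⟨by omega, ?_⟩, hj5, ?_, e1, e2⟩
        · apply Nat.le_floor
          refine e2.trans ?_
          apply mul_le_mul_of_nonneg_right (hα i).2
          positivity
        · have e3 : a + d + j * d = a + (j + 1) * d := by ring
          rw [e3, Nat.ModEq, Nat.add_mul_mod_self_right]
      · intro j _ j' _ h
        have h' : a + d + j * d = a + d + j' * d := h
        have h12 : j * d = j' * d := by omega
        exact Nat.eq_of_mul_eq_mul_right (by omega) h12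
    · -- no other primes
      intro p hpp hpa hpΛ
      obtain ⟨i, hi⟩ : ∃ i, p = a + i * d := by
        refine ⟨p / d, ?_⟩
        have h10 : p % d = a := by
          rw [Nat.ModEq, Nat.mod_eq_of_lt had] at hpa
          exact hpa
        have h11 := Nat.mod_add_div p d
        rw [h10] at h11
        rw [mul_comm]
        exact h11.symm
      have hi2 : 2 ≤ i := by
        by_contra hcon
        have h10 : i = 0 ∨ i = 1 := by omega
        rcases h10 with h | h
        · rw [hi, h, zero_mul, add_zero] at hpp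
          exact hex.1 hpp
        · rw [hi, h, one_mul] at hpp
          exact hex.2 hpp
      obtain ⟨j, rfl⟩ : ∃ j, i = j + 1 := ⟨i - 1, by omega⟩
      have hj1 : 1 ≤ j := by omega
      have hpe : p = a + d + j * d := by rw [hi]; ring
      have hjp : (j : ℝ) * d ≤ p := by
        rw [hpe]
        push_cast
        nlinarith [Nat.cast_nonneg (α := ℝ) a]
      have hjN : j ≤ ⌊Λ * Ls d d⌋₊ := by
        apply Nat.le_floor
        have h10 : (j : ℝ) * d ≤ (Λ * Ls d d) * d := by
          refine hjp.trans (hpΛ.trans (le_of_eq (by ring)))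
        exact le_of_mul_le_mul_right h10 hd0
      obtain ⟨i', hi'⟩ := hn4.2 j (mem_Icc.2 ⟨hj1, hjN⟩) (by rw [← hpe]; exact hpp)
      refine ⟨i', ?_, ?_⟩
      · have h10 : α i' * Ls d d * d < j * d := mul_lt_mul_of_pos_right hi'.1 hd0
        calc α i' * (Ls d d * d) = α i' * Ls d d * d := by ring
          _ < j * d := h10
          _ ≤ p := hjp
      · rw [hpe]
        push_cast
        have h10 : (j : ℝ) * d ≤ (α i' + ε / 2) * Ls d d * d :=
          mul_le_mul_of_nonneg_right hi'.2 hd0.le
        have h11 : 2 * (d : ℝ) ≤ ε / 2 * Ls d d * d := mul_le_mul_of_nonneg_right hL2 hd0.le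
        nlinarith
  have hcr : (((Ico d (2 * d)).filter
      (fun n => n.Coprime d ∧ Goodq m α (ε / 2) Λ d d n)).card : ℝ) ≤
      (G.card : ℝ) + (((range (2 * d)).filter Nat.Prime).card : ℝ) := by exact_mod_cast hcard
  linarith

end Pool.Agent.H533.QM
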