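import Pool.Agent.H533.QM.Clsq
import Pool.Graph.R_seed8.H361R2.PP.Asm1

/-!
Progressions to every modulus: the moduli, the sets of sieving primes, Mertens type products.
-/

set_option autoImplicit false

open Finset Filter Topology

namespace Pool.Agent.H533.QM

open Pool.Agent.H361R2.PP
open Pool.Agent.H410R2.AC (wt GG Pi1)


/-- `φ(q)/q` -/
noncomputable def fr (q : ℕ) : ℝ := (Nat.totient q : ℝ) / q

/-- the small primes which do not divide `q` -/
noncomputable def Sm (X q : ℕ) : Finset ℕ :=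
  (range (HH X + 1)).filter (fun p => p.Prime ∧ ¬ p ∣ q)

/-- the modulus: the product of the small primes which do not divide `q` -/
noncomputable def Wq (X q : ℕ) : ℕ := ∏ p ∈ Sm X q, p

/-- the medium primes which do not divide `q` -/
noncomputable def Q1 (δ : ℝ) (X q : ℕ) : Finset ℕ :=
  (P1 (HH X) (JJ δ X)).filter (fun p => ¬ p ∣ q)

/-- the large primes which do not divide `q` -/
noncomputable def Q2 (δ : ℝ) (X q : ℕ) : Finset ℕ :=
  (P2 (JJ δ X) X).filter (fun p => ¬ p ∣ q)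

/-- the large primes which divide `q` -/
noncomputable def TT (δ : ℝ) (X q : ℕ) : Finset ℕ :=
  (P2 (JJ δ X) X).filter (fun p => p ∣ q)

theorem mem_P1' {H J p : ℕ} : p ∈ P1 H J ↔ p < 2 ^ 2 ^ J ∧ p.Prime ∧ H < p := by
  unfold P1
  rw [mem_filter, mem_range]

theorem mem_P2' {J z p : ℕ} : p ∈ P2 J z ↔ p ≤ z ∧ p.Prime ∧ 2 ^ 2 ^ J ≤ p := by
  unfold P2
  rw [mem_filter, mem_range, Nat.lt_succ_iff]

theorem mem_Sm {X q p : ℕ} : p ∈ Sm X q ↔ p ≤ HH X ∧ p.Prime ∧ ¬ p ∣ q := by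
  unfold Sm
  rw [mem_filter, mem_range, Nat.lt_succ_iff]

theorem mem_Q1 {δ : ℝ} {X q p : ℕ} :
    p ∈ Q1 δ X q ↔ (p < 2 ^ 2 ^ JJ δ X ∧ p.Prime ∧ HH X < p) ∧ ¬ p ∣ q := by
  unfold Q1
  rw [mem_filter, mem_P1']

theorem mem_Q2 {δ : ℝ} {X q p : ℕ} :
    p ∈ Q2 δ X q ↔ (p ≤ X ∧ p.Prime ∧ 2 ^ 2 ^ JJ δ X ≤ p) ∧ ¬ p ∣ q := by
  unfold Q2
  rw [mem_filter, mem_P2']

theorem Wq_pos (X q : ℕ) : 0 < Wq X q :=
  prod_pos fun _ hp => (mem_Sm.1 hp).2.1.pos

theorem Wq_le (X q : ℕ) : Wq X q ≤ Wm X := by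
  unfold Wq Wm primorial
  apply Nat.le_of_dvd
  · exact prod_pos fun p hp => (mem_filter.1 hp).2.pos
  · apply prod_dvd_prod_of_subset
    intro p hp
    have := mem_Sm.1 hp
    rw [mem_filter, mem_range]
    exact ⟨by omega, this.2.1⟩

theorem Wq_cop (X q : ℕ) : (Wq X q).Coprime q := by
  unfold Wq
  apply Nat.Coprime.prod_left
  intro p hp
  exact (Nat.Prime.coprime_iff_not_dvd (mem_Sm.1 hp).2.1).2 (mem_Sm.1 hp).2.2

theorem Wq_cop_prod {X q : ℕ} {D : Finset ℕ} (hD : ∀ p ∈ D, p.Prime ∧ HH X < p) :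
    (Wq X q).Coprime (∏ p ∈ D, p) := by
  apply Nat.Coprime.prod_right
  intro p hp
  apply Nat.Coprime.prod_left
  intro r hr
  rw [Nat.coprime_primes (mem_Sm.1 hr).2.1 (hD p hp).1]
  have h1 := (mem_Sm.1 hr).1
  have h2 := (hD p hp).2
  omega

theorem frac_prod {S : Finset ℕ} (hS : ∀ p ∈ S, p.Prime) :
    (Nat.totient (∏ p ∈ S, p) : ℝ) / ((∏ p ∈ S, p : ℕ) : ℝ) = ∏ p ∈ S, (1 - 1 / (p : ℝ)) := by
  rw [Pool.Agent.H96R2.EQP.totient_prod S hS]
  push_cast
  rw [← prod_div_distrib]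
  apply prod_congr rfl
  intro p hp
  have : (p : ℝ) ≠ 0 := by exact_mod_cast (hS p hp).pos.ne'
  field_simp

theorem frW (X q : ℕ) : (Nat.totient (Wq X q) : ℝ) / Wq X q = ∏ p ∈ Sm X q, (1 - 1 / (p : ℝ)) :=
  frac_prod fun _ hp => (mem_Sm.1 hp).2.1

theorem fr_prod {q : ℕ} (hq : 1 ≤ q) : fr q = ∏ p ∈ q.primeFactors, (1 - 1 / (p : ℝ)) := by
  unfold fr
  have h := Nat.totient_eq_mul_prod_factors q
  have hq0 : (q : ℝ) ≠ 0 := by exact_mod_cast (by omega : q ≠ 0)
  have h2 : (Nat.totient q : ℝ) = q * ∏ p ∈ q.primeFactors, (1 - (p : ℝ)⁻¹) := by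
    have h3 := congrArg (fun x : ℚ => (x : ℝ)) h
    push_cast at h3
    exact h3
  rw [h2, mul_div_cancel_left₀ _ hq0]
  apply prod_congr rfl
  intro p _
  rw [one_div]

theorem one_sub_pos {p : ℕ} (hp : p.Prime) : 0 < 1 - 1 / (p : ℝ) := by
  have h1 : (1 : ℝ) < p := by exact_mod_cast hp.one_lt
  rw [sub_pos, div_lt_one (by linarith)]
  exact h1

theorem fr_pos {q : ℕ} (hq : 1 ≤ q) : 0 < fr q := by
  rw [fr_prod hq]
  exact prod_pos fun p hp => one_sub_pos (Nat.prime_of_mem_primeFactors hp)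

theorem fr_le_one (q : ℕ) : fr q ≤ 1 := by
  unfold fr
  apply div_le_one_of_le₀ _ (Nat.cast_nonneg _)
  exact_mod_cast Nat.totient_le q

/-- the product over all primes below `2^(2^J)` and the large primes dividing `q` -/
theorem triple_prod {δ : ℝ} {X q : ℕ} (hq : 1 ≤ q) (hqX : q ≤ X)
    (hH : HH X < 2 ^ 2 ^ JJ δ X) :
    (∏ p ∈ Q1 δ X q, (1 - 1 / (p : ℝ))) * ((Nat.totient (Wq X q) : ℝ) / Wq X q) * fr q =
      (∏ p ∈ (range (2 ^ 2 ^ JJ δ X)).filter Nat.Prime, (1 - 1 / (p : ℝ))) *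
        ∏ p ∈ TT δ X q, (1 - 1 / (p : ℝ)) := by
  rw [frW, fr_prod hq]
  set z := 2 ^ 2 ^ JJ δ X with hz
  have hs : q.primeFactors = q.primeFactors.filter (fun p => p < z) ∪ TT δ X q := by
    ext p
    rw [mem_union, mem_filter, TT, mem_filter, mem_P2', Nat.mem_primeFactors]
    constructor
    · rintro ⟨h1, h2, h3⟩
      by_cases h : p < z
      · exact Or.inl ⟨⟨h1, h2, h3⟩, h⟩
      · exact Or.inr ⟨⟨(Nat.le_of_dvd (by omega) h2).trans hqX, h1, by omega⟩, h2⟩
    · rintro (h | h)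
      · exact h.1
      · exact ⟨h.1.2.1, h.2, by omega⟩
  have hd : Disjoint (q.primeFactors.filter (fun p => p < z)) (TT δ X q) := by
    rw [Finset.disjoint_left]
    intro p hp hp'
    rw [mem_filter] at hp
    rw [TT, mem_filter, mem_P2'] at hp'
    omega
  rw [hs, prod_union hd, ← mul_assoc]
  congr 1
  have hs2 : (range z).filter Nat.Prime =
      (Q1 δ X q ∪ Sm X q) ∪ q.primeFactors.filter (fun p => p < z) := by
    ext p
    rw [mem_union, mem_union, mem_filter, mem_range, mem_Q1, mem_Sm, mem_filter,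
      Nat.mem_primeFactors]
    constructor
    · rintro ⟨h1, h2⟩
      by_cases h : p ∣ q
      · exact Or.inr ⟨⟨h2, h, by omega⟩, h1⟩
      · left
        by_cases h3 : p ≤ HH X
        · exact Or.inr ⟨h3, h2, h⟩
        · exact Or.inl ⟨⟨h1, h2, by omega⟩, h⟩
    · rintro ((h | h) | h)
      · exact ⟨h.1.1, h.1.2.1⟩
      · exact ⟨by omega, h.2.1⟩
      · exact ⟨h.2, h.1.1⟩
  have hd1 : Disjoint (Q1 δ X q) (Sm X q) := by
    rw [Finset.disjoint_left]
    intro p hp hp'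
    rw [mem_Q1] at hp
    rw [mem_Sm] at hp'
    omega
  have hd2 : Disjoint (Q1 δ X q ∪ Sm X q) (q.primeFactors.filter (fun p => p < z)) := by
    rw [Finset.disjoint_left]
    intro p hp hp'
    rw [mem_filter, Nat.mem_primeFactors] at hp'
    rw [mem_union, mem_Q1, mem_Sm] at hp
    rcases hp with h | h
    · exact h.2 hp'.1.2.1
    · exact h.2.2 hp'.1.2.1
  rw [hs2, prod_union hd2, prod_union hd1]

theorem prod_T_le_one {δ : ℝ} {X q : ℕ} : ∏ p ∈ TT δ X q, (1 - 1 / (p : ℝ)) ≤ 1 := by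
  apply prod_le_one
  · intro p hp
    exact (one_sub_pos (mem_P2'.1 (mem_filter.1 hp).1).2.1).le
  · intro p _
    have : (0 : ℝ) ≤ 1 / (p : ℝ) := by positivity
    linarith

theorem prod_T_pos {δ : ℝ} {X q : ℕ} : 0 < ∏ p ∈ TT δ X q, (1 - 1 / (p : ℝ)) :=
  prod_pos fun _ hp => one_sub_pos (mem_P2'.1 (mem_filter.1 hp).1).2.1

/-- sums over sets of primes, removing the primes which divide `q` -/
theorem GG_split (P : Finset ℕ) (hP : ∀ p ∈ P, p.Prime) (q : ℕ) (Y : ℝ) :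
    GG (P.powerset.filter (fun R : Finset ℕ => ∏ p ∈ R, (p : ℝ) ≤ Y)) ≤
      Pi1 (P.filter (fun p => p ∣ q)) *
        GG ((P.filter (fun p => ¬ p ∣ q)).powerset.filter
          (fun R : Finset ℕ => ∏ p ∈ R, (p : ℝ) ≤ Y)) := by
  classical
  have h1 : Pi1 (P.filter (fun p => p ∣ q)) = ∑ R ∈ (P.filter (fun p => p ∣ q)).powerset, wt R := by
    unfold Pi1 wt
    rw [prod_one_add]
  rw [h1]
  unfold GG
  rw [sum_mul_sum, ← sum_product']
  have hw : ∀ R ∈ P.powerset, wt R = wt (R.filter (fun p => p ∣ q)) *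
      wt (R.filter (fun p => ¬ p ∣ q)) := by
    intro R _
    unfold wt
    rw [prod_filter_mul_prod_filter_not]
  have hnn : ∀ R ⊆ P, 0 ≤ wt R := fun R hR => wt_nonneg hP hR
  calc ∑ R ∈ P.powerset.filter (fun R : Finset ℕ => ∏ p ∈ R, (p : ℝ) ≤ Y), wt R
      = ∑ R ∈ P.powerset.filter (fun R : Finset ℕ => ∏ p ∈ R, (p : ℝ) ≤ Y),
          (fun x : Finset ℕ × Finset ℕ => wt x.1 * wt x.2)
            (R.filter (fun p => p ∣ q), R.filter (fun p => ¬ p ∣ q)) := by
        refine sum_congr rfl fun R hR => ?_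
        exact hw R (mem_filter.1 hR).1
    _ = ∑ x ∈ (P.powerset.filter (fun R : Finset ℕ => ∏ p ∈ R, (p : ℝ) ≤ Y)).image
          (fun R => (R.filter (fun p => p ∣ q), R.filter (fun p => ¬ p ∣ q))),
          wt x.1 * wt x.2 := by
        rw [sum_image]
        intro R _ R' _ h
        simp only [Prod.mk.injEq] at h
        rw [← filter_union_filter_not_eq (fun p => p ∣ q) R,
          ← filter_union_filter_not_eq (fun p => p ∣ q) R', h.1, h.2]
    _ ≤ _ := by
        apply sum_le_sum_of_subset_of_nonneg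
        · intro x hx
          rw [mem_image] at hx
          obtain ⟨R, hR, rfl⟩ := hx
          rw [mem_filter, mem_powerset] at hR
          rw [mem_product, mem_powerset, mem_filter, mem_powerset]
          refine ⟨filter_subset_filter _ hR.1, filter_subset_filter _ hR.1, ?_⟩
          refine le_trans ?_ hR.2
          have h2 : ∏ p ∈ R.filter (fun p => ¬ p ∣ q), (p : ℝ) ≤
              (∏ p ∈ R.filter (fun p => p ∣ q), (p : ℝ)) *
              ∏ p ∈ R.filter (fun p => ¬ p ∣ q), (p : ℝ) := by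
            apply le_mul_of_one_le_left
            · exact prod_nonneg fun _ _ => Nat.cast_nonneg _
            · have h3 : 0 < ∏ p ∈ R.filter (fun p => p ∣ q), p :=
                prod_pos fun p hp => (hP p (hR.1 (mem_filter.1 hp).1)).pos
              have h4 : (1 : ℝ) ≤ ((∏ p ∈ R.filter (fun p => p ∣ q), p : ℕ) : ℝ) := by
                exact_mod_cast h3
              push_cast at h4
              exact h4
          rw [prod_filter_mul_prod_filter_not] at h2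
          exact h2
        · intro x hx _
          rw [mem_product, mem_powerset, mem_filter, mem_powerset] at hx
          exact mul_nonneg (hnn _ (hx.1.trans (filter_subset _ _)))
            (hnn _ (hx.2.1.trans (filter_subset _ _)))

/-- the same, divided by the product -/
theorem GG_lower {δ : ℝ} {X q : ℕ} {Y : ℝ} :
    (∏ p ∈ TT δ X q, (1 - 1 / (p : ℝ))) *
      GG ((P2 (JJ δ X) X).powerset.filter (fun R : Finset ℕ => ∏ p ∈ R, (p : ℝ) ≤ Y)) ≤
    GG ((Q2 δ X q).powerset.filter (fun R : Finset ℕ => ∏ p ∈ R, (p : ℝ) ≤ Y)) := by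
  have hP : ∀ p ∈ P2 (JJ δ X) X, p.Prime := fun p hp => (mem_P2'.1 hp).2.1
  have h1 := GG_split (P2 (JJ δ X) X) hP q Y
  have h2 := mul_le_mul_of_nonneg_left h1 (prod_T_pos (δ := δ) (X := X) (q := q)).le
  refine h2.trans (le_of_eq ?_)
  have h3 : (∏ p ∈ TT δ X q, (1 - 1 / (p : ℝ))) *
      Pi1 ((P2 (JJ δ X) X).filter (fun p => p ∣ q)) = 1 :=
    Pool.Agent.H488R2.prod_inv (TT δ X q) (fun p hp => hP p (mem_filter.1 hp).1)
  rw [← mul_assoc, h3, one_mul]
  rfl

end Pool.Agent.H533.QM
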