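import Pool.Agent.H533.QM.Arith

/-!
Progressions to every modulus: lower bound of `φ(q)/q`, the size of the parameters, the number of
positions.
-/

set_option autoImplicit false

open Finset Filter Topology

namespace Pool.Agent.H533.QM

open Pool.Agent.H361R2.PP
open Pool.Agent.H410R2.AC (wt GG Pi1)
open Pool.Agent.H410R2

theorem Pi1_mono {S T : Finset ℕ} (h : S ⊆ T) (hT : ∀ p ∈ T, p.Prime) : Pi1 S ≤ Pi1 T := by
  unfold Pi1
  apply prod_le_prod_of_subset_of_one_le h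
  · intro p hp
    have h1 : (1 : ℝ) < p := by exact_mod_cast (hT p (h hp)).one_lt
    have : (0 : ℝ) < (p : ℝ) - 1 := by linarith
    positivity
  · intro p hp _
    have h1 : (1 : ℝ) < p := by exact_mod_cast (hT p hp).one_lt
    have : (0 : ℝ) < (p : ℝ) - 1 := by linarith
    have : 0 ≤ 1 / ((p : ℝ) - 1) := by positivity
    linarith

/-- `φ(q)/q ≥ c / log log X` for `q ≤ X` -/
theorem fr_lower : ∃ c : ℝ, 0 < c ∧ ∃ X₀ : ℕ, ∀ X : ℕ, X₀ ≤ X → ∀ q : ℕ, 1 ≤ q → q ≤ X →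
    c / Real.log (Real.log X) ≤ fr q := by
  obtain ⟨C, hC1, hC⟩ := Pool.Agent.H647R2.ACNT.nt1
  have hl2 : (0 : ℝ) < Real.log 2 := Real.log_pos (by norm_num)
  have hl2' : 1 / 2 ≤ Real.log 2 := by have := Real.log_two_gt_d9; linarith
  obtain ⟨C', hC'⟩ : ∃ C' : ℝ, C' = (2 * C / Real.log 2) * 2 * Real.exp 2 := ⟨_, rfl⟩
  have hC'0 : 0 < C' := by rw [hC']; positivity
  have t1 : Tendsto (fun X : ℕ => Real.log (X : ℝ)) atTop atTop :=
    Real.tendsto_log_atTop.comp tendsto_natCast_atTop_atTop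
  obtain ⟨X₀, hX₀⟩ := eventually_atTop.1 (t1.eventually_ge_atTop 2)
  refine ⟨1 / C', by positivity, X₀, fun X hX q hq hqX => ?_⟩
  have hl := hX₀ X hX
  set ℓ := Real.log X with hℓ
  set H := ⌈ℓ⌉₊ with hH
  have hH1 : ℓ ≤ H := Nat.le_ceil _
  have hH2 : (H : ℝ) < ℓ + 1 := Nat.ceil_lt_add_one (by linarith)
  have hH2n : 2 ≤ H := by
    have : (2 : ℝ) ≤ H := by linarith
    exact_mod_cast this
  have hHr : (2 : ℝ) ≤ H := by exact_mod_cast hH2n
  have hlogH : Real.log 2 ≤ Real.log H := Real.log_le_log (by norm_num) hHr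
  have hll : Real.log 2 ≤ Real.log ℓ := Real.log_le_log (by norm_num) hl
  have hll0 : 0 < Real.log ℓ := by linarith
  -- split
  have hpf : ∀ p ∈ q.primeFactors, p.Prime := fun p hp => Nat.prime_of_mem_primeFactors hp
  have h1 := Pool.Agent.H488R2.prod_inv q.primeFactors hpf
  rw [← fr_prod hq] at h1
  have hfr := fr_pos hq
  have hPi : Pi1 q.primeFactors ≤ C' * Real.log ℓ := by
    have h2 : Pi1 q.primeFactors = Pi1 (q.primeFactors.filter (fun p => p ≤ H)) *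
        Pi1 (q.primeFactors.filter (fun p => ¬ p ≤ H)) := by
      unfold Pi1
      rw [prod_filter_mul_prod_filter_not]
    have h3 : Pi1 (q.primeFactors.filter (fun p => p ≤ H)) ≤ (2 * C / Real.log 2) * Real.log H := by
      refine le_trans (Pi1_mono ?_ ?_) (Pool.Agent.H647R2.ACNT.Pi1_SH_le C hC1 hC H hH2n)
      · intro p hp
        rw [mem_filter] at hp
        unfold Pool.Agent.H647R2.ACNT.SH
        rw [mem_filter, mem_range]
        exact ⟨by omega, hpf p hp.1⟩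
      · intro p hp
        unfold Pool.Agent.H647R2.ACNT.SH at hp
        exact (mem_filter.1 hp).2
    have h4 : Pi1 (q.primeFactors.filter (fun p => ¬ p ≤ H)) ≤ Real.exp 2 := by
      have h5 : q.primeFactors.filter (fun p => ¬ p ≤ H) ⊆
          (AC.PP H X).filter (fun p => p ∣ q) := by
        intro p hp
        rw [mem_filter, Nat.mem_primeFactors] at hp
        rw [mem_filter, AC.PP, mem_filter, mem_range]
        have := Nat.le_of_dvd (by omega) hp.1.2.1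
        exact ⟨⟨by omega, hp.1.1, by omega⟩, hp.1.2.1⟩
      have h6 : Pi1 (q.primeFactors.filter (fun p => ¬ p ≤ H)) ≤
          Real.exp (∑ p ∈ q.primeFactors.filter (fun p => ¬ p ≤ H), 1 / ((p : ℝ) - 1)) := by
        rw [Real.exp_sum]
        unfold Pi1
        apply Finset.prod_le_prod
        · intro p hp
          have h1 : (1 : ℝ) < p := by exact_mod_cast (hpf p (mem_filter.1 hp).1).one_lt
          have : (0 : ℝ) < (p : ℝ) - 1 := by linarith
          positivity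
        · intro p _
          rw [add_comm]
          exact Real.add_one_le_exp _
      refine h6.trans (Real.exp_le_exp.2 ?_)
      have h7 : ∑ p ∈ q.primeFactors.filter (fun p => ¬ p ≤ H), 1 / ((p : ℝ) - 1) ≤
          ∑ p ∈ (AC.PP H X).filter (fun p => p ∣ q), 1 / ((p : ℝ) - 1) := by
        apply sum_le_sum_of_subset_of_nonneg h5
        intro p hp _
        rw [mem_filter, AC.PP, mem_filter] at hp
        have h1 : (1 : ℝ) < p := by exact_mod_cast hp.1.2.1.one_lt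
        have : (0 : ℝ) < (p : ℝ) - 1 := by linarith
        positivity
      refine h7.trans ((Pool.Agent.H647R2.ACNT.nt5 H X q X hH2n hq hqX).trans ?_)
      have hlH0 : 0 < Real.log H := by linarith
      rw [div_le_iff₀ (by positivity)]
      have h8 : (1 : ℝ) ≤ 2 * Real.log H := by linarith
      calc Real.log X = ℓ * 1 := by rw [hℓ, mul_one]
        _ ≤ H * (2 * Real.log H) := mul_le_mul hH1 h8 zero_le_one (by positivity)
        _ = _ := by ring
    have h5 : Real.log H ≤ 2 * Real.log ℓ := by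
      have h6 : (H : ℝ) ≤ ℓ ^ 2 := by nlinarith
      have h7 := Real.log_le_log (by linarith) h6
      rw [Real.log_pow] at h7
      push_cast at h7
      exact h7
    have h6 : 0 ≤ Pi1 (q.primeFactors.filter (fun p => ¬ p ≤ H)) := by
      unfold Pi1
      apply prod_nonneg
      intro p hp
      have h1 : (1 : ℝ) < p := by exact_mod_cast (hpf p (mem_filter.1 hp).1).one_lt
      have : (0 : ℝ) < (p : ℝ) - 1 := by linarith
      positivity
    rw [h2]
    calc _ ≤ ((2 * C / Real.log 2) * Real.log H) * Real.exp 2 :=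
          mul_le_mul h3 h4 h6 (by positivity)
      _ ≤ ((2 * C / Real.log 2) * (2 * Real.log ℓ)) * Real.exp 2 := by gcongr
      _ = _ := by rw [hC']; ring
  rw [div_div, div_le_iff₀ (by positivity)]
  calc (1 : ℝ) = fr q * Pi1 q.primeFactors := h1.symm
    _ ≤ fr q * (C' * Real.log ℓ) := mul_le_mul_of_nonneg_left hPi hfr.le

/-- the scale is larger than any fixed multiple of the square of the modulus -/
theorem L_big (M : ℝ) : ∃ X₀ : ℕ, ∀ X : ℕ, X₀ ≤ X → ∀ q : ℕ, 1 ≤ q → q ≤ X →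
    M * (Wq X q : ℝ) ^ 2 ≤ fr q * Real.log X := by
  obtain ⟨c, hc, X₁, h1⟩ := fr_lower
  have t1 : Tendsto (fun X : ℕ => Real.log (X : ℝ)) atTop atTop :=
    Real.tendsto_log_atTop.comp tendsto_natCast_atTop_atTop
  have t2 : ∀ᶠ x : ℝ in atTop, |M| * Real.log x ≤ c * x ^ (3 / 10 : ℝ) := by
    have := (isLittleO_log_rpow_atTop (show (0 : ℝ) < 3 / 10 by norm_num)).bound
      (c := c / (|M| + 1)) (by positivity)
    filter_upwards [this, eventually_ge_atTop (1 : ℝ)] with x hx hx1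
    rw [Real.norm_eq_abs, Real.norm_eq_abs, abs_of_nonneg (Real.log_nonneg hx1),
      abs_of_nonneg (show (0 : ℝ) ≤ x ^ (3 / 10 : ℝ) by positivity)] at hx
    have h2 : 0 ≤ Real.log x := Real.log_nonneg hx1
    calc |M| * Real.log x ≤ (|M| + 1) * Real.log x := by nlinarith
      _ ≤ (|M| + 1) * (c / (|M| + 1) * x ^ (3 / 10 : ℝ)) :=
          mul_le_mul_of_nonneg_left hx (by positivity)
      _ = _ := by field_simp
  obtain ⟨X₂, h2⟩ := eventually_atTop.1 ((t1.eventually t2).and (t1.eventually_ge_atTop 3))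
  refine ⟨max 16 (max X₁ X₂), fun X hX q hq hqX => ?_⟩
  simp only [max_le_iff] at hX
  have hf := h1 X hX.2.1 q hq hqX
  obtain ⟨h3, h4⟩ := h2 X hX.2.2
  set ℓ := Real.log X with hℓ
  have hℓ0 : 0 < ℓ := by linarith
  have hll : 0 < Real.log ℓ := Real.log_pos (by linarith)
  have hW : (Wq X q : ℝ) ≤ ℓ ^ (7 / 20 : ℝ) :=
    le_trans (by exact_mod_cast Wq_le X q) (Pool.Agent.H325R2.wtx.1 X hX.1)
  have hW2 : (Wq X q : ℝ) ^ 2 ≤ ℓ ^ (7 / 10 : ℝ) := by
    calc (Wq X q : ℝ) ^ 2 ≤ (ℓ ^ (7 / 20 : ℝ)) ^ 2 := pow_le_pow_left₀ (Nat.cast_nonneg _) hW 2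
      _ = _ := by
        rw [← Real.rpow_natCast, ← Real.rpow_mul hℓ0.le]
        norm_num
  calc M * (Wq X q : ℝ) ^ 2 ≤ |M| * ℓ ^ (7 / 10 : ℝ) :=
        mul_le_mul (le_abs_self M) hW2 (by positivity) (abs_nonneg _)
    _ ≤ (c * ℓ ^ (3 / 10 : ℝ) / Real.log ℓ) * ℓ ^ (7 / 10 : ℝ) := by
        apply mul_le_mul_of_nonneg_right _ (by positivity)
        rw [le_div_iff₀ hll]
        exact h3
    _ = (c / Real.log ℓ) * (ℓ ^ (3 / 10 : ℝ) * ℓ ^ (7 / 10 : ℝ)) := by ring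
    _ = (c / Real.log ℓ) * ℓ := by
        rw [← Real.rpow_add hℓ0]
        norm_num
    _ ≤ fr q * ℓ := mul_le_mul_of_nonneg_right hf hℓ0.le

theorem V1_Q1_pos (δ : ℝ) (X q : ℕ) : 0 < EN.V1 (Q1 δ X q) :=
  prod_pos fun _ hp => one_sub_pos (mem_Q1.1 hp).1.2.1

theorem phW_pos (X q : ℕ) : 0 < (Nat.totient (Wq X q) : ℝ) / Wq X q := by
  have h1 := Wq_pos X q
  have h2 : (0 : ℝ) < Wq X q := by exact_mod_cast h1
  have h3 : (0 : ℝ) < Nat.totient (Wq X q) := by exact_mod_cast Nat.totient_pos.2 h1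
  positivity

theorem phW_le_one (X q : ℕ) : (Nat.totient (Wq X q) : ℝ) / Wq X q ≤ 1 := by
  apply div_le_one_of_le₀ _ (Nat.cast_nonneg _)
  exact_mod_cast Nat.totient_le _

/-- Mertens type bound -/
theorem merq : ∃ C : ℝ, 1 ≤ C ∧ ∀ δ : ℝ, 0 < δ → δ ≤ 1 → ∃ X₀ : ℕ, ∀ X : ℕ, X₀ ≤ X →
    ∀ q : ℕ, 1 ≤ q → q ≤ X →
    EN.V1 (Q1 δ X q) * ((fr q * Real.log X) * ((Nat.totient (Wq X q) : ℝ) / Wq X q)) * δ ≤ C := by
  obtain ⟨C, hC1, hC⟩ := Pool.Agent.H488R2.mer Pool.Agent.H325R2.wtx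
  refine ⟨C, hC1, fun δ hδ hδ1 => ?_⟩
  obtain ⟨X₁, h1⟩ := hC δ hδ hδ1
  obtain ⟨X₂, h2⟩ := Pool.Agent.H325R2.wtx.2 δ hδ hδ1
  refine ⟨max 2 (max X₁ X₂), fun X hX q hq hqX => ?_⟩
  simp only [max_le_iff] at hX
  obtain ⟨-, h3, h4⟩ := h1 X hX.2.1
  have h5 := triple_prod (δ := δ) hq hqX (h2 X hX.2.2).2.2
  have hL : 0 < Real.log X := Real.log_pos (by exact_mod_cast (by omega : 1 < X))
  have hp0 : 0 < ∏ p ∈ (range (2 ^ 2 ^ JJ δ X)).filter Nat.Prime, (1 - 1 / (p : ℝ)) :=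
    prod_pos fun p hp => one_sub_pos (mem_filter.1 hp).2
  rw [← h4] at h3
  unfold EN.V1
  calc _ = ((∏ p ∈ Q1 δ X q, (1 - 1 / (p : ℝ))) * ((Nat.totient (Wq X q) : ℝ) / Wq X q) * fr q) *
        (δ * Real.log X) := by ring
    _ = ((∏ p ∈ (range (2 ^ 2 ^ JJ δ X)).filter Nat.Prime, (1 - 1 / (p : ℝ))) *
        ∏ p ∈ TT δ X q, (1 - 1 / (p : ℝ))) * (δ * Real.log X) := by rw [h5]
    _ ≤ ((∏ p ∈ (range (2 ^ 2 ^ JJ δ X)).filter Nat.Prime, (1 - 1 / (p : ℝ))) * 1) *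
        (δ * Real.log X) := by
        apply mul_le_mul_of_nonneg_right _ (by positivity)
        exact mul_le_mul_of_nonneg_left prod_T_le_one hp0.le
    _ ≤ C := by rw [mul_one]; exact h3

/-- the density of the rough numbers tends to zero -/
theorem mrvq (δ s : ℝ) (hδ : 0 < δ) (hδ1 : δ ≤ 1) (hs : 0 < s) : ∃ X₀ : ℕ, ∀ X : ℕ, X₀ ≤ X →
    ∀ q : ℕ, 1 ≤ q → q ≤ X → EN.V1 (Q1 δ X q) ≤ s := by
  obtain ⟨C, hC1, hC⟩ := merq
  obtain ⟨X₁, h1⟩ := hC δ hδ hδ1
  obtain ⟨X₂, h2⟩ := L_big (C / (δ * s))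
  refine ⟨max X₁ X₂, fun X hX q hq hqX => ?_⟩
  simp only [max_le_iff] at hX
  have h3 := h1 X hX.1 q hq hqX
  have h4 := h2 X hX.2 q hq hqX
  have hV := V1_Q1_pos δ X q
  have hW : (1 : ℝ) ≤ Wq X q := by exact_mod_cast Wq_pos X q
  have hφ : (1 : ℝ) ≤ Nat.totient (Wq X q) := by
    exact_mod_cast Nat.totient_pos.2 (Wq_pos X q)
  have h5 : C / (δ * s) ≤ (fr q * Real.log X) * ((Nat.totient (Wq X q) : ℝ) / Wq X q) := by
    calc C / (δ * s) = (C / (δ * s) * 1) := by ring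
      _ ≤ C / (δ * s) * (Wq X q : ℝ) := mul_le_mul_of_nonneg_left hW (by positivity)
      _ = (C / (δ * s) * (Wq X q : ℝ) ^ 2) * (1 / (Wq X q : ℝ)) := by field_simp
      _ ≤ (fr q * Real.log X) * (1 / (Wq X q : ℝ)) :=
          mul_le_mul_of_nonneg_right h4 (by positivity)
      _ ≤ _ := by
          apply mul_le_mul_of_nonneg_left
          · exact div_le_div_of_nonneg_right hφ (by linarith)
          · have : 0 ≤ C / (δ * s) * (Wq X q : ℝ) ^ 2 := by positivity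
            linarith
  have h6 : EN.V1 (Q1 δ X q) * (C / (δ * s)) * δ ≤ C := by
    refine le_trans ?_ h3
    apply mul_le_mul_of_nonneg_right _ hδ.le
    exact mul_le_mul_of_nonneg_left h5 hV.le
  have h7 : EN.V1 (Q1 δ X q) * (C / (δ * s)) * δ = (EN.V1 (Q1 δ X q) / s) * C := by
    field_simp
  rw [h7] at h6
  have h8 : EN.V1 (Q1 δ X q) / s ≤ 1 := by
    by_contra hcon
    push Not at hcon
    nlinarith
  rw [div_le_one hs] at h8
  exact h8

end Pool.Agent.H533.QM
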