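import Pool.Graph.R_seed8.H442R2.EHI.PntErr
import Pool.Graph.R_seed8.H96R2.EQP.Main

/-!
Progressions to every modulus: the number of primes in the intervals `[X + y, 2X + y)` with
`y ≤ Λ X log X`.
-/

set_option autoImplicit false

open Finset Filter Topology

namespace Pool.Agent.H533.QM

open Pool.Agent.H442R2.EHI

/-- the number of primes in `[X + y, 2X + y)` -/
noncomputable def Pry (X y : ℕ) : ℝ := (((Ico (X + y) (2 * X + y)).filter Nat.Prime).card : ℝ)

theorem theta_diff (u v : ℕ) (hu : 1 ≤ u) (huv : u ≤ v) :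
    ∑ p ∈ (Ico u v).filter Nat.Prime, Real.log p =
      Chebyshev.theta ((v - 1 : ℕ) : ℝ) - Chebyshev.theta ((u - 1 : ℕ) : ℝ) := by
  have e : ∀ m : ℕ, Chebyshev.theta (m : ℝ) = ∑ p ∈ Ioc 0 m with p.Prime, Real.log p := by
    intro m
    simp [Chebyshev.theta]
  rw [e, e]
  have h1 : (Ioc 0 (v - 1)).filter Nat.Prime =
      (Ioc 0 (u - 1)).filter Nat.Prime ∪ (Ico u v).filter Nat.Prime := by
    rw [← filter_union]
    congr 1
    ext n
    rw [mem_union, mem_Ioc, mem_Ioc, mem_Ico]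
    omega
  have h2 : Disjoint ((Ioc 0 (u - 1)).filter Nat.Prime) ((Ico u v).filter Nat.Prime) := by
    rw [Finset.disjoint_left]
    intro n hn hn'
    rw [mem_filter, mem_Ioc] at hn
    rw [mem_filter, mem_Ico] at hn'
    omega
  rw [h1, sum_union h2]
  ring

/-- primes in `[X + y, 2X + y)`, uniformly for `y ≤ Λ X log X` -/
theorem pnt_shift (s Λ : ℝ) (hs : 0 < s) (hΛ : 0 < Λ) : ∃ X₀ : ℕ, ∀ X : ℕ, X₀ ≤ X → ∀ y : ℕ,
    (y : ℝ) ≤ Λ * (X * Real.log X) →
    (1 - s) * X ≤ Real.log X * Pry X y ∧ Real.log X * Pry X y ≤ (1 + s) * X := by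
  wlog hs1 : s ≤ 1 / 2 with H
  · obtain ⟨X₀, h⟩ := H (1 / 2) Λ (by norm_num) hΛ le_rfl
    refine ⟨X₀, fun X hX y hy => ?_⟩
    obtain ⟨h1, h2⟩ := h X hX y hy
    have hX0 : (0 : ℝ) ≤ X := Nat.cast_nonneg X
    have h3 : 1 / 2 ≤ s := by linarith
    constructor
    · have : (1 - s) * (X : ℝ) ≤ (1 - 1 / 2) * X := mul_le_mul_of_nonneg_right (by linarith) hX0
      linarith
    · have : (1 + 1 / 2) * (X : ℝ) ≤ (1 + s) * X := mul_le_mul_of_nonneg_right (by linarith) hX0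
      linarith
  obtain ⟨C, hC, hth⟩ := PntErrAux.thetaU 3
  -- eventual conditions
  have t1 : Tendsto (fun x : ℝ => Real.log x) atTop atTop := Real.tendsto_log_atTop
  have e1 : ∀ᶠ x : ℝ in atTop, (4 * (C + 1) * (Λ + 2)) / (s / 4) ≤ Real.log x :=
    t1.eventually_ge_atTop _
  have e2 : ∀ᶠ x : ℝ in atTop, (2 : ℝ) ≤ Real.log x := t1.eventually_ge_atTop _
  have e3 : ∀ᶠ x : ℝ in atTop, Real.log ((Λ + 2) * Real.log x) ≤ (s / 4) * Real.log x := by
    have hb := ((Real.isLittleO_log_id_atTop).comp_tendsto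
      (t1.const_mul_atTop (show (0 : ℝ) < Λ + 2 by linarith))).bound
      (c := s / 4 / (Λ + 2)) (by positivity)
    filter_upwards [hb, e2] with x hx hx2
    simp only [Function.comp, id] at hx
    have h1 := (le_abs_self _).trans hx
    rw [Real.norm_eq_abs, abs_of_nonneg (by positivity)] at h1
    refine h1.trans (le_of_eq ?_)
    field_simp
  have e4 : ∀ᶠ x : ℝ in atTop, (8 : ℝ) ≤ x := eventually_ge_atTop 8
  obtain ⟨Y, hY⟩ := eventually_atTop.1 (e1.and (e2.and (e3.and e4)))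
  refine ⟨⌈Y⌉₊, fun X hX y hy => ?_⟩
  obtain ⟨g1, g2, g3, g4⟩ := hY X ((Nat.le_ceil _).trans (by exact_mod_cast hX))
  have hX4 : 8 ≤ X := by exact_mod_cast g4
  have hX0 : (0 : ℝ) < X := by linarith
  set ℓ := Real.log X with hℓ
  have hℓ0 : 0 < ℓ := by linarith
  have hsum := theta_diff (X + y) (2 * X + y) (by omega) (by omega)
  set u := X + y with hu
  set v := 2 * X + y with hv
  -- bounds of theta
  have hbd : ∀ N : ℕ, X / 2 ≤ N → N ≤ v → |Chebyshev.theta (N : ℝ) - N| ≤ (s / 4) * X := by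
    intro N h1 h2
    have hN2 : 2 ≤ N := by omega
    refine (hth N hN2).trans ?_
    have hN0 : (0 : ℝ) < N := by exact_mod_cast (by omega : 0 < N)
    have h3 : (N : ℝ) ≤ (Λ + 2) * (X * ℓ) := by
      have h4 : (N : ℝ) ≤ v := by exact_mod_cast h2
      have h5 : (v : ℝ) = 2 * X + y := by rw [hv]; push_cast; ring
      have h6 : 2 * (X : ℝ) ≤ 2 * (X * ℓ) := by nlinarith
      nlinarith
    have h4 : ℓ / 2 ≤ Real.log N := by
      have h5 : (X : ℝ) ≤ (N : ℝ) ^ 2 := by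
        have h6 : X ≤ N ^ 2 := by
          have h7 : X < 2 * N + 2 := by omega
          nlinarith
        exact_mod_cast h6
      have h6 := Real.log_le_log hX0 h5
      rw [Real.log_pow] at h6
      push_cast at h6
      linarith
    have h5 : (N : ℝ) / Real.log N ^ 3 ≤ ((Λ + 2) * (X * ℓ)) / (ℓ / 2) ^ 3 := by
      apply div_le_div₀ (by positivity) h3 (by positivity)
      exact pow_le_pow_left₀ (by positivity) h4 3
    have h6 : C * (((Λ + 2) * (X * ℓ)) / (ℓ / 2) ^ 3) ≤ (s / 4) * X := by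
      have h7 : C * (((Λ + 2) * (X * ℓ)) / (ℓ / 2) ^ 3) = (8 * C * (Λ + 2) / ℓ ^ 2) * X := by
        field_simp
        ring
      rw [h7]
      apply mul_le_mul_of_nonneg_right _ hX0.le
      rw [div_le_iff₀ (by positivity)]
      rw [div_le_iff₀ (by positivity)] at g1
      have h8 : 8 * C * (Λ + 2) ≤ 2 * (4 * (C + 1) * (Λ + 2)) := by nlinarith
      have h9 : 2 * (ℓ * (s / 4)) ≤ ℓ * (ℓ * (s / 4)) :=
        mul_le_mul_of_nonneg_right g2 (by positivity)
      have h10 : s / 4 * ℓ ^ 2 = ℓ * (ℓ * (s / 4)) := by ring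
      rw [h10]
      linarith
    calc C * ((N : ℝ) / Real.log N ^ 3) ≤ C * (((Λ + 2) * (X * ℓ)) / (ℓ / 2) ^ 3) :=
          mul_le_mul_of_nonneg_left h5 hC.le
      _ ≤ _ := h6
  have hb1 := abs_le.1 (hbd (v - 1) (by omega) (by omega))
  have hb2 := abs_le.1 (hbd (u - 1) (by omega) (by omega))
  have hcv : ((v - 1 : ℕ) : ℝ) - ((u - 1 : ℕ) : ℝ) = X := by
    rw [Nat.cast_sub (by omega), Nat.cast_sub (by omega), hu, hv]
    push_cast
    ring
  have hlo : (1 - s / 2) * X ≤ ∑ p ∈ (Ico u v).filter Nat.Prime, Real.log p := by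
    rw [hsum]; nlinarith [hb1.1, hb2.2]
  have hhi : ∑ p ∈ (Ico u v).filter Nat.Prime, Real.log p ≤ (1 + s / 2) * X := by
    rw [hsum]; nlinarith [hb1.2, hb2.1]
  have hP : Pry X y = (((Ico u v).filter Nat.Prime).card : ℝ) := rfl
  have hP0 : 0 ≤ Pry X y := by rw [hP]; positivity
  have hl1 : ℓ * Pry X y ≤ ∑ p ∈ (Ico u v).filter Nat.Prime, Real.log p := by
    rw [hP, mul_comm, ← nsmul_eq_mul, ← sum_const]
    apply sum_le_sum
    intro p hp
    rw [mem_filter, mem_Ico] at hp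
    rw [hℓ]
    apply Real.log_le_log hX0
    exact_mod_cast (by omega : X ≤ p)
  have hl2 : ∑ p ∈ (Ico u v).filter Nat.Prime, Real.log p ≤ ((1 + s / 4) * ℓ) * Pry X y := by
    rw [hP, mul_comm, ← nsmul_eq_mul, ← sum_const]
    apply sum_le_sum
    intro p hp
    rw [mem_filter, mem_Ico] at hp
    have hp0 : (0 : ℝ) < p := by exact_mod_cast (by omega : 0 < p)
    have h1 : (p : ℝ) ≤ X * ((Λ + 2) * ℓ) := by
      have h2 : (p : ℝ) ≤ 2 * X + y := by exact_mod_cast (by omega : p ≤ 2 * X + y)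
      nlinarith
    have h2 := Real.log_le_log hp0 h1
    rw [Real.log_mul hX0.ne' (by positivity)] at h2
    linarith
  constructor
  · have h1 : (1 - s / 2) * X ≤ (1 + s / 4) * (ℓ * Pry X y) := by linarith
    have h2 : (1 - s) * (1 + s / 4) ≤ 1 - s / 2 := by nlinarith
    have h3 : (1 + s / 4) * ((1 - s) * X) ≤ (1 + s / 4) * (ℓ * Pry X y) := by
      refine le_trans ?_ h1
      calc (1 + s / 4) * ((1 - s) * X) = ((1 - s) * (1 + s / 4)) * X := by ring
        _ ≤ _ := mul_le_mul_of_nonneg_right h2 hX0.le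
    exact le_of_mul_le_mul_left h3 (by positivity)
  · have h1 : (1 + s / 2) * X ≤ (1 + s) * X := mul_le_mul_of_nonneg_right (by linarith) hX0.le
    linarith

end Pool.Agent.H533.QM
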