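import Pool.Agent.H533.QM.Eqi
import Pool.Agent.H533.QM.Pnt

/-!
Progressions to every modulus: equidistribution of the integers `n` prime to `q` with `n + y` prime,
`y` a multiple of `q` (Bombieri-Vinogradov).
-/

set_option autoImplicit false

open Finset Filter Topology

namespace Pool.Agent.H533.QM

open Pool.Agent.H361R2.PP
open Pool.Agent.H96R2.EQP
open Pool.Agent.H398R2.BV

/-- the main comparison -/
theorem main_cmpq {X q b y r : ℕ} {D : Finset ℕ} (_hX : 1 ≤ X) (hq : 1 ≤ q) (hqX : q ≤ X)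
    (hqy : q ∣ y) (hy : 1 ≤ y) (hb : b < Wq X q) (hD : ∀ p ∈ D, p.Prime)
    (hcop : (Wq X q).Coprime (∏ p ∈ D, p)) (hba : (b + y).Coprime (Wq X q))
    (hr : ∀ p ∈ D, ¬ p ∣ r + y) :
    ∃ c : ℕ, c.Coprime (Wq X q * ∏ p ∈ D, p) ∧
    |(((Spr (Sc X q b) y).filter (fun n => ∀ p ∈ D, n % p = r % p)).card : ℝ) -
        Pry X y / Nat.totient (Wq X q) / ∏ p ∈ D, ((p : ℝ) - 1)| ≤
    |H343E.piAP (2 * X + y - 1) (Wq X q * ∏ p ∈ D, p) c -
        H343E.pi1 (2 * X + y - 1) / (Nat.totient (Wq X q * ∏ p ∈ D, p) : ℝ)| +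
    |H343E.piAP (X + y - 1) (Wq X q * ∏ p ∈ D, p) c -
        H343E.pi1 (X + y - 1) / (Nat.totient (Wq X q * ∏ p ∈ D, p) : ℝ)| := by
  obtain ⟨W, hWd⟩ : ∃ W, W = Wq X q := ⟨_, rfl⟩
  have hW : 0 < W := by rw [hWd]; exact Wq_pos X q
  unfold Spr Sc
  rw [← hWd] at hb hcop hba ⊢
  obtain ⟨m, hm⟩ : ∃ m : ℕ, m = ∏ p ∈ D, p := ⟨_, rfl⟩
  obtain ⟨c, hcW, hcm⟩ := Nat.chineseRemainder hcop b r
  rw [← hm] at hcop hcm ⊢
  have hm0 : 0 < m := by rw [hm]; exact Finset.prod_pos fun p hp => (hD p hp).pos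
  have hc1 : (c + y).Coprime W := by
    have h1 : c + y ≡ b + y [MOD W] := hcW.add_right _
    rw [Nat.Coprime, h1.gcd_eq]
    exact hba
  have hc2 : (c + y).Coprime m := by
    rw [hm]
    apply Nat.Coprime.prod_right
    intro p hp
    have hpp := hD p hp
    apply Nat.Coprime.symm
    rw [Nat.Prime.coprime_iff_not_dvd hpp]
    intro hdvd
    apply hr p hp
    have hpm : p ∣ m := by rw [hm]; exact Finset.dvd_prod_of_mem (fun p => p) hp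
    have h1 : c + y ≡ r + y [MOD p] := (hcm.of_dvd hpm).add_right _
    exact (h1.dvd_iff dvd_rfl).mp hdvd
  refine ⟨c + y, hc1.mul_right hc2, ?_⟩
  have hcq : ∀ n : ℕ, X ≤ n → (n + y).Prime → n.Coprime q := by
    intro n hn hp
    have h1 : (n + y).Coprime q := by
      rw [Nat.Prime.coprime_iff_not_dvd hp]
      intro h2
      have := Nat.le_of_dvd (by omega) h2
      omega
    obtain ⟨k, hk⟩ := hqy
    rw [hk] at h1
    rwa [Nat.coprime_add_mul_left_left] at h1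
  -- the count
  have hcount : ((((((Ico X (2 * X)).filter (fun n => n % W = b ∧ n.Coprime q)).filter
      (fun n => (n + y).Prime)).filter (fun n => ∀ p ∈ D, n % p = r % p)).card : ℕ) : ℝ) =
      (((Ico (X + y) (2 * X + y)).filter (fun l => l.Prime ∧ l ≡ c + y [MOD W * m])).card : ℝ) := by
    congr 1
    apply Finset.card_bij (fun n _ => n + y)
    · intro n hn
      rw [mem_filter, mem_filter, mem_filter, mem_Ico] at hn
      rw [mem_filter, mem_Ico]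
      refine ⟨by omega, hn.1.2, ?_⟩
      apply Nat.ModEq.add_right
      rw [← Nat.modEq_and_modEq_iff_modEq_mul hcop]
      constructor
      · have h1 : n ≡ b [MOD W] := by
          rw [Nat.ModEq, hn.1.1.2.1, Nat.mod_eq_of_lt hb]
        exact h1.trans hcW.symm
      · have h1 := (prod_dvd_iff D hD n r).mp hn.2
        rw [← hm] at h1
        exact h1.trans hcm.symm
    · intro n _ n' _ h; exact Nat.add_right_cancel h
    · intro l hl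
      rw [mem_filter, mem_Ico] at hl
      refine ⟨l - y, ?_, by omega⟩
      have hla : l - y + y = l := by omega
      have h1 : l - y + y ≡ c + y [MOD W * m] := by rw [hla]; exact hl.2.2
      have h2 : l - y ≡ c [MOD W * m] := Nat.ModEq.add_right_cancel' _ h1
      rw [← Nat.modEq_and_modEq_iff_modEq_mul hcop] at h2
      have hlp : (l - y + y).Prime := by rw [hla]; exact hl.2.1
      rw [mem_filter, mem_filter, mem_filter, mem_Ico]
      refine ⟨⟨⟨by omega, ?_, hcq _ (by omega) hlp⟩, hlp⟩, ?_⟩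
      · have h3 := h2.1.trans hcW
        rw [Nat.ModEq, Nat.mod_eq_of_lt hb] at h3
        exact h3
      · rw [prod_dvd_iff D hD, ← hm]
        exact h2.2.trans hcm
  rw [hcount, count_interval _ _ _ _ (by omega) (by omega)]
  have hP : Pry X y = H343E.pi1 (2 * X + y - 1) - H343E.pi1 (X + y - 1) := by
    rw [← count_interval1 _ _ (by omega) (by omega)]
    rfl
  have hφ : (Nat.totient (W * m) : ℝ) = Nat.totient W * ∏ p ∈ D, ((p : ℝ) - 1) := by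
    rw [Nat.totient_mul hcop, Nat.cast_mul, hm, totient_prod D hD]
  have e1 : Pry X y / Nat.totient W / ∏ p ∈ D, ((p : ℝ) - 1) =
      Pry X y / (Nat.totient (W * m) : ℝ) := by
    rw [hφ, div_div]
  rw [e1, hP]
  obtain ⟨φ, hφe⟩ : ∃ φ : ℝ, φ = (Nat.totient (W * m) : ℝ) := ⟨_, rfl⟩
  rw [← hφe]
  have e2 : H343E.piAP (2 * X + y - 1) (W * m) (c + y) - H343E.piAP (X + y - 1) (W * m) (c + y) -
      (H343E.pi1 (2 * X + y - 1) - H343E.pi1 (X + y - 1)) / φ =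
      (H343E.piAP (2 * X + y - 1) (W * m) (c + y) - H343E.pi1 (2 * X + y - 1) / φ) -
      (H343E.piAP (X + y - 1) (W * m) (c + y) - H343E.pi1 (X + y - 1) / φ) := by ring
  rw [e2]
  exact abs_sub _ _

theorem eqPrimeq (K A : ℕ) (θ Λ : ℝ) (hθ : 0 < θ) (hΛ : 0 < Λ) : ∃ X₀ : ℕ, ∀ X : ℕ, X₀ ≤ X →
    ∀ q : ℕ, 1 ≤ q → q ≤ X → ∀ b : ℕ, b < Wq X q → ∀ y : ℕ, 1 ≤ y → q ∣ y →
    (y : ℝ) ≤ Λ * (X * Real.log X) → (b + y).Coprime (Wq X q) → ∀ P : Finset ℕ,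
    (∀ p ∈ P, p.Prime ∧ HH X < p ∧ p ≤ X ∧ ¬ p ∣ q) → ∃ Er : Finset ℕ → ℝ,
      Eqd (some y) P (Spr (Sc X q b) y) (Pry X y / Nat.totient (Wq X q)) Er ∧
      ∑ D ∈ P.powerset.filter (fun D : Finset ℕ => ∏ p ∈ D, (p : ℝ) ≤ (X : ℝ) ^ (1 / 2 - θ)),
        (K : ℝ) ^ D.card * Er D ≤ Pry X y / Nat.totient (Wq X q) / Real.log X ^ A := by
  obtain ⟨B, x0, hB⟩ := weighted ((K : ℝ) + 1)
    (by have : (0:ℝ) ≤ K := Nat.cast_nonneg _; linarith) (A + 6)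
  obtain ⟨X1, hX1⟩ := pnt_shift (1 / 2) Λ (by norm_num) hΛ
  obtain ⟨X2, hX2⟩ := W_le
  -- eventual conditions
  have e1 : ∀ᶠ X : ℝ in atTop, (2 : ℝ) ^ B * Real.log X ^ (B + 2) ≤ X ^ θ := ev_log _ _ θ hθ
  have e3 : ∀ᶠ X : ℝ in atTop, (1 : ℝ) * Real.log X ^ 2 ≤ X ^ (1 / 2 : ℝ) :=
    ev_log _ _ (1 / 2) (by norm_num)
  have e4 : ∀ᶠ X : ℝ in atTop, (20 + Λ : ℝ) ≤ Real.log X :=
    Real.tendsto_log_atTop.eventually (eventually_ge_atTop _)
  have e5 : ∀ᶠ X : ℝ in atTop, (3 : ℝ) ≤ X := eventually_ge_atTop 3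
  obtain ⟨Y, hY⟩ := eventually_atTop.mp (e1.and (e3.and (e4.and e5)))
  refine ⟨max (max X1 X2) (max x0 ⌈Y⌉₊), fun X hX q hq hqX b hb y hy1 hqy hyX hba P hP => ?_⟩
  have hXX1 : X1 ≤ X := ((le_max_left _ _).trans (le_max_left _ _)).trans hX
  have hXX2 : X2 ≤ X := ((le_max_right _ _).trans (le_max_left _ _)).trans hX
  have hXx0 : x0 ≤ X := ((le_max_left _ _).trans (le_max_right _ _)).trans hX
  have hXY : ⌈Y⌉₊ ≤ X := ((le_max_right _ _).trans (le_max_right _ _)).trans hX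
  have hXYr : Y ≤ X := (Nat.le_ceil _).trans (by exact_mod_cast hXY)
  obtain ⟨g1, g3, g4, g5⟩ := hY X hXYr
  have hPr := (hX1 X hXX1 y hyX).1
  have hW : (Wq X q : ℝ) ≤ Real.log X := le_trans (by exact_mod_cast Wq_le X q) (hX2 X hXX2)
  have hX0 : (0 : ℝ) < X := by linarith
  have hXn : 1 ≤ X := by
    have : (1 : ℝ) ≤ X := by linarith
    exact_mod_cast this
  obtain ⟨ℓ, hℓ⟩ : ∃ ℓ : ℝ, ℓ = Real.log X := ⟨_, rfl⟩
  rw [← hℓ] at g1 g3 g4 hPr hW hyX ⊢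
  have hℓ0 : 0 < ℓ := by linarith
  rw [one_mul] at g3
  have hX12 : (X : ℝ) ^ (1 / 2 : ℝ) * (X : ℝ) ^ (1 / 2 : ℝ) = X := by
    rw [← Real.rpow_add hX0]; norm_num
  have hX12' : (1 : ℝ) ≤ (X : ℝ) ^ (1 / 2 : ℝ) := Real.one_le_rpow (by linarith) (by norm_num)
  have hℓ2 : ℓ ^ 2 ≤ X := by nlinarith
  obtain ⟨W, hWd⟩ : ∃ W : ℕ, W = Wq X q := ⟨_, rfl⟩
  have hW0 : 0 < W := by rw [hWd]; exact Wq_pos X q
  rw [← hWd] at hW
  have hW0r : (0 : ℝ) < W := by exact_mod_cast hW0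
  -- the two endpoints
  obtain ⟨x1, hx1⟩ : ∃ x1 : ℕ, x1 = X + y - 1 := ⟨_, rfl⟩
  obtain ⟨x2, hx2⟩ : ∃ x2 : ℕ, x2 = 2 * X + y - 1 := ⟨_, rfl⟩
  have hx1a : X ≤ x1 := by omega
  have hx2a : X ≤ x2 := by omega
  have hx1b : x1 ≤ 2 * X + y := by omega
  have hx2b : x2 ≤ 2 * X + y := by omega
  have hup : ∀ x : ℕ, x ≤ 2 * X + y → (x : ℝ) ≤ X * ℓ ^ 2 := by
    intro x hx
    have h1 : (x : ℝ) ≤ 2 * X + y := by exact_mod_cast hx
    have h2 : (2 : ℝ) * X + Λ * (X * ℓ) ≤ X * ℓ ^ 2 := by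
      have h3 : 2 + Λ * ℓ ≤ ℓ ^ 2 := by nlinarith
      nlinarith
    linarith
  obtain ⟨M1, hM10, hM1, hM1s⟩ := hB x1 (hXx0.trans hx1a)
  obtain ⟨M2, hM20, hM2, hM2s⟩ := hB x2 (hXx0.trans hx2a)
  have hlogx : ∀ x : ℕ, X ≤ x → x ≤ 2 * X + y → ℓ ≤ Real.log x ∧ Real.log x ≤ 2 * ℓ := by
    intro x h1 h2
    have h1r : (X : ℝ) ≤ x := by exact_mod_cast h1
    have h2r := hup x h2
    constructor
    · rw [hℓ]; exact Real.log_le_log hX0 h1r
    · have : (x : ℝ) ≤ X ^ 2 := by nlinarith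
      calc Real.log x ≤ Real.log ((X : ℝ) ^ 2) := Real.log_le_log (by linarith) this
        _ = 2 * ℓ := by rw [Real.log_pow, hℓ]; norm_num
  -- the modulus is small
  have hqX : ∀ D : Finset ℕ, (∏ p ∈ D, (p : ℝ)) ≤ (X : ℝ) ^ (1 / 2 - θ) →
      (((W * ∏ p ∈ D, p : ℕ) : ℝ)) ≤ ℓ * (X : ℝ) ^ (1 / 2 - θ) := by
    intro D hD
    push_cast
    have h0 : (0 : ℝ) ≤ ∏ p ∈ D, (p : ℝ) := prod_nonneg fun _ _ => Nat.cast_nonneg _
    exact mul_le_mul hW hD h0 hℓ0.le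
  have hqle : ∀ D : Finset ℕ, (∏ p ∈ D, (p : ℝ)) ≤ (X : ℝ) ^ (1 / 2 - θ) → W * ∏ p ∈ D, p ≤ X := by
    intro D hD
    have h1 := hqX D hD
    have h2 : (X : ℝ) ^ (1 / 2 - θ) ≤ (X : ℝ) ^ (1 / 2 : ℝ) :=
      Real.rpow_le_rpow_of_exponent_le (by linarith) (by linarith)
    have h3 : ℓ ≤ (X : ℝ) ^ (1 / 2 : ℝ) := by
      have : ℓ ≤ ℓ ^ 2 := by nlinarith
      linarith
    have h4 : (((W * ∏ p ∈ D, p : ℕ) : ℝ)) ≤ X := by
      calc (((W * ∏ p ∈ D, p : ℕ) : ℝ)) ≤ ℓ * (X : ℝ) ^ (1 / 2 - θ) := h1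
        _ ≤ (X : ℝ) ^ (1 / 2 : ℝ) * (X : ℝ) ^ (1 / 2 : ℝ) :=
          mul_le_mul h3 h2 (by positivity) (by positivity)
        _ = X := hX12
    exact_mod_cast h4
  have hqsq : ∀ D : Finset ℕ, (∏ p ∈ D, (p : ℝ)) ≤ (X : ℝ) ^ (1 / 2 - θ) → ∀ x : ℕ, X ≤ x →
      x ≤ 2 * X + y → Real.log x ^ B * (((W * ∏ p ∈ D, p : ℕ) : ℝ)) ^ 2 < x := by
    intro D hD x hxa hxb
    obtain ⟨l1, l2⟩ := hlogx x hxa hxb
    have h1 := hqX D hD
    have h2 : (((W * ∏ p ∈ D, p : ℕ) : ℝ)) ^ 2 ≤ (ℓ * (X : ℝ) ^ (1 / 2 - θ)) ^ 2 :=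
      pow_le_pow_left₀ (Nat.cast_nonneg _) h1 2
    have h3 : Real.log x ^ B ≤ (2 * ℓ) ^ B := pow_le_pow_left₀ (by linarith) l2 B
    have h4 : ((X : ℝ) ^ (1 / 2 - θ)) ^ 2 = X * ((X : ℝ) ^ (- (2 * θ))) := by
      rw [← Real.rpow_natCast, ← Real.rpow_mul hX0.le]
      rw [show (1 / 2 - θ) * ((2 : ℕ) : ℝ) = 1 + (-(2 * θ)) by push_cast; ring, Real.rpow_add hX0,
        Real.rpow_one]
    have h5 : (2 * ℓ) ^ B * (ℓ * (X : ℝ) ^ (1 / 2 - θ)) ^ 2 =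
        (2 ^ B * ℓ ^ (B + 2)) * ((X : ℝ) ^ (- (2 * θ))) * X := by
      rw [mul_pow ℓ, h4, mul_pow 2 ℓ]; ring
    have h6 : (2 ^ B * ℓ ^ (B + 2)) * ((X : ℝ) ^ (- (2 * θ))) ≤ (X : ℝ) ^ (-θ) := by
      calc (2 ^ B * ℓ ^ (B + 2)) * ((X : ℝ) ^ (- (2 * θ))) ≤ (X : ℝ) ^ θ * ((X : ℝ) ^ (- (2 * θ))) :=
            mul_le_mul_of_nonneg_right g1 (by positivity)
        _ = (X : ℝ) ^ (-θ) := by
            rw [← Real.rpow_add hX0]; congr 1; ring
    have h7 : (X : ℝ) ^ (-θ) < 1 := Real.rpow_lt_one_of_one_lt_of_neg (by linarith) (by linarith)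
    calc Real.log x ^ B * (((W * ∏ p ∈ D, p : ℕ) : ℝ)) ^ 2
        ≤ (2 * ℓ) ^ B * (ℓ * (X : ℝ) ^ (1 / 2 - θ)) ^ 2 :=
          mul_le_mul h3 h2 (by positivity) (by positivity)
      _ = (2 ^ B * ℓ ^ (B + 2)) * ((X : ℝ) ^ (- (2 * θ))) * X := h5
      _ ≤ (X : ℝ) ^ (-θ) * X := mul_le_mul_of_nonneg_right h6 hX0.le
      _ < 1 * X := mul_lt_mul_of_pos_right h7 hX0
      _ = X := one_mul _
      _ ≤ x := by exact_mod_cast hxa
  -- the error
  have hPr0 : 0 ≤ Pry X y := by unfold Pry; positivity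
  have hφW : (0 : ℝ) < Nat.totient W := by exact_mod_cast Nat.totient_pos.mpr hW0
  have hΩ0 : 0 ≤ Pry X y / Nat.totient W := by positivity
  obtain ⟨Er, hEr⟩ : ∃ Er : Finset ℕ → ℝ, Er = fun D : Finset ℕ =>
      if (∏ p ∈ D, (p : ℝ)) ≤ (X : ℝ) ^ (1 / 2 - θ) then
        M2 (W * ∏ p ∈ D, p : ℕ) + M1 (W * ∏ p ∈ D, p : ℕ)
      else (X : ℝ) + Pry X y / Nat.totient W := ⟨_, rfl⟩
  refine ⟨Er, ⟨?_, ?_, ?_⟩, ?_⟩
  · -- no prime of `P` divides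
    intro n hn p hp a ha
    rw [Option.mem_def, Option.some.injEq] at ha
    subst ha
    rw [mem_Spr, mem_Sc] at hn
    obtain ⟨hpp, _, hpX, _⟩ := hP p hp
    intro hdvd
    have := (Nat.prime_dvd_prime_iff_eq hpp hn.2).mp hdvd
    omega
  · intro D
    rw [hEr]
    beta_reduce
    split_ifs
    · have := hM10 (W * ∏ p ∈ D, p)
      have := hM20 (W * ∏ p ∈ D, p)
      positivity
    · positivity
  · intro D hD r hr
    have hDp : ∀ p ∈ D, p.Prime := fun p hp => (hP p (hD hp)).1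
    have hph : ∏ p ∈ D, ph (some y) p = ∏ p ∈ D, ((p : ℝ) - 1) := by
      apply prod_congr rfl
      intro p _
      simp [ph]
    rw [hph, hEr]
    beta_reduce
    split_ifs with hsmall
    · have hcop := Wq_cop_prod (X := X) (q := q) (D := D)
        (fun p hp => ⟨(hP p (hD hp)).1, (hP p (hD hp)).2.1⟩)
      obtain ⟨cc, hcc, hmain⟩ := main_cmpq hXn hq ‹q ≤ X› hqy hy1 hb hDp hcop hba
        (fun p hp => hr p hp y rfl)
      rw [← hWd] at hcc hmain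
      have hm0 : 0 < ∏ p ∈ D, p := prod_pos fun p hp => (hDp p hp).pos
      have hq1 : 1 ≤ W * ∏ p ∈ D, p := Nat.mul_pos hW0 hm0
      have hqX' := hqle D hsmall
      have m2 := hM2 _ cc hq1 hcc (hqsq D hsmall x2 hx2a hx2b) (hqX'.trans hx2a)
      have m1 := hM1 _ cc hq1 hcc (hqsq D hsmall x1 hx1a hx1b) (hqX'.trans hx1a)
      rw [hx2] at m2
      rw [hx1] at m1
      rw [← hWd]
      refine hmain.trans ?_
      linarith
    · have hcard : (((Spr (Sc X q b) y).filter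
          (fun n => ∀ p ∈ D, n % p = r % p)).card : ℝ) ≤ X := by
        have : ((Spr (Sc X q b) y).filter (fun n => ∀ p ∈ D, n % p = r % p)).card ≤
            (Ico X (2 * X)).card :=
          (card_filter_le _ _).trans ((card_filter_le _ _).trans (card_filter_le _ _))
        rw [Nat.card_Ico] at this
        have h2 : ((Spr (Sc X q b) y).filter (fun n => ∀ p ∈ D, n % p = r % p)).card ≤ X := by
          omega
        exact_mod_cast h2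
      have hprod : (1 : ℝ) ≤ ∏ p ∈ D, ((p : ℝ) - 1) := by
        have h1 : ∀ p ∈ D, (1 : ℝ) ≤ (p : ℝ) - 1 := by
          intro p hp
          have : (2 : ℝ) ≤ p := by exact_mod_cast (hDp p hp).two_le
          linarith
        calc (1 : ℝ) = ∏ _p ∈ D, (1 : ℝ) := by simp
          _ ≤ _ := Finset.prod_le_prod (fun _ _ => zero_le_one) h1
      rw [← hWd]
      have h1 : Pry X y / Nat.totient W / ∏ p ∈ D, ((p : ℝ) - 1) ≤ Pry X y / Nat.totient W :=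
        div_le_self hΩ0 hprod
      have h2 : 0 ≤ Pry X y / Nat.totient W / ∏ p ∈ D, ((p : ℝ) - 1) := by positivity
      have h3 : (0 : ℝ) ≤ (((Spr (Sc X q b) y).filter
          (fun n => ∀ p ∈ D, n % p = r % p)).card : ℝ) := Nat.cast_nonneg _
      rw [abs_le]
      constructor <;> linarith
  · -- the sum
    obtain ⟨F, hF⟩ : ∃ F : Finset (Finset ℕ), F = P.powerset.filter
        (fun D : Finset ℕ => ∏ p ∈ D, (p : ℝ) ≤ (X : ℝ) ^ (1 / 2 - θ)) := ⟨_, rfl⟩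
    rw [← hF]
    have hFm : ∀ D ∈ F, (∀ p ∈ D, p ∈ P) ∧ ∏ p ∈ D, (p : ℝ) ≤ (X : ℝ) ^ (1 / 2 - θ) := by
      intro D hD
      rw [hF, mem_filter, mem_powerset] at hD
      exact ⟨fun p hp => hD.1 hp, hD.2⟩
    have hFp : ∀ D ∈ F, ∀ p ∈ D, p.Prime := fun D hD p hp => (hP p ((hFm D hD).1 p hp)).1
    have hFN : ∀ D ∈ F, W * ∏ p ∈ D, p ≤ X := fun D hD => hqle D (hFm D hD).2
    have hsplit : ∑ D ∈ F, (K : ℝ) ^ D.card * Er D =
        ∑ D ∈ F, (K : ℝ) ^ D.card * M2 (W * ∏ p ∈ D, p) +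
        ∑ D ∈ F, (K : ℝ) ^ D.card * M1 (W * ∏ p ∈ D, p) := by
      rw [← sum_add_distrib]
      apply sum_congr rfl
      intro D hD
      rw [hEr]
      beta_reduce
      rw [if_pos (hFm D hD).2]
      ring
    have s2 : ∑ D ∈ F, (K : ℝ) ^ D.card * M2 (W * ∏ p ∈ D, p) ≤ x2 / Real.log x2 ^ (A + 6) :=
      (sum_inj K W x2 hW0 F hFp (fun D hD => (hFN D hD).trans hx2a) M2 hM20).trans hM2s
    have s1 : ∑ D ∈ F, (K : ℝ) ^ D.card * M1 (W * ∏ p ∈ D, p) ≤ x1 / Real.log x1 ^ (A + 6) :=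
      (sum_inj K W x1 hW0 F hFp (fun D hD => (hFN D hD).trans hx1a) M1 hM10).trans hM1s
    have t : ∀ x : ℕ, X ≤ x → x ≤ 2 * X + y →
        (x : ℝ) / Real.log x ^ (A + 6) ≤ (1 / 20) * (X / ℓ ^ (A + 3)) := by
      intro x h1 h2
      obtain ⟨l1, l2⟩ := hlogx x h1 h2
      have h2r := hup x h2
      have h3 : (x : ℝ) / Real.log x ^ (A + 6) ≤ X * ℓ ^ 2 / ℓ ^ (A + 6) := by
        apply div_le_div₀ (by positivity) h2r (by positivity)
        exact pow_le_pow_left₀ hℓ0.le l1 _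
      refine h3.trans ?_
      have h4 : (X : ℝ) * ℓ ^ 2 / ℓ ^ (A + 6) = (X / ℓ ^ (A + 3)) / ℓ := by
        rw [show A + 6 = (A + 3) + 1 + 2 by ring, pow_add ℓ (A + 3 + 1) 2, pow_succ ℓ (A + 3)]
        field_simp
      rw [h4, div_le_iff₀ hℓ0]
      have h5 : 0 ≤ (X : ℝ) / ℓ ^ (A + 3) := by positivity
      nlinarith
    have t1 := t x1 hx1a hx1b
    have t2 := t x2 hx2a hx2b
    have hPr' : (X : ℝ) / (2 * ℓ) ≤ Pry X y := by
      rw [div_le_iff₀ (by positivity)]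
      linarith
    have t4 : (X : ℝ) / (2 * ℓ) / ℓ / ℓ ^ A ≤ Pry X y / Nat.totient W / ℓ ^ A := by
      apply div_le_div_of_nonneg_right _ (by positivity)
      apply div_le_div₀ hPr0 hPr' hφW
      have : (Nat.totient W : ℝ) ≤ W := by exact_mod_cast Nat.totient_le W
      linarith
    have t5 : (X : ℝ) / (2 * ℓ) / ℓ / ℓ ^ A = (1 / 2) * (X / ℓ ^ (A + 2)) := by
      have e : 2 * ℓ * (ℓ * ℓ ^ A) = 2 * ℓ ^ (A + 2) := by ring
      rw [div_div, div_div, e, ← div_div]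
      ring
    have t6 : (X : ℝ) / ℓ ^ (A + 3) ≤ X / ℓ ^ (A + 2) := by
      apply div_le_div_of_nonneg_left hX0.le (by positivity)
      exact pow_le_pow_right₀ (by linarith) (by omega)
    have t7 : 0 ≤ (X : ℝ) / ℓ ^ (A + 2) := by positivity
    rw [hsplit, ← hWd]
    linarith

end Pool.Agent.H533.QM
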