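import Pool.Agent.H533.QM.Sm4q
import Pool.Graph.R_seed8.H361R2.PP.Main3

/-!
Progressions to every modulus: one class, abstract form.  Adapted from
`Pool.Graph.R_seed8.H361R2.PP.Cls1`, `Cls2`, `Cls3`: the set of integers, the set of positions, the
sets of sieving primes and the number of the primes at each position are free.
-/

set_option autoImplicit false

open Finset

namespace Pool.Agent.H533.QM

open Pool.Agent.H361R2.PP
open Pool.Agent.H410R2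
open Pool.Agent.H410R2.AC (wt GG cfg term WW pos Inj coef)

/-- the integers with a prime at the position `a` -/
def Spr (S : Finset ℕ) (a : ℕ) : Finset ℕ := S.filter (fun n => (n + a).Prime)

theorem mem_Spr {S : Finset ℕ} {a n : ℕ} : n ∈ Spr S a ↔ n ∈ S ∧ (n + a).Prime := by
  unfold Spr
  rw [mem_filter]

theorem Spr_sub {S : Finset ℕ} {a : ℕ} : Spr S a ⊆ S := filter_subset _ _

/-- counting primes, first moment -/
theorem moment1q (S A : Finset ℕ) (w : ℕ → ℝ) :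
    ∑ n ∈ S, w n * (Np A n : ℝ) = ∑ a ∈ A, ∑ n ∈ Spr S a, w n := by
  have h1 : ∀ n ∈ S, w n * (Np A n : ℝ) = ∑ a ∈ A, if (n + a).Prime then w n else 0 := by
    intro n _
    unfold Np
    rw [← sum_filter, sum_const, nsmul_eq_mul, mul_comm]
  rw [sum_congr rfl h1, sum_comm]
  refine sum_congr rfl fun a _ => ?_
  unfold Spr
  rw [sum_filter]

/-- counting primes, second factorial moment -/
theorem moment2q (S A : Finset ℕ) (w : ℕ → ℝ) :
    ∑ n ∈ S, w n * ((Np A n : ℝ) * ((Np A n : ℝ) - 1)) =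
      ∑ a ∈ A, ∑ a' ∈ A.erase a, ∑ n ∈ (Spr S a).filter (fun n => (n + a').Prime), w n := by
  have h1 : ∀ n ∈ S, w n * ((Np A n : ℝ) * ((Np A n : ℝ) - 1)) =
      ∑ a ∈ A, ∑ a' ∈ A.erase a, if (n + a).Prime ∧ (n + a').Prime then w n else 0 := by
    intro n _
    have h2 : ∀ a ∈ A, (∑ a' ∈ A.erase a, if (n + a).Prime ∧ (n + a').Prime then w n else 0) =
        if (n + a).Prime then w n * ((Np A n : ℝ) - 1) else 0 := by
      intro a ha
      split_ifs with hp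
      · simp only [hp, true_and]
        have h3 : (A.erase a).filter (fun a' => (n + a').Prime) =
            (A.filter (fun a' => (n + a').Prime)).erase a := by
          ext x
          simp only [mem_filter, mem_erase]
          tauto
        have h4 : a ∈ A.filter (fun a' => (n + a').Prime) := mem_filter.2 ⟨ha, hp⟩
        rw [← sum_filter, sum_const, nsmul_eq_mul, mul_comm, h3, card_erase_of_mem h4]
        have h5 : 1 ≤ (A.filter (fun a' => (n + a').Prime)).card := card_pos.2 ⟨a, h4⟩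
        unfold Np
        rw [Nat.cast_sub h5]
        norm_num
      · apply sum_eq_zero
        intro x _
        rw [if_neg]
        tauto
    rw [sum_congr rfl h2, ← sum_filter, sum_const, nsmul_eq_mul]
    unfold Np
    ring
  rw [sum_congr rfl h1, sum_comm]
  refine sum_congr rfl fun a _ => ?_
  rw [sum_comm]
  refine sum_congr rfl fun a' _ => ?_
  unfold Spr
  rw [filter_filter, sum_filter]

/-- the conclusion of the moment theorems for one class -/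
def SMq {t : ℕ} {u : Fin t → ℝ} {c0 δ : ℝ} {X : ℕ} (s C Ω : ℝ) (Ω' : ℕ → ℝ)
    (S Ball P1' : Finset ℕ) (SS : Finset (Finset ℕ)) (D : Dat t u c0 δ X) : Prop :=
  ∀ B ⊆ Ball, ∀ c : (Fin t → Option ℕ) → ℝ, (∀ σ, |c σ| ≤ c0) →
    |∑ n ∈ S, WW B c (xq P1' D n) ^ 2 - Ω * Zv (EN.V1 P1') D B c| ≤ s * Ω ∧
    (∀ a ∈ Ball \ B,
      |∑ n ∈ S, (rg P1' a n * FS SS a n * WW B c (xq P1' D n)) ^ 2 -
        Ω * (EN.V1 P1' * GG SS * Zv (EN.V1 P1') D B c)| ≤ s * (Ω * EN.V1 P1')) ∧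
    (∀ a ∈ Ball \ B,
      |∑ n ∈ Spr S a, WW B c (xq P1' D n) ^ 2 - Ω' a * Zv (EN.V1 P1') D B c| ≤ s * Ω' a) ∧
    (∀ a ∈ Ball \ B, ∀ a' ∈ Ball \ B, a ≠ a' →
      |∑ n ∈ Spr S a, (rg P1' a' n * FS SS a' n * WW B c (xq P1' D n)) ^ 2 -
        Ω' a * (EN.V1 P1' * GG SS * Zv (EN.V1 P1') D B c)| ≤ s * (Ω' a * EN.V1 P1')) ∧
    ∑ n ∈ S, WW B c (xq P1' D n) ^ 4 ≤ C * Ω

/-- the standing situation for one class -/
structure Sitq {t : ℕ} {u : Fin t → ℝ} {c0 δ : ℝ} {X : ℕ} (s C η c Ω : ℝ) (Ω' : ℕ → ℝ)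
    (S Ball P1' P2' : Finset ℕ) (SS : Finset (Finset ℕ))
    (β : Fin t → ℝ) (D : Dat t u c0 δ X) : Prop where
  sm : SMq s C Ω Ω' S Ball P1' SS D
  s0 : 0 ≤ s
  s1 : s ≤ 1
  c00 : 0 ≤ c
  cc0 : (1 + c) ^ 2 ≤ c0
  β0 : ∀ τ, 0 ≤ β τ
  β1 : ∑ τ, β τ = 1
  gg : ∀ τ, 0 < GG (D.S τ)
  g : ∀ τ, D.g τ = β τ / GG (D.S τ)
  η0 : 0 ≤ η
  hη : ∀ τ, ∑ a ∈ Ball, qv (EN.V1 P1') D τ a ≤ η
  hq : ∀ a, ∑ τ, qv (EN.V1 P1') D τ a ≤ s
  ηs : η ≤ s / 2
  nS : ∀ n ∈ S, X ≤ n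
  aB : ∀ a ∈ Ball, 1 ≤ a
  p1 : ∀ p ∈ P1', p.Prime ∧ p ≤ X
  p2 : ∀ p ∈ P2', p.Prime ∧ p ≤ X
  ds : ∀ τ, ∀ R ∈ D.S τ, R ⊆ P2'
  ss : ∀ R ∈ SS, R ⊆ P2'
  se : ∅ ∈ SS
  Ω0 : 0 ≤ Ω
  Ω'0 : ∀ a ∈ Ball, 0 ≤ Ω' a

section

variable {t : ℕ} {u : Fin t → ℝ} {c0 δ : ℝ} {X : ℕ} {s C η c Ω : ℝ} {Ω' : ℕ → ℝ}
    {S Ball P1' P2' : Finset ℕ} {SS : Finset (Finset ℕ)}
    {β : Fin t → ℝ} {D : Dat t u c0 δ X}

theorem xq_prime (h : Sitq s C η c Ω Ω' S Ball P1' P2' SS β D) {n a : ℕ} (hn : n ∈ S)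
    (ha : a ∈ Ball) (hp : (n + a).Prime) (τ : Fin t) : xq P1' D n τ a = D.cf a * β τ := by
  have h1 := h.nS n hn
  have h2 := h.aB a ha
  unfold xq
  rw [rg_prime (P := P1') (fun p hp => ⟨(h.p1 p hp).1, by have := (h.p1 p hp).2; omega⟩) hp,
    FS_prime (P := P2') (fun p hp => ⟨(h.p2 p hp).1, by have := (h.p2 p hp).2; omega⟩)
      (h.ds τ) hp, h.g τ, one_mul]
  have := (h.gg τ).ne'
  field_simp

theorem specq_prime (h : Sitq s C η c Ω Ω' S Ball P1' P2' SS β D) {n a : ℕ} (hn : n ∈ S)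
    (ha : a ∈ Ball) (hp : (n + a).Prime) : rg P1' a n * FS SS a n = GG SS := by
  have h1 := h.nS n hn
  have h2 := h.aB a ha
  rw [rg_prime (P := P1') (fun p hp => ⟨(h.p1 p hp).1, by have := (h.p1 p hp).2; omega⟩) hp,
    FS_prime (P := P2') (fun p hp => ⟨(h.p2 p hp).1, by have := (h.p2 p hp).2; omega⟩)
      h.ss hp, one_mul]

theorem GGq_ge (h : Sitq s C η c Ω Ω' S Ball P1' P2' SS β D) : 1 ≤ GG SS := by
  calc (1 : ℝ) = wt ∅ := by unfold wt; simp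
    _ ≤ GG SS := single_le_sum (f := wt)
        (fun R hR => wt_nonneg (P := P2') (fun p hp => (h.p2 p hp).1) (h.ss R hR)) h.se

theorem V1_0 (h : Sitq s C η c Ω Ω' S Ball P1' P2' SS β D) : 0 ≤ EN.V1 P1' := by
  unfold EN.V1
  apply Finset.prod_nonneg
  intro p hp
  have h1 : (1 : ℝ) < p := by exact_mod_cast (h.p1 p hp).1.one_lt
  rw [sub_nonneg, div_le_one (by linarith)]
  exact h1.le

theorem qv_nonneg (h : Sitq s C η c Ω Ω' S Ball P1' P2' SS β D) (τ : Fin t) (a : ℕ) :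
    0 ≤ qv (EN.V1 P1') D τ a := by
  unfold qv
  have := (h.gg τ).le
  have h2 := V1_0 h
  positivity

theorem termq_nonneg (h : Sitq s C η c Ω Ω' S Ball P1' P2' SS β D) (σ : Fin t → Option ℕ) :
    0 ≤ term (qv (EN.V1 P1') D) σ := by
  unfold term
  refine prod_nonneg fun τ _ => ?_
  cases σ τ with
  | none => exact zero_le_one
  | some a => exact qv_nonneg h τ a

theorem Zv_one (V : ℝ) (B : Finset ℕ) :
    Zv V D B (fun _ => 1) = ∑ σ ∈ cfg t B, term (qv V D) σ := by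
  unfold Zv
  refine sum_congr rfl fun σ _ => ?_
  ring

/-- (E3): clusters, one prime -/
theorem E3q (hCol : Col) (hCob : Cob) (hMni : Mni)
    (h : Sitq s C η c Ω Ω' S Ball P1' P2' SS β D) {a : ℕ}
    (ha : a ∈ Ball) (hcf : D.cf a = c) :
    Ω' a * ((1 + c) ^ 2 * Zv (EN.V1 P1') D Ball (fun _ => 1) * (1 - 3 * s)) ≤
      ∑ n ∈ Spr S a, WW Ball (fun _ => 1) (xq P1' D n) ^ 2 ∧
    ∑ n ∈ Spr S a, WW Ball (fun _ => 1) (xq P1' D n) ^ 2 ≤
      Ω' a * ((1 + c) ^ 2 * Zv (EN.V1 P1') D Ball (fun _ => 1) * (1 + s)) := by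
  set B := Ball with hB
  have hc := h.c00
  have hs := h.s0
  have hcoll : ∀ n ∈ Spr S a, WW B (fun _ => 1) (xq P1' D n) ^ 2 =
      WW (B.erase a) (co1 c β) (xq P1' D n) ^ 2 := by
    intro n hn
    rw [mem_Spr] at hn
    rw [(hCol t B β (xq P1' D n) D.cf).1 a ha (fun τ => xq_prime h hn.1 ha hn.2 τ), hcf]
  rw [sum_congr rfl hcoll]
  have hcob := (hCob t β h.β0 h.β1)
  have hc0 : ∀ σ, |co1 c β σ| ≤ c0 := by
    intro σ
    obtain ⟨-, h1, h2, -, -⟩ := hcob.2 c hc σ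
    rw [abs_of_nonneg h1]
    have := h.cc0
    nlinarith
  have h3 := (h.sm (B.erase a) (erase_subset _ _) (co1 c β) hc0).2.2.1 a
    (by rw [mem_sdiff]; exact ⟨ha, notMem_erase a B⟩)
  have hΩ0 : 0 ≤ Ω' a := h.Ω'0 a ha
  obtain ⟨hM1, -, hM⟩ := hMni t B β (qv (EN.V1 P1') D) η h.η0 h.β0 h.β1 (fun τ a => qv_nonneg h τ a)
    h.hη
  obtain ⟨hm1, -, hm3, hm4⟩ := hM (B.erase a) (erase_subset _ _)
  rw [Zv_one]
  set M := ∑ σ ∈ cfg t B, term (qv (EN.V1 P1') D) σ with hMdef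
  set M' := ∑ σ ∈ cfg t (B.erase a), term (qv (EN.V1 P1') D) σ with hM'def
  have hsd : B \ B.erase a = {a} := by
    ext x
    simp only [mem_sdiff, mem_erase, mem_singleton]
    constructor
    · rintro ⟨h1, h2⟩
      by_contra h3
      exact h2 ⟨h3, h1⟩
    · rintro rfl
      exact ⟨ha, fun h => h.1 rfl⟩
  rw [hsd] at hm4
  simp only [sum_singleton] at hm4
  have hMq := h.hq a
  have hM'1 : (1 - s) * M ≤ M' := by
    refine le_trans ?_ hm4
    apply mul_le_mul_of_nonneg_right _ (by linarith)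
    linarith
  -- upper and lower bounds for the main term
  have hup : Zv (EN.V1 P1') D (B.erase a) (co1 c β) ≤ (1 + c) ^ 2 * M := by
    calc Zv (EN.V1 P1') D (B.erase a) (co1 c β) ≤
        ∑ σ ∈ cfg t (B.erase a), (1 + c) ^ 2 * term (qv (EN.V1 P1') D) σ := by
          unfold Zv
          refine sum_le_sum fun σ _ => ?_
          obtain ⟨-, h1, h2, -, -⟩ := hcob.2 c hc σ
          apply mul_le_mul_of_nonneg_right _ (termq_nonneg h σ)
          exact pow_le_pow_left₀ h1 h2 2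
      _ = (1 + c) ^ 2 * M' := by rw [mul_sum]
      _ ≤ _ := mul_le_mul_of_nonneg_left hm3 (by positivity)
  have hlow : (1 + c) ^ 2 * M' - 2 * c * (1 + c) * (η * M) ≤
      Zv (EN.V1 P1') D (B.erase a) (co1 c β) := by
    calc (1 + c) ^ 2 * M' - 2 * c * (1 + c) * (η * M) ≤
        (1 + c) ^ 2 * M' - 2 * c * (1 + c) *
          ∑ σ ∈ cfg t (B.erase a), coef β σ * term (qv (EN.V1 P1') D) σ := by
          have := mul_le_mul_of_nonneg_left hm1 (by positivity : 0 ≤ 2 * c * (1 + c))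
          linarith
      _ = ∑ σ ∈ cfg t (B.erase a), ((1 + c) ^ 2 - 2 * c * (1 + c) * coef β σ) *
            term (qv (EN.V1 P1') D) σ := by
          rw [hM'def, mul_sum, mul_sum, ← sum_sub_distrib]
          refine sum_congr rfl fun σ _ => ?_
          ring
      _ ≤ _ := by
          unfold Zv
          refine sum_le_sum fun σ _ => ?_
          obtain ⟨h1, -, -, -, -⟩ := hcob.2 c hc σ
          exact mul_le_mul_of_nonneg_right h1 (termq_nonneg h σ)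
  have hM0 : 0 ≤ M := by linarith
  have h1c : (1 : ℝ) ≤ (1 + c) ^ 2 := by nlinarith
  have hsM : s ≤ s * ((1 + c) ^ 2 * M) := by
    have : (1 : ℝ) ≤ (1 + c) ^ 2 * M := by nlinarith
    nlinarith
  have h4 := abs_le.1 h3
  constructor
  · have h5 : (1 + c) ^ 2 * M * (1 - 3 * s) ≤ Zv (EN.V1 P1') D (B.erase a) (co1 c β) - s := by
      have h6 : (1 + c) ^ 2 * ((1 - s) * M) ≤ (1 + c) ^ 2 * M' :=
        mul_le_mul_of_nonneg_left hM'1 (by positivity)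
      have h7 : 2 * c * (1 + c) * (η * M) ≤ s * ((1 + c) ^ 2 * M) := by
        have h8 : 2 * c * (1 + c) * (η * M) ≤ 2 * c * (1 + c) * (s / 2 * M) := by
          apply mul_le_mul_of_nonneg_left _ (by positivity)
          exact mul_le_mul_of_nonneg_right h.ηs hM0
        have h9 : c * (1 + c) * (s * M) ≤ (1 + c) ^ 2 * (s * M) := by
          apply mul_le_mul_of_nonneg_right _ (by positivity)
          nlinarith
        nlinarith
      nlinarith
    have h6 := mul_le_mul_of_nonneg_left h5 hΩ0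
    rw [mul_sub] at h6
    linarith [h4.1]
  · have h5 : Zv (EN.V1 P1') D (B.erase a) (co1 c β) + s ≤ (1 + c) ^ 2 * M * (1 + s) := by
      nlinarith
    have h6 := mul_le_mul_of_nonneg_left h5 hΩ0
    rw [mul_add] at h6
    linarith [h4.2]

/-- (E4): clusters, two primes -/
theorem E4q (hCol : Col) (hCob : Cob) (hMni : Mni)
    (h : Sitq s C η c Ω Ω' S Ball P1' P2' SS β D) {a a' : ℕ}
    (ha : a ∈ Ball) (ha' : a' ∈ Ball) (hne : a ≠ a')
    (hcf : D.cf a = c) (hcf' : D.cf a' = c) :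
    ∑ n ∈ (Spr S a).filter (fun n => (n + a').Prime),
        WW Ball (fun _ => 1) (xq P1' D n) ^ 2 ≤
      Ω' a * (EN.V1 P1' / GG SS) * ((1 + c) ^ 4 *
      Zv (EN.V1 P1') D Ball (fun _ => 1) * (1 + s)) := by
  set B := Ball with hB
  have hc := h.c00
  have hs := h.s0
  set G := GG SS with hG
  have hG1 : 1 ≤ G := GGq_ge h
  have hGy : ∀ y : ℝ, y ^ 2 = 1 / G ^ 2 * (G * y) ^ 2 := by
    intro y
    have : G ≠ 0 := by linarith
    field_simp
  have hcob := (hCob t β h.β0 h.β1)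
  set B' := (B.erase a).erase a' with hB'
  have hB's : B' ⊆ B := (erase_subset _ _).trans (erase_subset _ _)
  have hc0 : ∀ σ, |co2 c c β σ| ≤ c0 := by
    intro σ
    obtain ⟨-, -, -, h1, h2⟩ := hcob.2 c hc σ
    rw [abs_of_nonneg h1]
    exact h2.trans h.cc0
  have h1 : ∑ n ∈ (Spr S a).filter (fun n => (n + a').Prime), WW B (fun _ => 1) (xq P1' D n) ^ 2 ≤
      1 / G ^ 2 * ∑ n ∈ Spr S a, (rg P1' a' n * FS SS a' n * WW B' (co2 c c β) (xq P1' D n)) ^ 2 := by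
    rw [mul_sum]
    calc ∑ n ∈ (Spr S a).filter (fun n => (n + a').Prime), WW B (fun _ => 1) (xq P1' D n) ^ 2 =
        ∑ n ∈ (Spr S a).filter (fun n => (n + a').Prime),
          1 / G ^ 2 * (rg P1' a' n * FS SS a' n * WW B' (co2 c c β) (xq P1' D n)) ^ 2 := by
          refine sum_congr rfl fun n hn => ?_
          rw [mem_filter, mem_Spr] at hn
          rw [(hCol t B β (xq P1' D n) D.cf).2 a ha a' ha' hne (fun τ =>
            ⟨xq_prime h hn.1.1 ha hn.1.2 τ, xq_prime h hn.1.1 ha' hn.2 τ⟩), hcf, hcf',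
            specq_prime h hn.1.1 ha' hn.2]
          exact hGy _
      _ ≤ _ := sum_le_sum_of_subset_of_nonneg (filter_subset _ _) fun n _ _ => by positivity
  have h2 := (h.sm B' hB's (co2 c c β) hc0).2.2.2.1 a
    (by rw [mem_sdiff]; exact ⟨ha, fun h => (mem_erase.1 (mem_erase.1 h).2).1 rfl⟩) a'
    (by rw [mem_sdiff]; exact ⟨ha', fun h => (mem_erase.1 h).1 rfl⟩) hne
  have hΩ0 : 0 ≤ Ω' a := h.Ω'0 a ha
  obtain ⟨hM1, -, hM⟩ := hMni t B β (qv (EN.V1 P1') D) η h.η0 h.β0 h.β1 (fun τ a => qv_nonneg h τ a)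
    h.hη
  obtain ⟨-, -, hm3, -⟩ := hM B' hB's
  rw [Zv_one]
  set M := ∑ σ ∈ cfg t B, term (qv (EN.V1 P1') D) σ with hMdef
  have hV := V1_0 h
  set V := EN.V1 P1' with hVd
  have hΩVG : 0 ≤ Ω' a * (V * G) :=
    mul_nonneg hΩ0 (mul_nonneg hV (zero_le_one.trans hG1))
  have hup : Zv V D B' (co2 c c β) ≤ (1 + c) ^ 4 * M := by
    calc Zv V D B' (co2 c c β) ≤ ∑ σ ∈ cfg t B', (1 + c) ^ 4 * term (qv V D) σ := by
          unfold Zv
          refine sum_le_sum fun σ _ => ?_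
          obtain ⟨-, -, -, h1, h2⟩ := hcob.2 c hc σ
          apply mul_le_mul_of_nonneg_right _ (termq_nonneg h σ)
          calc co2 c c β σ ^ 2 ≤ ((1 + c) ^ 2) ^ 2 := pow_le_pow_left₀ h1 h2 2
            _ = (1 + c) ^ 4 := by ring
      _ = (1 + c) ^ 4 * ∑ σ ∈ cfg t B', term (qv V D) σ := by rw [mul_sum]
      _ ≤ _ := mul_le_mul_of_nonneg_left hm3 (by positivity)
  have h4 := (abs_le.1 h2).2
  have h1c : (1 : ℝ) ≤ (1 + c) ^ 4 := one_le_pow₀ (by linarith)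
  have hM0 : 0 ≤ M := by linarith
  have hsM : s ≤ s * ((1 + c) ^ 4 * M) := by
    have : (1 : ℝ) ≤ (1 + c) ^ 4 * M := by nlinarith
    nlinarith
  refine h1.trans ?_
  have h5 : ∑ n ∈ Spr S a, (rg P1' a' n * FS SS a' n * WW B' (co2 c c β) (xq P1' D n)) ^ 2 ≤
      Ω' a * (V * G) * ((1 + c) ^ 4 * M * (1 + s)) := by
    have h6 : s * (Ω' a * V) ≤ Ω' a * (V * G) * s := by
      have h0 : 0 ≤ s * (Ω' a * V) := mul_nonneg hs (mul_nonneg hΩ0 hV)
      calc s * (Ω' a * V) = s * (Ω' a * V) * 1 := by ring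
        _ ≤ s * (Ω' a * V) * G := mul_le_mul_of_nonneg_left hG1 h0
        _ = _ := by ring
    have h7 : Ω' a * (V * G * Zv V D B' (co2 c c β)) ≤
        Ω' a * (V * G) * ((1 + c) ^ 4 * M) := by
      rw [← mul_assoc]
      exact mul_le_mul_of_nonneg_left hup hΩVG
    have h8 : Ω' a * (V * G) * s ≤ Ω' a * (V * G) * (s * ((1 + c) ^ 4 * M)) :=
      mul_le_mul_of_nonneg_left hsM hΩVG
    have h9 : Ω' a * (V * G) * ((1 + c) ^ 4 * M * (1 + s)) =
      Ω' a * (V * G) * ((1 + c) ^ 4 * M) + Ω' a * (V * G) * (s * ((1 + c) ^ 4 * M)) := by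
      ring
    rw [h9]
    linarith
  calc 1 / G ^ 2 * ∑ n ∈ Spr S a, (rg P1' a' n * FS SS a' n * WW B' (co2 c c β) (xq P1' D n)) ^ 2
      ≤ 1 / G ^ 2 * (Ω' a * (V * G) * ((1 + c) ^ 4 * M * (1 + s))) :=
        mul_le_mul_of_nonneg_left h5 (by positivity)
    _ = _ := by
        have : G ≠ 0 := by linarith
        field_simp

/-- (E2): empty part, one prime -/
theorem E2q (hCol : Col) (hCob : Cob) (hMni : Mni)
    (h : Sitq s C η c Ω Ω' S Ball P1' P2' SS β D) {a : ℕ}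
    (ha : a ∈ Ball) (hcf : D.cf a = -1) :
    ∑ n ∈ Spr S a, WW Ball (fun _ => 1) (xq P1' D n) ^ 2 ≤
      Ω * (EN.V1 P1' / GG SS) *
        ((η + s) * Zv (EN.V1 P1') D Ball (fun _ => 1)) := by
  set B := Ball with hB
  have hc := h.c00
  have hs := h.s0
  set G := GG SS with hG
  have hG1 : 1 ≤ G := GGq_ge h
  have hGy : ∀ y : ℝ, y ^ 2 = 1 / G ^ 2 * (G * y) ^ 2 := by
    intro y
    have : G ≠ 0 := by linarith
    field_simp
  have hcob := (hCob t β h.β0 h.β1)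
  set B' := B.erase a with hB'
  have hB's : B' ⊆ B := erase_subset _ _
  have hco : co1 (-1) β = coef β := by
    funext σ
    exact (hcob.1 σ).1
  have hc0 : ∀ σ, |coef β σ| ≤ c0 := by
    intro σ
    obtain ⟨-, h1, h2⟩ := hcob.1 σ
    rw [abs_of_nonneg h1]
    have := h.cc0
    nlinarith
  have h1 : ∑ n ∈ Spr S a, WW B (fun _ => 1) (xq P1' D n) ^ 2 ≤
      1 / G ^ 2 * ∑ n ∈ S, (rg P1' a n * FS SS a n * WW B' (coef β) (xq P1' D n)) ^ 2 := by
    rw [mul_sum]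
    calc ∑ n ∈ Spr S a, WW B (fun _ => 1) (xq P1' D n) ^ 2 =
        ∑ n ∈ Spr S a, 1 / G ^ 2 * (rg P1' a n * FS SS a n * WW B' (coef β) (xq P1' D n)) ^ 2 := by
          refine sum_congr rfl fun n hn => ?_
          rw [mem_Spr] at hn
          rw [(hCol t B β (xq P1' D n) D.cf).1 a ha (fun τ => xq_prime h hn.1 ha hn.2 τ), hcf,
            hco, specq_prime h hn.1 ha hn.2]
          exact hGy _
      _ ≤ _ := sum_le_sum_of_subset_of_nonneg Spr_sub fun n _ _ => by positivity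
  have h2 := (h.sm B' hB's (coef β) hc0).2.1 a
    (by rw [mem_sdiff]; exact ⟨ha, notMem_erase a B⟩)
  have hΩ0 : 0 ≤ Ω := h.Ω0
  obtain ⟨hM1, -, hM⟩ := hMni t B β (qv (EN.V1 P1') D) η h.η0 h.β0 h.β1 (fun τ a => qv_nonneg h τ a)
    h.hη
  obtain ⟨-, hm2, -, -⟩ := hM B' hB's
  rw [Zv_one]
  set M := ∑ σ ∈ cfg t B, term (qv (EN.V1 P1') D) σ with hMdef
  have hV := V1_0 h
  set V := EN.V1 P1' with hVd
  have hΩVG : 0 ≤ Ω * (V * G) :=
    mul_nonneg hΩ0 (mul_nonneg hV (zero_le_one.trans hG1))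
  have hup : Zv V D B' (coef β) ≤ η * M := hm2
  have h4 := (abs_le.1 h2).2
  have hM0 : 0 ≤ M := by linarith
  refine h1.trans ?_
  have h5 : ∑ n ∈ S, (rg P1' a n * FS SS a n * WW B' (coef β) (xq P1' D n)) ^ 2 ≤
      Ω * (V * G) * ((η + s) * M) := by
    have h6 : s * (Ω * V) ≤ Ω * (V * G) * s := by
      have h0 : 0 ≤ s * (Ω * V) := mul_nonneg hs (mul_nonneg hΩ0 hV)
      calc s * (Ω * V) = s * (Ω * V) * 1 := by ring
        _ ≤ s * (Ω * V) * G := mul_le_mul_of_nonneg_left hG1 h0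
        _ = _ := by ring
    have h7 : Ω * (V * G * Zv V D B' (coef β)) ≤ Ω * (V * G) * (η * M) := by
      rw [← mul_assoc]
      exact mul_le_mul_of_nonneg_left hup hΩVG
    have h8 : Ω * (V * G) * s ≤ Ω * (V * G) * (s * M) := by
      apply mul_le_mul_of_nonneg_left _ hΩVG
      nlinarith
    have h9 : Ω * (V * G) * ((η + s) * M) =
      Ω * (V * G) * (η * M) + Ω * (V * G) * (s * M) := by
      ring
    rw [h9]
    linarith
  calc 1 / G ^ 2 * ∑ n ∈ S, (rg P1' a n * FS SS a n * WW B' (coef β) (xq P1' D n)) ^ 2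
      ≤ 1 / G ^ 2 * (Ω * (V * G) * ((η + s) * M)) :=
        mul_le_mul_of_nonneg_left h5 (by positivity)
    _ = _ := by
        have : G ≠ 0 := by linarith
        field_simp

theorem clsq (hCol : Col) (hCob : Cob) (hMni : Mni) (hPz : Pz) (hCs : Cs)
    (h : Sitq s C η c Ω Ω' S Ball P1' P2' SS β D) (hΩp : 0 < Ω) (hC : 0 < C)
    (k m : ℕ) (A : Fin k → Finset ℕ) (E : Finset ℕ) (ε Λ ℓ w4 : ℝ) (hε : 0 < ε) (hΛ : 0 < Λ)
    (hℓ : 0 < ℓ) (hAB : ∀ i, ∀ a ∈ A i, a ∈ Ball ∧ D.cf a = c)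
    (hEB : ∀ a ∈ E, a ∈ Ball ∧ D.cf a = -1)
    (hcA : ∀ i, |((A i).card : ℝ) - ε * ℓ| ≤ s * (ε * ℓ))
    (hcB : (Ball.card : ℝ) ≤ (1 + s) * (Λ * ℓ))
    (hpnt1 : ∀ a ∈ Ball, ℓ * Ω' a ≤ (1 + s) * Ω)
    (hpnt2 : ∀ a ∈ Ball, (1 - s) * Ω ≤ ℓ * Ω' a)
    (hw45 : 5 / 32 ≤ w4)
    (hVG : EN.V1 P1' / GG SS * (ℓ * w4) ≤ 1)
    (s' μ ξ : ℝ) (hs' : 7 * s ≤ s') (hs'1 : s' ≤ 1) (hμ : μ = ε * (1 + c) ^ 2)
    (hm : (1 + s') * (m : ℝ) ≤ (1 - s') * μ)
    (hξ : 1 / 4 - ξ ≤ ((1 - s') * μ - (1 + s') * m) ^ 2 /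
      ((1 + s) ^ 4 / w4 * μ ^ 2 + (1 + s') * μ))
    (hfin : 4 * k * ξ + (k + 1) * s' + 4 * (k + 1) * (20 * Λ * s) ≤ 3 / 4) :
    Ω / (16 * (3 * k + 1) ^ 2 * C) ≤
      ((S.filter (fun n => k ≤ 4 * Gd m (fun i => Np (A i)) n ∧ Np E n = 0)).card : ℝ) := by
  set B := Ball with hB
  set M := Zv (EN.V1 P1') D B (fun _ => 1) with hM
  set V : ℕ → ℝ := fun n => WW B (fun _ => 1) (xq P1' D n) with hV
  have hs0 := h.s0
  have hs1 := h.s1
  have hc := h.c00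
  have hM1 : 1 ≤ M := by
    rw [hM, Zv_one]
    exact (hMni t B β (qv (EN.V1 P1') D) η h.η0 h.β0 h.β1 (fun τ a => qv_nonneg h τ a) h.hη).1
  have hM0 : 0 < M := by linarith
  set v := EN.V1 P1' / GG SS with hv
  have hG1 : 1 ≤ GG SS := GGq_ge h
  have hv0 : 0 ≤ v := div_nonneg (V1_0 h) (by linarith)
  have hw40 : 0 < w4 := by linarith
  have hvL : v * ℓ ≤ 1 / w4 := by
    rw [le_div_iff₀ hw40]
    calc v * ℓ * w4 = v * (ℓ * w4) := by ring
      _ ≤ 1 := hVG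
  have hμ0 : 0 < μ := by rw [hμ]; positivity
  -- cardinalities
  have hA1 : ∀ i, (1 - s) * (ε * ℓ) ≤ ((A i).card : ℝ) := by
    intro i
    have := (abs_le.1 (hcA i)).1
    linarith
  have hA2 : ∀ i, ((A i).card : ℝ) ≤ (1 + s) * (ε * ℓ) := by
    intro i
    have := (abs_le.1 (hcA i)).2
    linarith
  -- second moment
  have hsm := (h.sm B (Subset.refl _) (fun _ => 1) (by
    intro σ
    rw [abs_one]
    have := h.cc0
    nlinarith))
  have hsm1 := abs_le.1 hsm.1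
  have hsM : s * Ω ≤ s * (Ω * M) := by
    apply mul_le_mul_of_nonneg_left _ hs0
    nlinarith
  obtain ⟨AA, hA⟩ : ∃ A : ℝ, A = Ω * M := ⟨_, rfl⟩
  rw [← hA] at hsM
  have hsm2 : ∑ n ∈ S, V n ^ 2 ≤ AA + s * Ω := by
    rw [hA]
    linarith [hsm1.2]
  have hsm3 : AA - s * Ω ≤ ∑ n ∈ S, V n ^ 2 := by
    rw [hA]
    linarith [hsm1.1]
  have hA0 : 0 < AA := by
    rw [hA]
    exact mul_pos hΩp hM0
  obtain ⟨h1, h1'⟩ := in4 hs' hs0 hA0 hsM hsm2 hsm3
  -- clusters, first moment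
  have h2 : ∀ i, (1 - s') * μ * AA ≤ ∑ n ∈ S, V n ^ 2 * Np (A i) n := by
    intro i
    rw [moment1q]
    by_cases hs3 : 1 - 3 * s ≤ 0
    · exfalso
      linarith
    push Not at hs3
    -- lower bound for each position
    have h3 : ((A i).card : ℝ) * ((1 - s) * Ω / ℓ * ((1 + c) ^ 2 * M * (1 - 3 * s))) ≤
        ∑ a ∈ A i, ∑ n ∈ Spr S a, V n ^ 2 := by
      rw [← nsmul_eq_mul, ← sum_const]
      refine sum_le_sum fun a ha => ?_
      refine le_trans ?_ (E3q hCol hCob hMni h (hAB i a ha).1 (hAB i a ha).2).1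
      apply mul_le_mul_of_nonneg_right
      · rw [div_le_iff₀ hℓ]
        linarith [hpnt2 a (hAB i a ha).1]
      · exact mul_nonneg (mul_nonneg (sq_nonneg _) hM0.le) hs3.le
    refine le_trans ?_ h3
    have h4 : (1 - s) * (ε * ℓ) * ((1 - s) * Ω / ℓ * ((1 + c) ^ 2 * M * (1 - 3 * s))) ≤
        ((A i).card : ℝ) * ((1 - s) * Ω / ℓ * ((1 + c) ^ 2 * M * (1 - 3 * s))) := by
      apply mul_le_mul_of_nonneg_right (hA1 i)
      apply mul_nonneg
      · apply div_nonneg _ hℓ.le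
        exact mul_nonneg (by linarith) hΩp.le
      · exact mul_nonneg (mul_nonneg (sq_nonneg _) hM0.le) hs3.le
    refine le_trans ?_ h4
    have h7 : 1 - s' ≤ (1 - s) * ((1 - s) * (1 - 3 * s)) := in1 hs0 hs1 hs'
    calc (1 - s') * μ * AA = (1 - s') * (μ * (Ω * M)) := by rw [hA]; ring
      _ ≤ (1 - s) * ((1 - s) * (1 - 3 * s)) * (μ * (Ω * M)) := by
          apply mul_le_mul_of_nonneg_right h7
          positivity
      _ = _ := by rw [hμ]; field_simp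
  have h2' : ∀ i, ∑ n ∈ S, V n ^ 2 * Np (A i) n ≤ (1 + s') * μ * AA := by
    intro i
    rw [moment1q]
    have h3 : ∑ a ∈ A i, ∑ n ∈ Spr S a, V n ^ 2 ≤
        ((A i).card : ℝ) * ((1 + s) * Ω / ℓ * ((1 + c) ^ 2 * M * (1 + s))) := by
      rw [← nsmul_eq_mul, ← sum_const]
      refine sum_le_sum fun a ha => ?_
      refine le_trans (E3q hCol hCob hMni h (hAB i a ha).1 (hAB i a ha).2).2 ?_
      apply mul_le_mul_of_nonneg_right
      · rw [le_div_iff₀ hℓ]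
        linarith [hpnt1 a (hAB i a ha).1]
      · exact mul_nonneg (mul_nonneg (sq_nonneg _) hM0.le) (by linarith)
    refine h3.trans ?_
    have h4 : ((A i).card : ℝ) * ((1 + s) * Ω / ℓ * ((1 + c) ^ 2 * M * (1 + s))) ≤
        (1 + s) * (ε * ℓ) * ((1 + s) * Ω / ℓ * ((1 + c) ^ 2 * M * (1 + s))) := by
      apply mul_le_mul_of_nonneg_right (hA2 i)
      positivity
    refine h4.trans ?_
    have h7 : (1 + s) * ((1 + s) * (1 + s)) ≤ 1 + s' := in2 hs0 hs1 hs'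
    calc (1 + s) * (ε * ℓ) * ((1 + s) * Ω / ℓ * ((1 + c) ^ 2 * M * (1 + s))) =
        (1 + s) * ((1 + s) * (1 + s)) * (μ * (Ω * M)) := by rw [hμ]; field_simp
      _ ≤ (1 + s') * (μ * (Ω * M)) := by
          apply mul_le_mul_of_nonneg_right h7
          positivity
      _ = _ := by rw [hA]; ring
  -- clusters, second factorial moment
  have h3 : ∀ i, ∑ n ∈ S, V n ^ 2 * (Np (A i) n *
      ((Np (A i) n : ℝ) - 1)) ≤ (1 + s) ^ 4 / w4 * μ ^ 2 * AA := by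
    intro i
    rw [moment2q]
    obtain ⟨T, hT⟩ : ∃ T : ℝ, T = (1 + s) * Ω / ℓ * v * ((1 + c) ^ 4 * M * (1 + s)) := ⟨_, rfl⟩
    have hT0 : 0 ≤ T := by
      rw [hT]
      positivity
    have h4 : ∑ a ∈ A i, ∑ a' ∈ (A i).erase a,
        ∑ n ∈ (Spr S a).filter (fun n => (n + a').Prime), V n ^ 2 ≤
        ∑ a ∈ A i, ∑ a' ∈ A i, T := by
      refine sum_le_sum fun a ha => ?_
      refine le_trans ?_ (sum_le_sum_of_subset_of_nonneg (erase_subset a _)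
        fun _ _ _ => hT0)
      refine sum_le_sum fun a' ha' => ?_
      rw [mem_erase] at ha'
      refine (E4q hCol hCob hMni h (hAB i a ha).1 (hAB i a' ha'.2).1 ha'.1.symm
        (hAB i a ha).2 (hAB i a' ha'.2).2).trans ?_
      rw [hT]
      apply mul_le_mul_of_nonneg_right _ (by positivity)
      apply mul_le_mul_of_nonneg_right _ hv0
      rw [le_div_iff₀ hℓ]
      linarith [hpnt1 a (hAB i a ha).1]
    refine h4.trans ?_
    rw [sum_const, sum_const, nsmul_eq_mul, nsmul_eq_mul, ← mul_assoc]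
    have hcA0 : (0 : ℝ) ≤ ((A i).card : ℝ) := Nat.cast_nonneg _
    have h5 : ((A i).card : ℝ) * ((A i).card : ℝ) ≤
        (1 + s) * (ε * ℓ) * ((1 + s) * (ε * ℓ)) :=
      mul_le_mul (hA2 i) (hA2 i) hcA0 (by positivity)
    refine (mul_le_mul_of_nonneg_right h5 hT0).trans ?_
    have h6 : (1 + s) * (ε * ℓ) * ((1 + s) * (ε * ℓ)) * T =
        Ω * (v * ℓ) * ((1 + s) ^ 4 * (μ ^ 2 * M)) := by
      rw [hT, hμ]; field_simp
    rw [h6]
    have h7 : Ω * (v * ℓ) ≤ Ω * (1 / w4) :=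
      mul_le_mul_of_nonneg_left hvL hΩp.le
    calc Ω * (v * ℓ) * ((1 + s) ^ 4 * (μ ^ 2 * M)) ≤
        Ω * (1 / w4) * ((1 + s) ^ 4 * (μ ^ 2 * M)) :=
          mul_le_mul_of_nonneg_right h7 (by positivity)
      _ = _ := by rw [hA]; ring
  -- the empty part
  have h4 : ∑ n ∈ S, V n ^ 2 * Np E n ≤ (20 * Λ * s) * AA := by
    rw [moment1q]
    obtain ⟨T, hT⟩ : ∃ T : ℝ, T = Ω * v * ((η + s) * M) := ⟨_, rfl⟩
    have hη0 := h.η0
    have hT0 : 0 ≤ T := by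
      rw [hT]
      exact mul_nonneg (mul_nonneg hΩp.le hv0) (by positivity)
    have h5 : ∑ a ∈ E, ∑ n ∈ Spr S a, V n ^ 2 ≤ ∑ a ∈ B, T := by
      have hsub : E ⊆ B := fun a ha => (hEB a ha).1
      refine le_trans ?_ (sum_le_sum_of_subset_of_nonneg hsub fun _ _ _ => hT0)
      refine sum_le_sum fun a ha => ?_
      rw [hT]
      exact E2q hCol hCob hMni h (hEB a ha).1 (hEB a ha).2
    refine h5.trans ?_
    rw [sum_const, nsmul_eq_mul]
    refine (mul_le_mul_of_nonneg_right hcB hT0).trans ?_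
    have h6 : (1 + s) * (Λ * ℓ) * T = (v * ℓ) * ((1 + s) * Λ * (η + s) * AA) := by
      rw [hT, hA]; ring
    rw [h6]
    have h7 : v * ℓ ≤ 32 / 5 := by
      refine hvL.trans ?_
      rw [div_le_iff₀ hw40]
      linarith
    have h8 : 0 ≤ (1 + s) * Λ * (η + s) * AA := by positivity
    refine (mul_le_mul_of_nonneg_right h7 h8).trans ?_
    have h9 : (1 + s) * (η + s) ≤ 3 * s := in3 hs0 hs1 h.ηs
    calc 32 / 5 * ((1 + s) * Λ * (η + s) * AA) = 32 / 5 * (Λ * AA) * ((1 + s) * (η + s)) := by ring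
      _ ≤ 32 / 5 * (Λ * AA) * (3 * s) := mul_le_mul_of_nonneg_left h9 (by positivity)
      _ = 96 / 5 * (Λ * AA * s) := by ring
      _ ≤ 20 * (Λ * AA * s) := mul_le_mul_of_nonneg_right (by norm_num) (by positivity)
      _ = _ := by ring
  have h5 : ∑ n ∈ S, V n ^ 4 ≤ C * Ω := hsm.2.2.2.2
  have hkey := pv hPz hCs k m S V (fun i => Np (A i))
    (Np E) AA μ s' ((1 + s) ^ 4 / w4) (20 * Λ * s) (C * Ω) ξ hA0 (by linarith) hs'1
    hμ0 (by positivity) hm h1 h1' h2 h2' h3 h4 h5 (by positivity) hξ hfin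
  have h6 : Ω / (16 * (3 * k + 1) ^ 2 * C) ≤ (AA / (4 * (3 * k + 1))) ^ 2 / (C * Ω) := by
    have h7 : Ω ≤ AA := by rw [hA]; nlinarith
    have h8 : Ω / (16 * (3 * k + 1) ^ 2 * C) = (Ω / (4 * (3 * k + 1))) ^ 2 / (C * Ω) := by
      field_simp
      ring
    rw [h8]
    gcongr
  exact h6.trans hkey

end

end Pool.Agent.H533.QM
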