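import Pool.Agent.H533.QM.Arith2

/-!
Progressions to every modulus: the number of positions.
-/

set_option autoImplicit false

open Finset Filter Topology

namespace Pool.Agent.H533.QM

open Pool.Agent.H361R2.PP
open Pool.Agent.H363R2.PPCnt (card_interval)

/-- the scale -/
noncomputable def Ls (X q : ℕ) : ℝ := fr q * Real.log X

/-- the indices of the positions for the class `b` -/
noncomputable def Jq (X q b N : ℕ) : Finset ℕ :=
  (Icc 1 N).filter (fun j => (b + j * q).Coprime (Wq X q))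

theorem cntq (s κ Λ : ℝ) (hs : 0 < s) (hκ : 0 < κ) : ∃ X₀ : ℕ, ∀ X : ℕ, X₀ ≤ X →
    ∀ q : ℕ, 1 ≤ q → q ≤ X → ∀ b : ℕ, ∀ u v : ℝ, 0 ≤ u → u + κ * Ls X q ≤ v → v ≤ Λ * Ls X q →
    |(((Jq X q b ⌊Λ * Ls X q⌋₊).filter (fun j : ℕ => u < j ∧ (j : ℝ) ≤ v)).card : ℝ) -
      (v - u) * ((Nat.totient (Wq X q) : ℝ) / Wq X q)| ≤
      s * ((v - u) * ((Nat.totient (Wq X q) : ℝ) / Wq X q)) := by
  obtain ⟨X₀, hX₀⟩ := L_big (2 / (s * κ))
  refine ⟨X₀, fun X hX q hq hqX b u v hu huv hv => ?_⟩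
  have hbig := hX₀ X hX q hq hqX
  obtain ⟨W, hWd⟩ : ∃ W, W = Wq X q := ⟨_, rfl⟩
  have hW : 0 < W := by rw [hWd]; exact Wq_pos X q
  have hW' : (0 : ℝ) < W := by exact_mod_cast hW
  have hcop : q.Coprime W := by rw [hWd]; exact (Wq_cop X q).symm
  have hL0 : 0 ≤ Ls X q := mul_nonneg (fr_pos hq).le (Real.log_natCast_nonneg X)
  have hv0 : 0 ≤ v := by nlinarith [mul_nonneg hκ.le hL0]
  have huv' : u ≤ v := by nlinarith [mul_nonneg hκ.le hL0]
  rw [← hWd] at hbig ⊢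
  -- the inverse of `q`
  obtain ⟨q', hq'⟩ : ∃ q' : ℕ, q' * q ≡ 1 [MOD W] := by
    rcases Nat.lt_or_ge 1 W with h | h
    · obtain ⟨y, -, hy⟩ := Nat.exists_mul_mod_eq_one_of_coprime hcop h
      refine ⟨y, ?_⟩
      rw [mul_comm, Nat.ModEq, hy, Nat.mod_eq_of_lt h]
    · have h1 : W = 1 := by omega
      exact ⟨1, by rw [h1]; exact Nat.modEq_one⟩
  have hq'c : q'.Coprime W := by
    have h1 : (q' * q).Coprime W := by
      rw [Nat.Coprime, hq'.gcd_eq, Nat.gcd_one_left]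
    exact Nat.Coprime.coprime_mul_right h1
  have hiff : ∀ j : ℕ, (b + j * q).Coprime W ↔ W.Coprime (q' * b + j) := by
    intro j
    have h1 : q' * (b + j * q) ≡ q' * b + j [MOD W] := by
      have h2 : q' * (b + j * q) = q' * b + j * (q' * q) := by ring
      rw [h2]
      calc q' * b + j * (q' * q) ≡ q' * b + j * 1 [MOD W] :=
            Nat.ModEq.add_left _ (hq'.mul_left j)
        _ = q' * b + j := by rw [mul_one]
    constructor
    · intro h
      have h3 : (q' * (b + j * q)).Coprime W := Nat.Coprime.mul_left hq'c h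
      rw [Nat.coprime_comm, Nat.Coprime, ← h1.gcd_eq]
      exact h3
    · intro h
      have h3 : (q' * (b + j * q)).Coprime W := by
        rw [Nat.Coprime, h1.gcd_eq]
        exact h.symm
      exact Nat.Coprime.coprime_mul_left h3
  have hfl : ⌊u⌋₊ ≤ ⌊v⌋₊ := Nat.floor_le_floor huv'
  set b' := q' * b with hb'
  have hset : ((Jq X q b ⌊Λ * Ls X q⌋₊).filter (fun a : ℕ => u < a ∧ (a : ℝ) ≤ v)).card =
      ((Ico (b' + ⌊u⌋₊ + 1) (b' + ⌊u⌋₊ + 1 + (⌊v⌋₊ - ⌊u⌋₊))).filter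
        (fun x => W.Coprime x)).card := by
    apply Finset.card_bij (fun a _ => b' + a)
    · intro a ha
      simp only [Jq, Finset.mem_filter, Finset.mem_Icc] at ha
      obtain ⟨⟨⟨h1, h2⟩, h3⟩, h4, h5⟩ := ha
      have h6 : ⌊u⌋₊ < a := (Nat.floor_lt hu).mpr h4
      have h7 : a ≤ ⌊v⌋₊ := Nat.le_floor h5
      simp only [Finset.mem_filter, Finset.mem_Ico]
      rw [← hWd] at h3
      exact ⟨⟨by omega, by omega⟩, (hiff a).1 h3⟩
    · intro a _ a' _ h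
      exact Nat.add_left_cancel h
    · intro x hx
      simp only [Finset.mem_filter, Finset.mem_Ico] at hx
      obtain ⟨⟨h1, h2⟩, h3⟩ := hx
      have h6 : ⌊u⌋₊ < x - b' := by omega
      have h7 : x - b' ≤ ⌊v⌋₊ := by omega
      refine ⟨x - b', ?_, by omega⟩
      simp only [Jq, Finset.mem_filter, Finset.mem_Icc]
      have h8 : ((x - b' : ℕ) : ℝ) ≤ v := (Nat.le_floor_iff hv0).mp h7
      refine ⟨⟨⟨by omega, Nat.le_floor (h8.trans hv)⟩, ?_⟩, (Nat.floor_lt hu).mp h6, h8⟩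
      rw [← hWd, hiff]
      have : b' + (x - b') = x := by omega
      rw [this]
      exact h3
  rw [hset]
  have h1 := card_interval W (b' + ⌊u⌋₊ + 1) (⌊v⌋₊ - ⌊u⌋₊) hW
  have hL : |(((⌊v⌋₊ - ⌊u⌋₊ : ℕ)) : ℝ) - (v - u)| ≤ 1 := by
    rw [Nat.cast_sub hfl]
    have a1 := Nat.floor_le hu
    have a2 := Nat.lt_floor_add_one u
    have a3 := Nat.floor_le hv0
    have a4 := Nat.lt_floor_add_one v
    rw [abs_le]
    constructor <;> linarith
  have hφ : (0 : ℝ) ≤ Nat.totient W := Nat.cast_nonneg _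
  have hφW : (0 : ℝ) ≤ (Nat.totient W : ℝ) / W := by positivity
  have hφW1 : (Nat.totient W : ℝ) / W ≤ Nat.totient W := by
    rw [div_le_iff₀ hW']
    have : (1 : ℝ) ≤ W := by exact_mod_cast hW
    nlinarith
  have h2 : |(((⌊v⌋₊ - ⌊u⌋₊ : ℕ)) : ℝ) * (Nat.totient W / W) - (v - u) * (Nat.totient W / W)| ≤
      Nat.totient W := by
    rw [← sub_mul, abs_mul, abs_of_nonneg hφW]
    calc _ ≤ 1 * ((Nat.totient W : ℝ) / W) := mul_le_mul_of_nonneg_right hL hφW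
      _ ≤ _ := by rw [one_mul]; exact hφW1
  have h3 : |((((Ico (b' + ⌊u⌋₊ + 1) (b' + ⌊u⌋₊ + 1 + (⌊v⌋₊ - ⌊u⌋₊))).filter
        (fun x => W.Coprime x)).card : ℕ) : ℝ) - (v - u) * (Nat.totient W / W)| ≤
      2 * Nat.totient W := by
    have := abs_sub_le ((((Ico (b' + ⌊u⌋₊ + 1) (b' + ⌊u⌋₊ + 1 + (⌊v⌋₊ - ⌊u⌋₊))).filter
        (fun x => W.Coprime x)).card : ℕ) : ℝ)
        ((((⌊v⌋₊ - ⌊u⌋₊ : ℕ)) : ℝ) * (Nat.totient W / W)) ((v - u) * (Nat.totient W / W))
    linarith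
  refine h3.trans ?_
  -- 2 φ ≤ s (v - u) φ / W
  have hW1 : (1 : ℝ) ≤ W := by exact_mod_cast hW
  have key : 2 * (W : ℝ) ≤ s * (v - u) := by
    have h5 : 2 / (s * κ) * (W : ℝ) ≤ 2 / (s * κ) * (W : ℝ) ^ 2 := by
      apply mul_le_mul_of_nonneg_left _ (by positivity)
      nlinarith
    have h6 : 2 / (s * κ) * (W : ℝ) ≤ Ls X q := h5.trans hbig
    have h7 : 2 * (W : ℝ) ≤ s * (κ * Ls X q) := by
      have h8 : s * κ * (2 / (s * κ) * (W : ℝ)) ≤ s * κ * Ls X q :=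
        mul_le_mul_of_nonneg_left h6 (by positivity)
      have h9 : s * κ * (2 / (s * κ) * (W : ℝ)) = 2 * W := by field_simp
      linarith
    have h8 : s * (κ * Ls X q) ≤ s * (v - u) := by
      apply mul_le_mul_of_nonneg_left _ hs.le
      linarith
    linarith
  have : s * ((v - u) * ((Nat.totient W : ℝ) / W)) = (s * (v - u)) * (Nat.totient W / W) := by ring
  rw [this]
  calc 2 * (Nat.totient W : ℝ) = (2 * (W : ℝ)) * (Nat.totient W / W) := by field_simp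
    _ ≤ _ := mul_le_mul_of_nonneg_right key hφW

end Pool.Agent.H533.QM
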