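import Pool.Agent.H533.QM.Cntq

/-!
Progressions to every modulus: equidistribution of the integers prime to `q`.
-/

set_option autoImplicit false

open Finset Filter Topology

namespace Pool.Agent.H533.QM

open Pool.Agent.H361R2.PP
open Pool.Agent.H20R2.EQI

/-- the integers of the class `b` modulo `Wq X q`, prime to `q` -/
noncomputable def Sc (X q b : ℕ) : Finset ℕ :=
  (Ico X (2 * X)).filter (fun n => n % Wq X q = b ∧ n.Coprime q)

theorem mem_Sc {X q b n : ℕ} :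
    n ∈ Sc X q b ↔ (X ≤ n ∧ n < 2 * X) ∧ n % Wq X q = b ∧ n.Coprime q := by
  unfold Sc
  rw [mem_filter, mem_Ico]

/-- integers in a residue class without prime factors in `F` -/
theorem cnt_cop (X : ℕ) (F : Finset ℕ) : (∀ p ∈ F, p.Prime) → ∀ M v : ℕ, 0 < M →
    (∀ p ∈ F, ¬ p ∣ M) →
    |(((Ico X (2 * X)).filter (fun n => n ≡ v [MOD M] ∧ ∀ p ∈ F, ¬ p ∣ n)).card : ℝ) -
      (X : ℝ) / M * ∏ p ∈ F, (1 - 1 / (p : ℝ))| ≤ 2 ^ F.card := by
  classical
  induction F using Finset.induction_on with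
  | empty =>
    intro _ M v hM _
    have h := cnt_class X M v hM
    simpa using h
  | insert p F hp ih =>
    intro hF M v hM hdM
    have hF' : ∀ p ∈ F, p.Prime := fun r hr => hF r (mem_insert_of_mem hr)
    have hpp : p.Prime := hF p (mem_insert_self _ _)
    have hpM : ¬ p ∣ M := hdM p (mem_insert_self _ _)
    have hcop : M.Coprime p := ((Nat.Prime.coprime_iff_not_dvd hpp).2 hpM).symm
    obtain ⟨v', hv1, hv2⟩ := Nat.chineseRemainder hcop v 0
    have i1 := ih hF' M v hM (fun r hr => hdM r (mem_insert_of_mem hr))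
    have i2 := ih hF' (M * p) v' (Nat.mul_pos hM hpp.pos) (by
      intro r hr hdvd
      rcases (hF' r hr).dvd_mul.1 hdvd with h | h
      · exact hdM r (mem_insert_of_mem hr) h
      · rw [Nat.prime_dvd_prime_iff_eq (hF' r hr) hpp] at h
        rw [h] at hr
        exact hp hr)
    have hsplit : ((Ico X (2 * X)).filter (fun n => n ≡ v [MOD M] ∧ ∀ p ∈ F, ¬ p ∣ n)).card =
        ((Ico X (2 * X)).filter (fun n => n ≡ v [MOD M] ∧ ∀ r ∈ insert p F, ¬ r ∣ n)).card +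
        ((Ico X (2 * X)).filter (fun n => n ≡ v' [MOD M * p] ∧ ∀ p ∈ F, ¬ p ∣ n)).card := by
      rw [← card_union_of_disjoint]
      · congr 1
        ext n
        simp only [mem_union, mem_filter, mem_insert, forall_eq_or_imp]
        rw [← Nat.modEq_and_modEq_iff_modEq_mul hcop]
        constructor
        · rintro ⟨h1, h2, h3⟩
          by_cases h : p ∣ n
          · right
            refine ⟨h1, ⟨h2.trans hv1.symm, ?_⟩, h3⟩
            exact (Nat.modEq_zero_iff_dvd.2 h).trans hv2.symm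
          · left
            exact ⟨h1, h2, h, h3⟩
        · rintro (⟨h1, h2, _, h3⟩ | ⟨h1, ⟨h2, _⟩, h3⟩)
          · exact ⟨h1, h2, h3⟩
          · exact ⟨h1, h2.trans hv1, h3⟩
      · rw [Finset.disjoint_left]
        intro n hn hn'
        simp only [mem_filter, mem_insert, forall_eq_or_imp] at hn
        rw [mem_filter, ← Nat.modEq_and_modEq_iff_modEq_mul hcop] at hn'
        apply hn.2.2.1
        exact Nat.modEq_zero_iff_dvd.1 (hn'.2.1.2.trans hv2)
    have hsr : (((Ico X (2 * X)).filter (fun n => n ≡ v [MOD M] ∧ ∀ p ∈ F, ¬ p ∣ n)).card : ℝ) =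
        (((Ico X (2 * X)).filter (fun n => n ≡ v [MOD M] ∧ ∀ r ∈ insert p F, ¬ r ∣ n)).card : ℝ) +
        (((Ico X (2 * X)).filter
          (fun n => n ≡ v' [MOD M * p] ∧ ∀ p ∈ F, ¬ p ∣ n)).card : ℝ) := by
      exact_mod_cast hsplit
    rw [prod_insert hp, card_insert_of_notMem hp, pow_succ]
    have hp0 : (p : ℝ) ≠ 0 := by exact_mod_cast hpp.pos.ne'
    have hM0 : (M : ℝ) ≠ 0 := by exact_mod_cast hM.ne'
    have e : (X : ℝ) / M * ((1 - 1 / (p : ℝ)) * ∏ p ∈ F, (1 - 1 / (p : ℝ))) =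
        (X : ℝ) / M * ∏ p ∈ F, (1 - 1 / (p : ℝ)) -
        (X : ℝ) / ((M * p : ℕ) : ℝ) * ∏ p ∈ F, (1 - 1 / (p : ℝ)) := by
      push_cast
      field_simp
    rw [e]
    rw [abs_le] at i1 i2 ⊢
    constructor <;> linarith [i1.1, i1.2, i2.1, i2.2]

theorem coprime_iff_pf {n q : ℕ} (hq : 1 ≤ q) : n.Coprime q ↔ ∀ p ∈ q.primeFactors, ¬ p ∣ n := by
  constructor
  · intro h p hp hdvd
    have h1 := Nat.dvd_gcd hdvd (Nat.dvd_of_mem_primeFactors hp)
    rw [h] at h1
    exact (Nat.prime_of_mem_primeFactors hp).one_lt.ne' (Nat.dvd_one.1 h1)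
  · intro h
    by_contra hcon
    obtain ⟨p, hp, h1, h2⟩ := Nat.Prime.not_coprime_iff_dvd.1 hcon
    exact h p (Nat.mem_primeFactors.2 ⟨hp, h2, by omega⟩) h1

theorem Wq_not_dvd {X q p : ℕ} (hp : p.Prime) (hpq : p ∣ q) : ¬ p ∣ Wq X q := by
  intro h
  have h1 := Nat.dvd_gcd h hpq
  rw [Wq_cop X q] at h1
  exact hp.one_lt.ne' (Nat.dvd_one.1 h1)

theorem eqdI (X q b : ℕ) (hq : 1 ≤ q) (hb : b < Wq X q) (P : Finset ℕ)
    (hP : ∀ p ∈ P, p.Prime ∧ HH X < p ∧ ¬ p ∣ q) :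
    Eqd none P (Sc X q b) (fr q * (X : ℝ) / Wq X q) (fun _ => 2 ^ q.primeFactors.card) := by
  refine ⟨?_, fun _ => by positivity, ?_⟩
  · intro n _ p _ a ha
    simp at ha
  · intro D hD r _
    have hDp : ∀ p ∈ D, p.Prime ∧ HH X < p := fun p hp => ⟨(hP p (hD hp)).1, (hP p (hD hp)).2.1⟩
    have hcop : (Wq X q).Coprime (∏ p ∈ D, p) := Wq_cop_prod hDp
    have hWpos : 0 < Wq X q := Wq_pos X q
    have hDpos : 0 < ∏ p ∈ D, p := Finset.prod_pos (fun p hp => (hDp p hp).1.pos)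
    obtain ⟨v, hv1, hv2⟩ := Nat.chineseRemainder hcop b r
    have hset : (Sc X q b).filter (fun n => ∀ p ∈ D, n % p = r % p) =
        (Ico X (2 * X)).filter (fun n => n ≡ v [MOD Wq X q * ∏ p ∈ D, p] ∧
          ∀ p ∈ q.primeFactors, ¬ p ∣ n) := by
      unfold Sc
      rw [filter_filter]
      apply filter_congr
      intro n _
      rw [modD D (fun p hp => (hDp p hp).1) n r, ← Nat.modEq_and_modEq_iff_modEq_mul hcop,
        ← coprime_iff_pf hq]
      have hbb : b % Wq X q = b := Nat.mod_eq_of_lt hb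
      constructor
      · rintro ⟨⟨h1, h3⟩, h2⟩
        refine ⟨⟨?_, h2.trans hv2.symm⟩, h3⟩
        have : n ≡ b [MOD Wq X q] := by unfold Nat.ModEq; rw [h1, hbb]
        exact this.trans hv1.symm
      · rintro ⟨⟨h1, h2⟩, h3⟩
        refine ⟨⟨?_, h3⟩, h2.trans hv2⟩
        have : n ≡ b [MOD Wq X q] := h1.trans hv1
        unfold Nat.ModEq at this
        rw [this, hbb]
    rw [hset]
    have hph : ∏ p ∈ D, ph none p = ((∏ p ∈ D, p : ℕ) : ℝ) := by
      push_cast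
      apply prod_congr rfl
      intro p _
      simp [ph]
    have h := cnt_cop X q.primeFactors (fun p hp => Nat.prime_of_mem_primeFactors hp)
      (Wq X q * ∏ p ∈ D, p) v (Nat.mul_pos hWpos hDpos) (by
        intro p hp hdvd
        have hpp := Nat.prime_of_mem_primeFactors hp
        have hpq := Nat.dvd_of_mem_primeFactors hp
        rcases hpp.dvd_mul.1 hdvd with h | h
        · exact Wq_not_dvd hpp hpq h
        · rw [Prime.dvd_finsetProd_iff hpp.prime] at h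
          obtain ⟨r, hr, h2⟩ := h
          rw [Nat.prime_dvd_prime_iff_eq hpp (hDp r hr).1] at h2
          rw [h2] at hpq
          exact (hP r (hD hr)).2.2 hpq)
    rw [hph]
    rw [← fr_prod hq] at h
    have e : fr q * (X : ℝ) / Wq X q / ((∏ p ∈ D, p : ℕ) : ℝ) =
        (X : ℝ) / ((Wq X q * ∏ p ∈ D, p : ℕ) : ℝ) * fr q := by
      rw [Nat.cast_mul, div_div, mul_comm (fr q), mul_div_right_comm]
    rw [e]
    exact h

theorem eqIntq (K A : ℕ) (θ : ℝ) (hθ : 0 < θ) (hθ1 : θ ≤ 1 / 32) : ∃ X₀ : ℕ, ∀ X : ℕ, X₀ ≤ X →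
    ∀ q : ℕ, 1 ≤ q → q ≤ X → ∀ b : ℕ, b < Wq X q → ∀ P : Finset ℕ,
    (∀ p ∈ P, p.Prime ∧ HH X < p ∧ ¬ p ∣ q) → ∃ Er : Finset ℕ → ℝ,
      Eqd none P (Sc X q b) (fr q * (X : ℝ) / Wq X q) Er ∧
      ∑ D ∈ P.powerset.filter (fun D : Finset ℕ => ∏ p ∈ D, (p : ℝ) ≤ (X : ℝ) ^ (1 / 2 - θ)),
        (K : ℝ) ^ D.card * Er D ≤ (fr q * (X : ℝ) / Wq X q) / Real.log X ^ A := by
  set ε : ℝ := 1 / 4 with hε
  have hε0 : 0 < ε := by positivity
  set K1 : ℝ := (K : ℝ) + 2 with hK1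
  have hK0 : (0 : ℝ) ≤ K := Nat.cast_nonneg K
  have hK11 : 1 ≤ K1 := by rw [hK1]; linarith
  obtain ⟨P0, hP0⟩ : ∃ P0 : ℕ, ∀ p : ℕ, P0 ≤ p → K1 ≤ (p : ℝ) ^ ε := by
    have h1 : Filter.Tendsto (fun p : ℕ => (p : ℝ) ^ ε) Filter.atTop Filter.atTop :=
      (tendsto_rpow_atTop hε0).comp tendsto_natCast_atTop_atTop
    exact Filter.eventually_atTop.1 (h1.eventually_ge_atTop K1)
  obtain ⟨X₁, hX₁⟩ := ev_large (K1 ^ P0 * K1 ^ P0) (A + 2) (1 / 8) (by norm_num)
  obtain ⟨X₂, hX₂⟩ := L_big 1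
  refine ⟨max (max X₁ X₂) 16, fun X hX q hq hqX b hb P hP => ⟨fun _ => 2 ^ q.primeFactors.card,
    eqdI X q b hq hb P hP, ?_⟩⟩
  have hX16 : 16 ≤ X := (le_max_right _ _).trans hX
  have hX' : (16 : ℝ) ≤ X := by exact_mod_cast hX16
  have hX0 : (0 : ℝ) < X := by linarith
  have hlog : 1 ≤ Real.log X := by
    rw [Real.le_log_iff_exp_le (by linarith)]
    have := Real.exp_one_lt_d9
    linarith
  have hev := hX₁ X (((le_max_left _ _).trans (le_max_left _ _)).trans hX)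
  have hbig := hX₂ X (((le_max_right _ _).trans (le_max_left _ _)).trans hX) q hq hqX
  have hW1 : (1 : ℝ) ≤ Wq X q := by exact_mod_cast Wq_pos X q
  have hW : (Wq X q : ℝ) ≤ Real.log X :=
    le_trans (by exact_mod_cast Wq_le X q) (W_le X hX16)
  have hfr : 1 / Real.log X ≤ fr q := by
    rw [div_le_iff₀ (by linarith)]
    nlinarith
  have hPp : ∀ p ∈ P, p.Prime := fun p hp => (hP p hp).1
  have hY0 : 0 < (X : ℝ) ^ (1 / 2 - θ) := Real.rpow_pos_of_pos hX0 _
  have h2q : (2 : ℝ) ^ q.primeFactors.card ≤ K1 ^ P0 * (X : ℝ) ^ ε := by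
    have h1 : (2 : ℝ) ^ q.primeFactors.card ≤ K1 ^ q.primeFactors.card :=
      pow_le_pow_left₀ (by norm_num) (by rw [hK1]; linarith) _
    have h2 := pow_card_le K1 hK11 ε P0 hP0 hε0.le q.primeFactors
      (fun p hp => (Nat.prime_of_mem_primeFactors hp).one_le)
    have h3 : (∏ p ∈ q.primeFactors, (p : ℝ)) ≤ X := by
      have h4 : ∏ p ∈ q.primeFactors, p ≤ X :=
        (Nat.le_of_dvd (by omega) (Nat.prod_primeFactors_dvd q)).trans hqX
      have h5 : ((∏ p ∈ q.primeFactors, p : ℕ) : ℝ) ≤ X := by exact_mod_cast h4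
      push_cast at h5
      exact h5
    refine h1.trans (h2.trans ?_)
    apply mul_le_mul_of_nonneg_left _ (by positivity)
    exact Real.rpow_le_rpow (by positivity) h3 hε0.le
  have hle : ∀ {x y : ℝ}, x ≤ y → (X : ℝ) ^ x ≤ (X : ℝ) ^ y := fun h =>
    Real.rpow_le_rpow_of_exponent_le (by linarith) h
  calc ∑ D ∈ P.powerset.filter
          (fun D : Finset ℕ => ∏ p ∈ D, (p : ℝ) ≤ (X : ℝ) ^ (1 / 2 - θ)),
          (K : ℝ) ^ D.card * 2 ^ q.primeFactors.card
      ≤ ∑ D ∈ P.powerset.filter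
          (fun D : Finset ℕ => ∏ p ∈ D, (p : ℝ) ≤ (X : ℝ) ^ (1 / 2 - θ)),
            (K1 ^ P0 * ((X : ℝ) ^ (1 / 2 - θ)) ^ ε) * (K1 ^ P0 * (X : ℝ) ^ ε) := by
        apply sum_le_sum
        intro D hD
        rw [mem_filter, mem_powerset] at hD
        apply mul_le_mul _ h2q (by positivity) (by positivity)
        have h1 : (K : ℝ) ^ D.card ≤ K1 ^ D.card :=
          pow_le_pow_left₀ (Nat.cast_nonneg K) (by rw [hK1]; linarith) _
        have h2 := pow_card_le K1 hK11 ε P0 hP0 hε0.le D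
          (fun p hp => (hPp p (hD.1 hp)).one_le)
        refine h1.trans (h2.trans ?_)
        apply mul_le_mul_of_nonneg_left _ (by positivity)
        exact Real.rpow_le_rpow (by positivity) hD.2 hε0.le
    _ = ((P.powerset.filter
          (fun D : Finset ℕ => ∏ p ∈ D, (p : ℝ) ≤ (X : ℝ) ^ (1 / 2 - θ))).card : ℝ) *
            ((K1 ^ P0 * ((X : ℝ) ^ (1 / 2 - θ)) ^ ε) * (K1 ^ P0 * (X : ℝ) ^ ε)) := by
        rw [sum_const, nsmul_eq_mul]
    _ ≤ (X : ℝ) ^ (1 / 2 - θ) *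
          ((K1 ^ P0 * ((X : ℝ) ^ (1 / 2 - θ)) ^ ε) * (K1 ^ P0 * (X : ℝ) ^ ε)) := by
        apply mul_le_mul_of_nonneg_right _ (by positivity)
        refine (card_D P hPp _).trans ?_
        rw [max_eq_left hY0.le]
    _ = (K1 ^ P0 * K1 ^ P0) * (X : ℝ) ^ ((1 / 2 - θ) + (1 / 2 - θ) * ε + ε) := by
        rw [Real.rpow_add hX0, Real.rpow_add hX0, Real.rpow_mul hX0.le]; ring
    _ ≤ (K1 ^ P0 * K1 ^ P0) * (X : ℝ) ^ (7 / 8 : ℝ) := by
        apply mul_le_mul_of_nonneg_left _ (by positivity)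
        apply hle
        rw [hε]; nlinarith
    _ ≤ (X : ℝ) / (Real.log X * Real.log X) / Real.log X ^ A := by
        rw [div_div, le_div_iff₀ (by positivity)]
        have h1 : (X : ℝ) = (X : ℝ) ^ (7 / 8 : ℝ) * (X : ℝ) ^ (1 / 8 : ℝ) := by
          rw [← Real.rpow_add hX0]; norm_num
        have h2 : Real.log X * Real.log X * Real.log X ^ A = Real.log X ^ (A + 2) := by ring
        rw [h2]
        calc (K1 ^ P0 * K1 ^ P0) * (X : ℝ) ^ (7 / 8 : ℝ) * Real.log X ^ (A + 2)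
            = (X : ℝ) ^ (7 / 8 : ℝ) * ((K1 ^ P0 * K1 ^ P0) * Real.log X ^ (A + 2)) := by ring
          _ ≤ (X : ℝ) ^ (7 / 8 : ℝ) * (X : ℝ) ^ (1 / 8 : ℝ) :=
              mul_le_mul_of_nonneg_left hev (by positivity)
          _ = X := h1.symm
    _ ≤ (fr q * (X : ℝ) / Wq X q) / Real.log X ^ A := by
        apply div_le_div_of_nonneg_right _ (by positivity)
        calc (X : ℝ) / (Real.log X * Real.log X) = (1 / Real.log X * X) / Real.log X := by
              field_simp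
          _ ≤ (fr q * X) / Wq X q := by
              apply div_le_div₀ (mul_nonneg (fr_pos hq).le hX0.le) _ (by linarith) hW
              exact mul_le_mul_of_nonneg_right hfr hX0.le

end Pool.Agent.H533.QM
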