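import Pool.Agent.H533.QM.Asmq

/-!
Progressions to every modulus: the master theorem.
-/

set_option autoImplicit false

open Finset Filter Topology

namespace Pool.Agent.H533.QM

open Pool.Agent.H361R2.PP
open Pool.Agent.H410R2
open Pool.Agent.H410R2.AC (wt GG Pi1 cfg term WW pos Inj coef)

/-- the product over the large primes dividing `q` is close to one -/
theorem prod_T_half (δ : ℝ) (hδ : 0 < δ) (hδ1 : δ ≤ 1) : ∃ X₀ : ℕ, ∀ X : ℕ, X₀ ≤ X →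
    ∀ q : ℕ, 1 ≤ q → q ≤ X → 1 / 2 ≤ ∏ p ∈ TT δ X q, (1 - 1 / (p : ℝ)) := by
  obtain ⟨X1, h1⟩ := Pool.Agent.H325R2.wtx.2 δ hδ hδ1
  have t1 : Tendsto (fun X : ℕ => (X : ℝ) ^ (δ / 2)) atTop atTop :=
    (tendsto_rpow_atTop (by positivity)).comp tendsto_natCast_atTop_atTop
  obtain ⟨X2, h2⟩ := eventually_atTop.1 (t1.eventually_ge_atTop (4 / δ + 2))
  refine ⟨X1 + X2 + 2, fun X hX q hq hqX => ?_⟩
  obtain ⟨-, hw2, -⟩ := h1 X (by omega)
  have h3 := h2 X (by omega)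
  obtain ⟨z, hz⟩ : ∃ z : ℕ, z = 2 ^ 2 ^ JJ δ X := ⟨_, rfl⟩
  have hzr : ((2 : ℝ) ^ 2 ^ JJ δ X) = (z : ℝ) := by rw [hz]; push_cast; rfl
  rw [hzr] at hw2
  have hz4 : 4 / δ + 2 ≤ (z : ℝ) := h3.trans hw2
  have hz0 : (0 : ℝ) < z := by
    have : 0 < 4 / δ := by positivity
    linarith
  have hT : ∀ p ∈ TT δ X q, p.Prime ∧ z ≤ p := by
    intro p hp
    have := mem_P2'.1 (mem_filter.1 hp).1
    rw [hz]
    exact ⟨this.2.1, this.2.2⟩
  have hcard := few_primesq (Dx := 1) hδ (show 2 ≤ X by omega) (N := q) (z := z)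
    (P := TT δ X q) hT hw2 hq (by rw [Real.rpow_one]; exact_mod_cast hqX)
  have hfl : (TT δ X q).filter (fun p => p ∣ q) = TT δ X q :=
    filter_true_of_mem fun p hp => (mem_filter.1 hp).2
  rw [hfl] at hcard
  have hcr : ((TT δ X q).card : ℝ) ≤ 2 / δ := by
    have h4 : ((TT δ X q).card : ℝ) ≤ (⌊2 * (1 : ℝ) / δ⌋₊ : ℝ) := by exact_mod_cast hcard
    refine h4.trans ((Nat.floor_le (by positivity)).trans (le_of_eq (by ring)))
  have hb : ∏ _p ∈ TT δ X q, (1 + -(1 / (z : ℝ))) ≤ ∏ p ∈ TT δ X q, (1 - 1 / (p : ℝ)) := by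
    apply Finset.prod_le_prod
    · intro p _
      have : 1 / (z : ℝ) ≤ 1 := by
        rw [div_le_one hz0]
        have : 0 < 4 / δ := by positivity
        linarith
      linarith
    · intro p hp
      have h5 : (z : ℝ) ≤ p := by exact_mod_cast (hT p hp).2
      have h6 : 1 / (p : ℝ) ≤ 1 / z := one_div_le_one_div_of_le hz0 h5
      linarith
  refine le_trans ?_ hb
  rw [prod_const]
  refine le_trans ?_ (one_add_mul_le_pow (by
    have : 1 / (z : ℝ) ≤ 1 := by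
      rw [div_le_one hz0]
      have : 0 < 4 / δ := by positivity
      linarith
    linarith) _)
  have h7 : ((TT δ X q).card : ℝ) * (1 / (z : ℝ)) ≤ 1 / 2 := by
    rw [mul_one_div, div_le_div_iff₀ hz0 (by norm_num)]
    have h8 : 2 / δ * 2 = 4 / δ := by ring
    nlinarith
  linarith

/-- the Selberg sums over the primes which do not divide `q` -/
theorem ggtypesq : ∃ C : ℝ, 1 ≤ C ∧ ∀ δ : ℝ, 0 < δ → δ ≤ 1 / 8 → ∃ X₀ : ℕ, ∀ X : ℕ, X₀ ≤ X →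
    ∀ q : ℕ, 1 ≤ q → q ≤ X → ∀ t : ℝ, δ ≤ t → t ≤ 1 / 8 →
    t / (C * δ) ≤ ∑ R ∈ (Q2 δ X q).powerset.filter
      (fun R : Finset ℕ => Real.log (∏ p ∈ R, (p : ℝ)) ≤ t * Real.log X), wt R ∧
    ∑ R ∈ (Q2 δ X q).powerset.filter
      (fun R : Finset ℕ => Real.log (∏ p ∈ R, (p : ℝ)) ≤ t * Real.log X), wt R ≤ C * t / δ := by
  obtain ⟨C, hC1, hC⟩ := Pool.Agent.H488R2.ggtypes Pool.Agent.H325R2.wtx
  refine ⟨2 * C, by linarith, fun δ hδ hδ8 => ?_⟩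
  obtain ⟨X1, h1⟩ := hC δ hδ hδ8
  obtain ⟨X2, h2⟩ := prod_T_half δ hδ (by linarith)
  refine ⟨X1 + X2 + 2, fun X hX q hq hqX t ht1 ht2 => ?_⟩
  obtain ⟨h3, h4⟩ := h1 X (by omega) t ht1 ht2
  have h5 := h2 X (by omega) q hq hqX
  have hX0 : (0 : ℝ) < X := by exact_mod_cast (by omega : 0 < X)
  have ht0 : 0 < t := by linarith
  have hconv : ∀ P : Finset ℕ, (∀ p ∈ P, p.Prime) →
      P.powerset.filter (fun R : Finset ℕ => Real.log (∏ p ∈ R, (p : ℝ)) ≤ t * Real.log X) =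
      P.powerset.filter (fun R : Finset ℕ => ∏ p ∈ R, (p : ℝ) ≤ (X : ℝ) ^ t) := by
    intro P hP
    apply filter_congr
    intro R hR
    rw [mem_powerset] at hR
    have h6 : 0 < ∏ p ∈ R, (p : ℝ) := prod_pos fun p hp => by
      exact_mod_cast (hP p (hR hp)).pos
    rw [← Real.log_rpow hX0, Real.log_le_log_iff h6 (by positivity)]
  have hP2 : ∀ p ∈ P2 (JJ δ X) X, p.Prime := fun p hp => (mem_P2'.1 hp).2.1
  have hQ2 : ∀ p ∈ Q2 δ X q, p.Prime := fun p hp => (mem_Q2.1 hp).1.2.1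
  constructor
  · rw [hconv _ hP2] at h3
    rw [hconv _ hQ2]
    have h6 := GG_lower (δ := δ) (X := X) (q := q) (Y := (X : ℝ) ^ t)
    unfold GG at h6
    refine le_trans ?_ h6
    have h7 : 0 ≤ t / (C * δ) := by positivity
    calc t / (2 * C * δ) = 1 / 2 * (t / (C * δ)) := by field_simp
      _ ≤ _ := mul_le_mul h5 h3 h7 prod_T_pos.le
  · have h6 : ∑ R ∈ (Q2 δ X q).powerset.filter
        (fun R : Finset ℕ => Real.log (∏ p ∈ R, (p : ℝ)) ≤ t * Real.log X), wt R ≤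
        ∑ R ∈ (P2 (JJ δ X) X).powerset.filter
        (fun R : Finset ℕ => Real.log (∏ p ∈ R, (p : ℝ)) ≤ t * Real.log X), wt R := by
      apply sum_le_sum_of_subset_of_nonneg
      · intro R hR
        rw [mem_filter, mem_powerset] at hR ⊢
        exact ⟨hR.1.trans (filter_subset _ _), hR.2⟩
      · intro R hR _
        rw [mem_filter, mem_powerset] at hR
        exact wt_nonneg hP2 hR.1
    refine h6.trans (h4.trans ?_)
    apply div_le_div_of_nonneg_right _ hδ.le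
    nlinarith

/-- the families from `Types` -/
theorem fam_q {t : ℕ} {u β : Fin t → ℝ} {η' δ CT T : ℝ} {X q : ℕ} (hδ : 0 < δ)
    (hL : 0 < Real.log X) (hT : T ≤ 1 / 8)
    (hty : ∀ (Ω : Finset (Finset ℕ)) (ω sz : Finset ℕ → ℝ),
      (∀ R ∈ Ω, 0 ≤ ω R ∧ ω R ≤ 1) →
      (∀ t : ℝ, δ ≤ t → t ≤ T → t / (CT * δ) ≤ ∑ R ∈ Ω.filter (fun R => sz R ≤ t), ω R ∧
        ∑ R ∈ Ω.filter (fun R => sz R ≤ t), ω R ≤ CT * t / δ) →
      ∃ S : Fin t → Finset (Finset ℕ),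
        (∀ τ, S τ ⊆ Ω.filter (fun R => δ < sz R ∧ sz R ≤ u τ)) ∧
        (∀ τ τ', τ ≠ τ' → Disjoint (S τ) (S τ')) ∧
        ∀ τ, β τ ^ 2 / (η' * δ) ≤ ∑ R ∈ S τ, ω R)
    (hG : ∀ t : ℝ, δ ≤ t → t ≤ 1 / 8 →
      t / (CT * δ) ≤ ∑ R ∈ (Q2 δ X q).powerset.filter
        (fun R : Finset ℕ => Real.log (∏ p ∈ R, (p : ℝ)) ≤ t * Real.log X), wt R ∧
      ∑ R ∈ (Q2 δ X q).powerset.filter
        (fun R : Finset ℕ => Real.log (∏ p ∈ R, (p : ℝ)) ≤ t * Real.log X), wt R ≤ CT * t / δ) :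
    ∃ S : Fin t → Finset (Finset ℕ),
      (∀ τ, ∀ R ∈ S τ, R ⊆ Q2 δ X q ∧
        Real.log (∏ p ∈ R, (p : ℝ)) ≤ u τ * Real.log X) ∧
      (∀ τ, ∅ ∉ S τ) ∧ (∀ τ τ', τ ≠ τ' → Disjoint (S τ) (S τ')) ∧
      (∀ τ, β τ ^ 2 / (η' * δ) ≤ GG (S τ)) := by
  have hQ2 : ∀ p ∈ Q2 δ X q, p.Prime := fun p hp => (mem_Q2.1 hp).1.2.1
  obtain ⟨S, h1, h2, h3⟩ := hty (Q2 δ X q).powerset wt
    (fun R => Real.log (∏ p ∈ R, (p : ℝ)) / Real.log X) (by
      intro R hR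
      rw [mem_powerset] at hR
      refine ⟨wt_nonneg hQ2 hR, ?_⟩
      unfold wt
      apply prod_le_one
      · intro p hp
        have := (hQ2 p (hR hp)).two_le
        have h2 : (2 : ℝ) ≤ p := by exact_mod_cast this
        apply one_div_nonneg.2
        linarith
      · intro p hp
        have := (hQ2 p (hR hp)).two_le
        have h2 : (2 : ℝ) ≤ p := by exact_mod_cast this
        rw [div_le_one (by linarith)]
        linarith) (by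
      intro t' ht1 ht2
      have h4 := hG t' ht1 (ht2.trans hT)
      have h5 : (Q2 δ X q).powerset.filter
          (fun R : Finset ℕ => Real.log (∏ p ∈ R, (p : ℝ)) / Real.log X ≤ t') =
          (Q2 δ X q).powerset.filter
          (fun R : Finset ℕ => Real.log (∏ p ∈ R, (p : ℝ)) ≤ t' * Real.log X) := by
        apply filter_congr
        intro R _
        rw [div_le_iff₀ hL]
      rw [h5]
      exact h4)
  refine ⟨S, ?_, ?_, h2, h3⟩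
  · intro τ R hR
    have h4 := h1 τ hR
    rw [mem_filter, mem_powerset, div_le_iff₀ hL] at h4
    exact ⟨h4.1, h4.2.2⟩
  · intro τ hR
    have h4 := h1 τ hR
    rw [mem_filter, prod_empty, Real.log_one, zero_div] at h4
    linarith [h4.2.1]

/-- the spectator family -/
noncomputable def S1q (δ θ : ℝ) (X q : ℕ) : Finset (Finset ℕ) :=
  (Q2 δ X q).powerset.filter (fun R : Finset ℕ => ∏ p ∈ R, (p : ℝ) ≤ (X : ℝ) ^ (1 / 4 - 2 * θ))

/-- the situation -/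
theorem sit_q {t : ℕ} {u β : Fin t → ℝ} {η' δ s c Λ ℓ θ C CM : ℝ} {X q : ℕ} {Ω : ℝ}
    {Ω' : ℕ → ℝ} {S₀ Ball : Finset ℕ} (hX1 : 1 ≤ X) (hθ : θ ≤ 1 / 32)
    (hc : 0 ≤ c) (hs : 0 < s) (hs1 : s ≤ 1) (hδ : 0 < δ) (hη' : 0 < η') (hΛ : 0 < Λ)
    (hCM : 0 < CM) (hηd : η' = s / 2 / (2 * (1 + c) ^ 2 * Λ * CM))
    (hβ : ∀ τ, 0 < β τ) (hβ1 : ∑ τ, β τ = 1) (hδβ : ∀ τ, δ ≤ β τ / η')
    (S : Fin t → Finset (Finset ℕ))
    (hS : ∀ τ, ∀ R ∈ S τ, R ⊆ Q2 δ X q ∧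
        Real.log (∏ p ∈ R, (p : ℝ)) ≤ u τ * Real.log X)
    (h0 : ∀ τ, ∅ ∉ S τ) (hd : ∀ τ τ', τ ≠ τ' → Disjoint (S τ) (S τ'))
    (hG : ∀ τ, β τ ^ 2 / (η' * δ) ≤ GG (S τ))
    (cf : ℕ → ℝ) (hcf : ∀ a, cf a = c ∨ cf a = -1)
    (hSM : ∀ D : Dat t u ((1 + c) ^ 2) δ X, (∀ τ, ∀ R ∈ D.S τ, R ⊆ Q2 δ X q) →
      SMq s C Ω Ω' S₀ Ball (Q1 δ X q) (S1q δ θ X q) D)
    (hB : (Ball.card : ℝ) ≤ (1 + s) * (Λ * ℓ)) (hℓ : 0 ≤ ℓ)
    (hM : EN.V1 (Q1 δ X q) * ℓ * δ ≤ CM)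
    (hV1 : EN.V1 (Q1 δ X q) ≤ s / ((1 + c) ^ 2 * η' * δ * t + 1))
    (hJ : 2 ^ 2 ^ JJ δ X ≤ X) (hnS : ∀ n ∈ S₀, X ≤ n) (haB : ∀ a ∈ Ball, 1 ≤ a)
    (hΩ : 0 ≤ Ω) (hΩ' : ∀ a ∈ Ball, 0 ≤ Ω' a) :
    ∃ D : Dat t u ((1 + c) ^ 2) δ X,
      Sitq s C (s / 2) c Ω Ω' S₀ Ball (Q1 δ X q) (Q2 δ X q) (S1q δ θ X q) β D ∧ D.cf = cf := by
  have h1c : (1 : ℝ) ≤ (1 + c) ^ 2 := by nlinarith
  have hG0 : ∀ τ, 0 < GG (S τ) := fun τ => lt_of_lt_of_le (by have := hβ τ; positivity) (hG τ)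
  have hV0 := V1_Q1_pos δ X q
  have hcf1 : ∀ a, |cf a| ≤ (1 + c) ^ 2 := by
    intro a
    rcases hcf a with h | h
    · rw [h, abs_of_nonneg hc]; nlinarith
    · rw [h, abs_neg, abs_one]; exact h1c
  have hcf2 : ∀ a, cf a ^ 2 ≤ (1 + c) ^ 2 := by
    intro a
    rcases hcf a with h | h
    · rw [h]; nlinarith
    · rw [h]; nlinarith
  let D : Dat t u ((1 + c) ^ 2) δ X :=
    { S := S
      g := fun τ => β τ / GG (S τ)
      cf := cf
      hS := fun τ R hR => ⟨(hS τ R hR).1.trans (filter_subset _ _), (hS τ R hR).2⟩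
      h0 := h0
      hd := hd
      hg := by
        intro τ
        have h1 := hβ τ
        refine ⟨(div_pos h1 (hG0 τ)).le, ?_⟩
        rw [div_le_one (hG0 τ)]
        refine le_trans ?_ (hG τ)
        rw [le_div_iff₀ (by positivity)]
        have h2 := hδβ τ
        rw [le_div_iff₀ hη'] at h2
        nlinarith
      hc := hcf1 }
  have hqq : ∀ τ a, qv (EN.V1 (Q1 δ X q)) D τ a ≤
      (1 + c) ^ 2 * (η' * δ) * EN.V1 (Q1 δ X q) := by
    intro τ a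
    have h1 : qv (EN.V1 (Q1 δ X q)) D τ a =
        cf a ^ 2 * ((β τ ^ 2 / GG (S τ)) * EN.V1 (Q1 δ X q)) := by
      change cf a ^ 2 * ((β τ / GG (S τ)) ^ 2 * (EN.V1 (Q1 δ X q) * GG (S τ))) = _
      have := (hG0 τ).ne'
      field_simp
    rw [h1]
    have h2 : β τ ^ 2 / GG (S τ) ≤ η' * δ := by
      rw [div_le_iff₀ (hG0 τ)]
      have := hG τ
      rw [div_le_iff₀ (by positivity)] at this
      linarith
    have h3 : β τ ^ 2 / GG (S τ) * EN.V1 (Q1 δ X q) ≤ η' * δ * EN.V1 (Q1 δ X q) :=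
      mul_le_mul_of_nonneg_right h2 hV0.le
    calc cf a ^ 2 * (β τ ^ 2 / GG (S τ) * EN.V1 (Q1 δ X q)) ≤
          (1 + c) ^ 2 * (η' * δ * EN.V1 (Q1 δ X q)) := by
          apply mul_le_mul (hcf2 a) h3 _ (by positivity)
          have := (hG0 τ).le
          positivity
      _ = _ := by ring
  refine ⟨D, ?_, rfl⟩
  refine
    { sm := hSM D (fun τ R hR => (hS τ R hR).1)
      s0 := hs.le
      s1 := hs1
      c00 := hc
      cc0 := le_rfl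
      β0 := fun τ => (hβ τ).le
      β1 := hβ1
      gg := hG0
      g := fun τ => rfl
      η0 := by linarith
      hη := ?_
      hq := ?_
      ηs := le_rfl
      nS := hnS
      aB := haB
      p1 := ?_
      p2 := ?_
      ds := fun τ R hR => (hS τ R hR).1
      ss := ?_
      se := ?_
      Ω0 := hΩ
      Ω'0 := hΩ' }
  · intro τ
    calc ∑ a ∈ Ball, qv (EN.V1 (Q1 δ X q)) D τ a ≤
        ∑ a ∈ Ball, (1 + c) ^ 2 * (η' * δ) * EN.V1 (Q1 δ X q) :=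
          sum_le_sum fun a _ => hqq τ a
      _ = (Ball.card : ℝ) * ((1 + c) ^ 2 * (η' * δ) * EN.V1 (Q1 δ X q)) := by
          rw [sum_const, nsmul_eq_mul]
      _ ≤ (1 + s) * (Λ * ℓ) * ((1 + c) ^ 2 * (η' * δ) * EN.V1 (Q1 δ X q)) :=
          mul_le_mul_of_nonneg_right hB (by positivity)
      _ = (1 + s) * Λ * (1 + c) ^ 2 * η' * (EN.V1 (Q1 δ X q) * ℓ * δ) := by ring
      _ ≤ (1 + s) * Λ * (1 + c) ^ 2 * η' * CM :=
          mul_le_mul_of_nonneg_left hM (by positivity)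
      _ ≤ 2 * Λ * (1 + c) ^ 2 * η' * CM := by
          have : 0 ≤ Λ * (1 + c) ^ 2 * η' * CM := by positivity
          nlinarith
      _ = s / 2 := by
          rw [hηd]
          field_simp
  · intro a
    calc ∑ τ, qv (EN.V1 (Q1 δ X q)) D τ a ≤
        ∑ τ : Fin t, (1 + c) ^ 2 * (η' * δ) * EN.V1 (Q1 δ X q) :=
          sum_le_sum fun τ _ => hqq τ a
      _ = ((1 + c) ^ 2 * η' * δ * t) * EN.V1 (Q1 δ X q) := by
          rw [sum_const, card_univ, Fintype.card_fin, nsmul_eq_mul]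
          ring
      _ ≤ ((1 + c) ^ 2 * η' * δ * t + 1) * EN.V1 (Q1 δ X q) := by nlinarith
      _ ≤ s := by
          rw [le_div_iff₀ (by positivity)] at hV1
          linarith
  · intro p hp
    have := (mem_Q1.1 hp).1
    exact ⟨this.2.1, by omega⟩
  · intro p hp
    have := (mem_Q2.1 hp).1
    exact ⟨this.2.1, this.1⟩
  · intro R hR
    exact mem_powerset.1 (mem_filter.1 hR).1
  · unfold S1q
    rw [mem_filter, mem_powerset, prod_empty]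
    refine ⟨empty_subset _, ?_⟩
    apply Real.one_le_rpow (by exact_mod_cast hX1)
    linarith

/-- the sharp lower bound -/
theorem VG_q {δ θ : ℝ} {X q : ℕ} (hθ0 : 0 < θ) (hθ : θ ≤ 1 / 32) (hX : 1 ≤ X)
    (hq : 1 ≤ q) (hqX : q ≤ X) (hH : HH X < 2 ^ 2 ^ JJ δ X)
    (hl : (1 / 4 - 2 * θ - θ) * Real.log X ≤
      Real.log (⌊(X : ℝ) ^ (1 / 4 - 2 * θ)⌋₊ : ℝ)) (hl1 : 1 ≤ ⌊(X : ℝ) ^ (1 / 4 - 2 * θ)⌋₊) :
    EN.V1 (Q1 δ X q) / GG (S1q δ θ X q) * ((Ls X q * ((Nat.totient (Wq X q) : ℝ) / Wq X q)) *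
      (1 / 4 - 3 * θ)) ≤ 1 := by
  have h1 := Pool.Agent.H633R2.ggSharp (JJ δ X) X ⌊(X : ℝ) ^ (1 / 4 - 2 * θ)⌋₊ hl1 (by
    have hX1 : (1 : ℝ) ≤ X := by exact_mod_cast hX
    have h2 : (X : ℝ) ^ (1 / 4 - 2 * θ) ≤ (X : ℝ) ^ (1 : ℝ) :=
      Real.rpow_le_rpow_of_exponent_le hX1 (by linarith)
    rw [Real.rpow_one] at h2
    exact Nat.floor_le_of_le h2)
  have heq : (P2 (JJ δ X) X).powerset.filter
      (fun R : Finset ℕ => ∏ p ∈ R, p ≤ ⌊(X : ℝ) ^ (1 / 4 - 2 * θ)⌋₊) =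
      (P2 (JJ δ X) X).powerset.filter
      (fun R : Finset ℕ => ∏ p ∈ R, (p : ℝ) ≤ (X : ℝ) ^ (1 / 4 - 2 * θ)) := by
    apply filter_congr
    intro R _
    rw [Nat.le_floor_iff (by positivity)]
    push_cast
    rfl
  rw [heq] at h1
  have h2 := GG_lower (δ := δ) (X := X) (q := q) (Y := (X : ℝ) ^ (1 / 4 - 2 * θ))
  have h3 := triple_prod (δ := δ) hq hqX hH
  have hT := prod_T_pos (δ := δ) (X := X) (q := q)
  have hp0 : 0 < ∏ p ∈ (range (2 ^ 2 ^ JJ δ X)).filter Nat.Prime, (1 - 1 / (p : ℝ)) :=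
    prod_pos fun p hp => one_sub_pos (mem_filter.1 hp).2
  have hlog : 0 ≤ Real.log X := Real.log_natCast_nonneg X
  -- the main inequality
  have hmain : (1 / 4 - 3 * θ) * Real.log X * (EN.V1 (Q1 δ X q) *
      ((Nat.totient (Wq X q) : ℝ) / Wq X q) * fr q) ≤ GG (S1q δ θ X q) := by
    refine le_trans ?_ h2
    unfold EN.V1
    rw [h3]
    have h4 : (1 / 4 - 3 * θ) * Real.log X *
        ∏ p ∈ (range (2 ^ 2 ^ JJ δ X)).filter Nat.Prime, (1 - 1 / (p : ℝ)) ≤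
        GG ((P2 (JJ δ X) X).powerset.filter
          (fun R : Finset ℕ => ∏ p ∈ R, (p : ℝ) ≤ (X : ℝ) ^ (1 / 4 - 2 * θ))) := by
      refine le_trans ?_ h1
      apply mul_le_mul_of_nonneg_right _ hp0.le
      linarith
    calc _ = (∏ p ∈ TT δ X q, (1 - 1 / (p : ℝ))) * ((1 / 4 - 3 * θ) * Real.log X *
          ∏ p ∈ (range (2 ^ 2 ^ JJ δ X)).filter Nat.Prime, (1 - 1 / (p : ℝ))) := by ring
      _ ≤ _ := mul_le_mul_of_nonneg_left h4 hT.le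
  have hG1 : 1 ≤ GG (S1q δ θ X q) := by
    have hQ2 : ∀ p ∈ Q2 δ X q, p.Prime := fun p hp => (mem_Q2.1 hp).1.2.1
    calc (1 : ℝ) = wt ∅ := by unfold wt; simp
      _ ≤ GG (S1q δ θ X q) := by
        unfold GG
        apply single_le_sum (f := wt)
        · intro R hR
          exact wt_nonneg hQ2 (mem_powerset.1 (mem_filter.1 hR).1)
        · unfold S1q
          rw [mem_filter, mem_powerset, prod_empty]
          refine ⟨empty_subset _, ?_⟩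
          apply Real.one_le_rpow (by exact_mod_cast hX)
          linarith
  calc EN.V1 (Q1 δ X q) / GG (S1q δ θ X q) *
        ((Ls X q * ((Nat.totient (Wq X q) : ℝ) / Wq X q)) * (1 / 4 - 3 * θ)) =
      ((1 / 4 - 3 * θ) * Real.log X * (EN.V1 (Q1 δ X q) *
      ((Nat.totient (Wq X q) : ℝ) / Wq X q) * fr q)) / GG (S1q δ θ X q) := by
        unfold Ls
        ring
    _ ≤ 1 := by
        rw [div_le_one (by linarith)]
        exact hmain

end Pool.Agent.H533.QM
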