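import Pool.Agent.H533.QM.Masterq1

/-!
Progressions to every modulus: the master theorem, assembly.
-/

set_option autoImplicit false

open Finset Filter Topology

namespace Pool.Agent.H533.QM

open Pool.Agent.H361R2.PP
open Pool.Agent.H410R2
open Pool.Agent.H410R2.AC (wt GG Pi1 cfg term WW pos Inj coef)

open Classical in
/-- **Master theorem** for progressions to every modulus `q ≤ X` -/
theorem masterq (k m : ℕ) (α : Fin k → ℝ) (ε Λ : ℝ) (hε : 0 < ε) (hΛ : 0 < Λ)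
    (hα : ∀ i, 0 ≤ α i ∧ α i + ε ≤ Λ) :
    ∃ c : ℝ, 0 < c ∧ ∃ X₀ : ℕ, ∀ X : ℕ, X₀ ≤ X → ∀ q : ℕ, 1 ≤ q → q ≤ X →
    c * (fr q * X) ≤ (((Ico X (2 * X)).filter
      (fun n => n.Coprime q ∧ Goodq m α ε Λ X q n)).card : ℝ) := by
  obtain ⟨ξ, hξ⟩ : ∃ ξ : ℝ, ξ = 1 / (8 * ((k : ℝ) + 1)) := ⟨_, rfl⟩
  have hk0 : (0 : ℝ) ≤ k := Nat.cast_nonneg k
  have hξ0 : 0 < ξ := by rw [hξ]; positivity
  have hξ1 : ξ ≤ 1 / 8 := by
    rw [hξ, div_le_div_iff₀ (by positivity) (by norm_num)]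
    linarith
  obtain ⟨s', hs'⟩ : ∃ s' : ℝ, s' = ξ / 16 := ⟨_, rfl⟩
  obtain ⟨s, hs⟩ : ∃ s : ℝ, s = ξ / (3000 * (Λ + 1)) := ⟨_, rfl⟩
  obtain ⟨θ, hθ⟩ : ∃ θ : ℝ, θ = ξ / 96 := ⟨_, rfl⟩
  have hs'0 : 0 < s' := by rw [hs']; linarith
  have hs0 : 0 < s := by rw [hs]; positivity
  have hθ0 : 0 < θ := by rw [hθ]; linarith
  have hθ1 : θ ≤ 1 / 32 := by rw [hθ]; linarith
  have hsξ : s ≤ ξ / 3000 := by
    rw [hs]
    apply div_le_div_of_nonneg_left hξ0.le (by norm_num)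
    linarith
  have hs1 : s ≤ 1 := by linarith
  have h7 : 7 * s ≤ s' := by rw [hs']; linarith
  obtain ⟨μ, hμd⟩ : ∃ μ : ℝ, μ = max (2 * ((m : ℝ) + 1) / s') ε := ⟨_, rfl⟩
  have hμ1 : 2 * ((m : ℝ) + 1) / s' ≤ μ := by rw [hμd]; exact le_max_left _ _
  have hμ2 : ε ≤ μ := by rw [hμd]; exact le_max_right _ _
  obtain ⟨hm, hμ0, hξi⟩ := xi_ineq (m := m) hξ0 hξ1 hs' hs0.le hsξ hμ1
  obtain ⟨c, hcd⟩ : ∃ c : ℝ, c = Real.sqrt (μ / ε) - 1 := ⟨_, rfl⟩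
  have hμε : 1 ≤ μ / ε := by rwa [le_div_iff₀ hε, one_mul]
  have hc : 0 ≤ c := by
    rw [hcd, sub_nonneg]
    exact Real.one_le_sqrt.2 hμε
  have hμc : μ = ε * (1 + c) ^ 2 := by
    rw [hcd, add_sub_cancel, Real.sq_sqrt (by positivity)]
    field_simp
  obtain ⟨CT, hCT1, hCT⟩ := ggtypesq
  obtain ⟨CM, hCM1, hCM⟩ := merq
  obtain ⟨η', hη'⟩ : ∃ η' : ℝ, η' = s / 2 / (2 * (1 + c) ^ 2 * Λ * CM) := ⟨_, rfl⟩
  have hη'0 : 0 < η' := by rw [hη']; positivity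
  obtain ⟨t, u, β, V₀, hV₀, huβ, hβ1, hu, hty⟩ := Pool.Agent.H708R2.types CT η' (θ / 2) hCT1
    hη'0 (by linarith)
  have h1c : (1 : ℝ) ≤ (1 + c) ^ 2 := by nlinarith
  obtain ⟨δ₀, hδ₀, -, hsm⟩ := smq_final t u ((1 + c) ^ 2) Λ θ s (fun τ => (huβ τ).1) hu hθ0 hθ1
    h1c hΛ hs0
  obtain ⟨dβ, hdβ0, hdβ⟩ : ∃ d : ℝ, 0 < d ∧ ∀ τ, d ≤ β τ / η' := by
    refine ⟨1 / (∑ τ, η' / β τ + 1), ?_, fun τ => ?_⟩
    · have : 0 ≤ ∑ τ, η' / β τ := sum_nonneg fun τ _ => (div_pos hη'0 (huβ τ).2).le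
      positivity
    · have h1 : η' / β τ ≤ ∑ τ, η' / β τ :=
        single_le_sum (f := fun τ => η' / β τ) (fun τ _ => (div_pos hη'0 (huβ τ).2).le)
          (mem_univ τ)
      have h2 : 0 < η' / β τ := div_pos hη'0 (huβ τ).2
      calc 1 / (∑ τ, η' / β τ + 1) ≤ 1 / (η' / β τ) :=
            one_div_le_one_div_of_le h2 (by linarith)
        _ = β τ / η' := by rw [one_div_div]
  obtain ⟨δ, hδd⟩ : ∃ δ : ℝ, δ = min (min δ₀ V₀) (min (1 / 8) dβ) := ⟨_, rfl⟩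
  have hδ0 : 0 < δ := by
    rw [hδd]
    exact lt_min (lt_min hδ₀ hV₀) (lt_min (by norm_num) hdβ0)
  have hδ1 : δ ≤ δ₀ := by rw [hδd]; exact (min_le_left _ _).trans (min_le_left _ _)
  have hδ2 : δ ≤ V₀ := by rw [hδd]; exact (min_le_left _ _).trans (min_le_right _ _)
  have hδ3 : δ ≤ 1 / 8 := by rw [hδd]; exact (min_le_right _ _).trans (min_le_left _ _)
  have hδ4 : δ ≤ dβ := by rw [hδd]; exact (min_le_right _ _).trans (min_le_right _ _)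
  obtain ⟨C, X1, hC, hSMX⟩ := hsm δ hδ0 hδ1
  obtain ⟨X2, hGX⟩ := hCT δ hδ0 hδ3
  obtain ⟨X3, hMX⟩ := hCM δ hδ0 (by linarith)
  obtain ⟨X4, hVX⟩ := mrvq δ (s / ((1 + c) ^ 2 * η' * δ * t + 1)) hδ0 (by linarith)
    (by positivity)
  obtain ⟨X5, hCX⟩ := cntq s ε Λ hs0 hε
  obtain ⟨X6, hPX⟩ := pnt_shift s Λ hs0 hΛ
  obtain ⟨X7, hWX⟩ := Pool.Agent.H325R2.wtx.2 δ hδ0 (by linarith)
  obtain ⟨X8, hFX⟩ := log_floor (a := 1 / 4 - 2 * θ) (θ := θ) (by linarith) hθ0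
  obtain ⟨X9, hJX⟩ := card_Jq_le s Λ hs0 hΛ
  refine ⟨1 / (16 * (3 * k + 1) ^ 2 * C), by positivity,
    X1 + X2 + X3 + X4 + X5 + X6 + X7 + X8 + X9 + 2, fun X hX q hq hqX => ?_⟩
  have hX2 : 2 ≤ X := by omega
  have hX1 : 1 ≤ X := by omega
  have hXr : (0 : ℝ) < X := by exact_mod_cast hX1
  have hL : 0 < Real.log X := Real.log_pos (by exact_mod_cast hX2)
  obtain ⟨hw1, -, hw3⟩ := hWX X (by omega)
  have hJ : 2 ^ 2 ^ JJ δ X ≤ X := by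
    have h1 : (X : ℝ) ^ δ ≤ (X : ℝ) ^ (1 : ℝ) :=
      Real.rpow_le_rpow_of_exponent_le (by exact_mod_cast hX1) (by linarith)
    rw [Real.rpow_one] at h1
    exact_mod_cast hw1.trans h1
  have hHX : HH X < X := lt_of_lt_of_le hw3 hJ
  have hM1 := hMX X (by omega) q hq hqX
  obtain ⟨hF1, hF2⟩ := hFX X (by omega)
  have hfr := fr_pos hq
  have hLs : 0 < Ls X q := mul_pos hfr hL
  have hφ := phW_pos X q
  have hWr : (0 : ℝ) < Wq X q := by exact_mod_cast Wq_pos X q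
  have hφW : (0 : ℝ) < Nat.totient (Wq X q) := by
    exact_mod_cast Nat.totient_pos.2 (Wq_pos X q)
  obtain ⟨ℓ, hℓ⟩ : ∃ ℓ : ℝ, ℓ = Ls X q * ((Nat.totient (Wq X q) : ℝ) / Wq X q) := ⟨_, rfl⟩
  have hℓ0 : 0 < ℓ := by rw [hℓ]; positivity
  apply sum_classesq
  intro b hb
  rw [mul_one_div]
  -- families
  obtain ⟨S, hS1, hS2, hS3, hS4⟩ := fam_q (X := X) (q := q) (T := θ / 2) hδ0 hL (by linarith)
    (hty δ · · · hδ0 hδ2) (hGX X (by omega) q hq hqX)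
  have hBcnt : ((Bq X q b ⌊Λ * Ls X q⌋₊).card : ℝ) ≤ (1 + s) * (Λ * ℓ) := by
    rw [card_Bq hq, hℓ]
    exact hJX X (by omega) q hq hqX b
  have hpos : ∀ a ∈ Bq X q b ⌊Λ * Ls X q⌋₊, _ :=
    fun a ha => pos_le (X := X) (q := q) (b := b) hΛ hq hqX ha
  obtain ⟨Ω, hΩ⟩ : ∃ Ω : ℝ, Ω = fr q * (X : ℝ) / Wq X q := ⟨_, rfl⟩
  obtain ⟨Ω', hΩ'⟩ : ∃ f : ℕ → ℝ, f = fun a => Pry X a / Nat.totient (Wq X q) := ⟨_, rfl⟩
  have hΩp : 0 < Ω := by rw [hΩ]; positivity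
  have hΩ'0 : ∀ a, 0 ≤ Ω' a := by
    intro a
    rw [hΩ']
    exact div_nonneg (by unfold Pry; exact Nat.cast_nonneg _) hφW.le
  obtain ⟨cf, hcf⟩ : ∃ cf : ℕ → ℝ, ∀ a, cf a =
      if ∃ i, CL (α i) ε (Ls X q) (a / q) then c else -1 := ⟨_, fun _ => rfl⟩
  have hcf1 : ∀ a, (∃ i, CL (α i) ε (Ls X q) (a / q)) → cf a = c := by
    intro a ha
    rw [hcf, if_pos ha]
  have hcf2 : ∀ a, ¬ (∃ i, CL (α i) ε (Ls X q) (a / q)) → cf a = -1 := by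
    intro a ha
    rw [hcf, if_neg ha]
  have hcf3 : ∀ a, cf a = c ∨ cf a = -1 := by
    intro a
    by_cases h : ∃ i, CL (α i) ε (Ls X q) (a / q)
    · exact Or.inl (hcf1 a h)
    · exact Or.inr (hcf2 a h)
  have hSMD : ∀ D : Dat t u ((1 + c) ^ 2) δ X, (∀ τ, ∀ R ∈ D.S τ, R ⊆ Q2 δ X q) →
      SMq s C Ω Ω' (Sc X q b) (Bq X q b ⌊Λ * Ls X q⌋₊) (Q1 δ X q) (S1q δ θ X q) D := by
    intro D hD
    rw [hΩ, hΩ']
    exact hSMX X (by omega) q hq hqX b hb D hD (S1q δ θ X q) (fun R hR => by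
        unfold S1q at hR
        rw [mem_filter, mem_powerset] at hR
        exact hR)
  have hM1' : EN.V1 (Q1 δ X q) * ℓ * δ ≤ CM := by
    rw [hℓ]
    exact hM1
  obtain ⟨D, hsit, hDcf⟩ := sit_q (Ω := Ω) (Ω' := Ω') (S₀ := Sc X q b)
    (Ball := Bq X q b ⌊Λ * Ls X q⌋₊) hX1 hθ1 hc
    hs0 hs1 hδ0 hη'0 hΛ (by linarith : 0 < CM) hη' (fun τ => (huβ τ).2) hβ1
    (fun τ => hδ4.trans (hdβ τ)) S hS1 hS2 hS3 hS4 cf hcf3 hSMD hBcnt hℓ0.le hM1'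
    (hVX X (by omega) q hq hqX) hJ (fun n hn => (mem_Sc.1 hn).1.1) (fun a ha => (hpos a ha).1)
    hΩp.le (fun a _ => hΩ'0 a)
  have hcA : ∀ i, |(((Jq X q b ⌊Λ * Ls X q⌋₊).filter
      (fun j => CL (α i) ε (Ls X q) j)).card : ℝ) - ε * ℓ| ≤ s * (ε * ℓ) := by
    intro i
    have h1 := hCX X (by omega) q hq hqX b (α i * Ls X q) ((α i + ε) * Ls X q)
      (mul_nonneg (hα i).1 hLs.le) (by linarith)
      (mul_le_mul_of_nonneg_right (hα i).2 hLs.le)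
    have h2 : ((α i + ε) * Ls X q - α i * Ls X q) * ((Nat.totient (Wq X q) : ℝ) / Wq X q) =
        ε * ℓ := by
      rw [hℓ]; ring
    rw [h2] at h1
    have h3 : ((Jq X q b ⌊Λ * Ls X q⌋₊).filter (fun j => CL (α i) ε (Ls X q) j)).card =
        ((Jq X q b ⌊Λ * Ls X q⌋₊).filter (fun j : ℕ => α i * Ls X q < j ∧
        (j : ℝ) ≤ (α i + ε) * Ls X q)).card := by
      congr 1
      ext j
      rw [mem_filter, mem_filter]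
      exact Iff.rfl
    rw [h3]
    exact h1
  have hkey : ∀ a, ℓ * Ω' a = fr q / Wq X q * (Real.log X * Pry X a) := by
    intro a
    rw [hℓ, hΩ']
    unfold Ls
    field_simp
  have hpnt1 : ∀ a ∈ Bq X q b ⌊Λ * Ls X q⌋₊, ℓ * Ω' a ≤ (1 + s) * Ω := by
    intro a ha
    have h1 := (hPX X (by omega) a (hpos a ha).2.2.1).2
    rw [hkey, hΩ]
    calc fr q / Wq X q * (Real.log X * Pry X a) ≤ fr q / Wq X q * ((1 + s) * X) :=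
          mul_le_mul_of_nonneg_left h1 (by positivity)
      _ = _ := by ring
  have hpnt2 : ∀ a ∈ Bq X q b ⌊Λ * Ls X q⌋₊, (1 - s) * Ω ≤ ℓ * Ω' a := by
    intro a ha
    have h1 := (hPX X (by omega) a (hpos a ha).2.2.1).1
    rw [hkey, hΩ]
    calc (1 - s) * (fr q * (X : ℝ) / Wq X q) = fr q / Wq X q * ((1 - s) * X) := by ring
      _ ≤ _ := mul_le_mul_of_nonneg_left h1 (by positivity)
  have hVG : EN.V1 (Q1 δ X q) / GG (S1q δ θ X q) * (ℓ * (1 / 4 - 3 * θ)) ≤ 1 := by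
    rw [hℓ]
    exact VG_q hθ0 hθ1 hX1 hq hqX hw3 hF1 hF2
  have hw45 : (5 : ℝ) / 32 ≤ 1 / 4 - 3 * θ := by rw [hθ]; linarith
  have hξi' : 1 / 4 - ξ ≤ ((1 - s') * μ - (1 + s') * m) ^ 2 /
      ((1 + s) ^ 4 / (1 / 4 - 3 * θ) * μ ^ 2 + (1 + s') * μ) := by rw [hθ]; exact hξi
  rw [← hΩ]
  exact cls_q m α ε Λ hq hHX hsit hΩp hC ℓ (1 / 4 - 3 * θ) hε hΛ hℓ0
    (by rw [hDcf]; exact hcf1) (by rw [hDcf]; exact hcf2) hcA hBcnt hpnt1 hpnt2 hw45 hVG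
    s' μ ξ h7 (by linarith) hμc hm hξi' (fin_ineq hξ hs' hΛ hs)

end Pool.Agent.H533.QM
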