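import Pool.Agent.H533.QM.Mainq

/-!
Progressions to every modulus: the master theorem.
-/

set_option autoImplicit false

open Finset Filter Topology

namespace Pool.Agent.H533.QM

open Pool.Agent.H361R2.PP
open Pool.Agent.H410R2
open Pool.Agent.H410R2.AC (wt GG Pi1 cfg term WW pos Inj coef)

open Classical in
/-- the integers with at least `m` primes `n + jq` in at least a quarter of the clusters and no
other prime `n + jq` in the window -/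
def Goodq {k : ℕ} (m : ℕ) (α : Fin k → ℝ) (ε Λ : ℝ) (X q n : ℕ) : Prop :=
  k ≤ 4 * ((univ : Finset (Fin k)).filter (fun i => m ≤
      ((Icc 1 ⌊Λ * Ls X q⌋₊).filter
        (fun j => CL (α i) ε (Ls X q) j ∧ (n + j * q).Prime)).card)).card ∧
    ∀ j ∈ Icc 1 ⌊Λ * Ls X q⌋₊, (n + j * q).Prime → ∃ i, CL (α i) ε (Ls X q) j

/-- primes which are large are prime to the modulus -/
theorem prime_cop {X q b n j : ℕ} (hHX : HH X < X) (hn : n ∈ Sc X q b)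
    (hp : (n + j * q).Prime) : (b + j * q).Coprime (Wq X q) := by
  rw [mem_Sc] at hn
  have h1 : (n + j * q).Coprime (Wq X q) := by
    rw [Nat.Prime.coprime_iff_not_dvd hp]
    intro h
    unfold Wq at h
    rw [Prime.dvd_finsetProd_iff hp.prime] at h
    obtain ⟨p, hp1, hp2⟩ := h
    rw [mem_Sm] at hp1
    have := Nat.le_of_dvd hp1.2.1.pos hp2
    omega
  have h2 : b + j * q ≡ n + j * q [MOD Wq X q] := by
    apply Nat.ModEq.add_right
    rw [← hn.2.1]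
    exact Nat.mod_modEq _ _
  rw [Nat.Coprime, h2.gcd_eq]
  exact h1

theorem Np_image {q b N X : ℕ} (hq : 1 ≤ q) (hHX : HH X < X) (P : ℕ → Prop) [DecidablePred P]
    {n : ℕ} (hn : n ∈ Sc X q b) :
    Np (((Jq X q b N).filter P).image (fun j => j * q)) n =
      ((Icc 1 N).filter (fun j => P j ∧ (n + j * q).Prime)).card := by
  unfold Np
  symm
  apply Finset.card_bij (fun j _ => j * q)
  · intro j hj
    rw [mem_filter] at hj
    rw [mem_filter, mem_image]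
    refine ⟨⟨j, ?_, rfl⟩, hj.2.2⟩
    rw [mem_filter, Jq, mem_filter]
    exact ⟨⟨hj.1, prime_cop hHX hn hj.2.2⟩, hj.2.1⟩
  · intro j _ j' _ h
    exact Nat.eq_of_mul_eq_mul_right hq h
  · intro a ha
    rw [mem_filter, mem_image] at ha
    obtain ⟨⟨j, hj, rfl⟩, h2⟩ := ha
    rw [mem_filter, Jq, mem_filter] at hj
    refine ⟨j, ?_, rfl⟩
    rw [mem_filter]
    exact ⟨hj.1.1, hj.2, h2⟩

open Classical in
theorem sum_classesq {k : ℕ} (m : ℕ) (α : Fin k → ℝ) (ε Λ : ℝ) (X q : ℕ) (r : ℝ)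
    (h : ∀ b < Wq X q, fr q * (X : ℝ) / Wq X q * r ≤
      (((Sc X q b).filter (fun n => Goodq m α ε Λ X q n)).card : ℝ)) :
    r * (fr q * X) ≤ (((Ico X (2 * X)).filter
      (fun n => n.Coprime q ∧ Goodq m α ε Λ X q n)).card : ℝ) := by
  have hW := Wq_pos X q
  have h1 : ((Ico X (2 * X)).filter (fun n => n.Coprime q ∧ Goodq m α ε Λ X q n)).card =
      ∑ b ∈ range (Wq X q), ((Sc X q b).filter (fun n => Goodq m α ε Λ X q n)).card := by
    rw [card_eq_sum_card_fiberwise (f := fun n => n % Wq X q) (t := range (Wq X q))]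
    · refine sum_congr rfl fun b _ => ?_
      congr 1
      ext n
      simp only [mem_filter, mem_Sc, mem_Ico]
      tauto
    · intro n _
      simp only [coe_range, Set.mem_Iio]
      exact Nat.mod_lt _ hW
  rw [h1]
  push_cast
  calc r * (fr q * X) = ∑ b ∈ range (Wq X q), fr q * (X : ℝ) / Wq X q * r := by
        rw [sum_const, card_range, nsmul_eq_mul]
        have : (Wq X q : ℝ) ≠ 0 := by exact_mod_cast hW.ne'
        field_simp
    _ ≤ _ := sum_le_sum fun b hb => h b (mem_range.1 hb)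

/-- positions from indices -/
theorem mem_img {X q b N : ℕ} (hq : 1 ≤ q) (P : ℕ → Prop) [DecidablePred P] {a : ℕ}
    (ha : a ∈ ((Jq X q b N).filter P).image (fun j => j * q)) :
    a ∈ Bq X q b N ∧ P (a / q) := by
  rw [mem_image] at ha
  obtain ⟨j, hj, rfl⟩ := ha
  rw [mem_filter] at hj
  refine ⟨mem_image_of_mem _ hj.1, ?_⟩
  rw [Nat.mul_div_cancel _ hq]
  exact hj.2

theorem card_img {X q b N : ℕ} (hq : 1 ≤ q) (P : ℕ → Prop) [DecidablePred P] :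
    (((Jq X q b N).filter P).image (fun j => j * q)).card = ((Jq X q b N).filter P).card :=
  card_image_of_injective _ (fun _ _ h => Nat.eq_of_mul_eq_mul_right hq h)

open Classical in
/-- one class -/
theorem cls_q {t : ℕ} {u : Fin t → ℝ} {c0 δ : ℝ} {X q b : ℕ} {s C η c Ω : ℝ} {Ω' : ℕ → ℝ}
    {P1' P2' : Finset ℕ} {SS : Finset (Finset ℕ)} {β : Fin t → ℝ} {D : Dat t u c0 δ X}
    {k : ℕ} (m : ℕ) (α : Fin k → ℝ) (ε Λ : ℝ) (hq : 1 ≤ q) (hHX : HH X < X)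
    (h : Sitq s C η c Ω Ω' (Sc X q b) (Bq X q b ⌊Λ * Ls X q⌋₊) P1' P2' SS β D)
    (hΩp : 0 < Ω) (hC : 0 < C) (ℓ w4 : ℝ) (hε : 0 < ε) (hΛ : 0 < Λ) (hℓ : 0 < ℓ)
    (hcf1 : ∀ a, (∃ i, CL (α i) ε (Ls X q) (a / q)) → D.cf a = c)
    (hcf2 : ∀ a, ¬ (∃ i, CL (α i) ε (Ls X q) (a / q)) → D.cf a = -1)
    (hcA : ∀ i, |(((Jq X q b ⌊Λ * Ls X q⌋₊).filter
      (fun j => CL (α i) ε (Ls X q) j)).card : ℝ) - ε * ℓ| ≤ s * (ε * ℓ))
    (hcB : ((Bq X q b ⌊Λ * Ls X q⌋₊).card : ℝ) ≤ (1 + s) * (Λ * ℓ))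
    (hpnt1 : ∀ a ∈ Bq X q b ⌊Λ * Ls X q⌋₊, ℓ * Ω' a ≤ (1 + s) * Ω)
    (hpnt2 : ∀ a ∈ Bq X q b ⌊Λ * Ls X q⌋₊, (1 - s) * Ω ≤ ℓ * Ω' a)
    (hw45 : 5 / 32 ≤ w4) (hVG : EN.V1 P1' / GG SS * (ℓ * w4) ≤ 1)
    (s' μ ξ : ℝ) (hs' : 7 * s ≤ s') (hs'1 : s' ≤ 1) (hμ : μ = ε * (1 + c) ^ 2)
    (hm : (1 + s') * (m : ℝ) ≤ (1 - s') * μ)
    (hξ : 1 / 4 - ξ ≤ ((1 - s') * μ - (1 + s') * m) ^ 2 /
      ((1 + s) ^ 4 / w4 * μ ^ 2 + (1 + s') * μ))
    (hfin : 4 * k * ξ + (k + 1) * s' + 4 * (k + 1) * (20 * Λ * s) ≤ 3 / 4) :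
    Ω / (16 * (3 * k + 1) ^ 2 * C) ≤
      (((Sc X q b).filter (fun n => Goodq m α ε Λ X q n)).card : ℝ) := by
  obtain ⟨N, hN⟩ : ∃ N, N = ⌊Λ * Ls X q⌋₊ := ⟨_, rfl⟩
  rw [← hN] at h hcA hcB hpnt1 hpnt2
  have hcls := clsq Pool.Agent.H872R2.PPCol.col Pool.Agent.H872R2.PPCol.cob
    Pool.Agent.H433R2.PPMni.mni Pool.Agent.H909R2.pz_holds Pool.Agent.H909R2.cs_holds
    h hΩp hC k m
    (fun i => ((Jq X q b N).filter (fun j => CL (α i) ε (Ls X q) j)).image (fun j => j * q))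
    (((Jq X q b N).filter (fun j => ¬ ∃ i, CL (α i) ε (Ls X q) j)).image (fun j => j * q))
    ε Λ ℓ w4 hε hΛ hℓ
    (fun i a ha => ⟨(mem_img hq _ ha).1, hcf1 a ⟨i, (mem_img hq _ ha).2⟩⟩)
    (fun a ha => ⟨(mem_img hq _ ha).1, hcf2 a (mem_img hq _ ha).2⟩)
    (fun i => by rw [card_img hq]; exact hcA i)
    hcB hpnt1 hpnt2 hw45 hVG s' μ ξ hs' hs'1 hμ hm hξ hfin
  refine hcls.trans ?_
  apply Nat.cast_le.2
  apply card_le_card
  intro n hn
  rw [mem_filter] at hn ⊢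
  refine ⟨hn.1, ?_, ?_⟩
  · have h1 := hn.2.1
    unfold Gd at h1
    refine h1.trans (le_of_eq ?_)
    congr 2
    ext i
    simp only [mem_filter, mem_univ, true_and]
    rw [Np_image hq hHX _ hn.1, ← hN]
  · intro j hj hp
    by_contra hcon
    have h1 := hn.2.2
    rw [Np_image hq hHX _ hn.1, card_eq_zero, filter_eq_empty_iff] at h1
    rw [← hN] at hj
    exact h1 hj ⟨hcon, hp⟩

end Pool.Agent.H533.QM
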