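import Pool.Agent.H533.QM.Eqi

/-!
Progressions to every modulus: the total local deviation tends to zero.
-/

set_option autoImplicit false

open Finset Filter Topology

namespace Pool.Agent.H533.QM

open Pool.Agent.H361R2.PP
open Pool.Agent.H410R2

theorem rho_lt {p : ℕ} (hp : 1 ≤ p) (a : ℕ) : rho p a < p := Nat.mod_lt _ hp

theorem rho_dvd {p : ℕ} (hp : 1 ≤ p) (a : ℕ) : p ∣ rho p a + a := by
  unfold rho
  have h1 : a % p < p := Nat.mod_lt _ hp
  have h2 : (p - a % p) % p + a ≡ (p - a % p) + a % p [MOD p] :=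
    Nat.ModEq.add (Nat.mod_modEq _ _) (Nat.mod_modEq _ _).symm
  have h3 : (p - a % p) + a % p = p := by omega
  rw [h3] at h2
  exact (Nat.modEq_zero_iff_dvd.1 (h2.trans (Nat.modEq_zero_iff_dvd.2 dvd_rfl)))

theorem rho_eq_iff {p : ℕ} (hp : 1 ≤ p) (a b : ℕ) : rho p a = rho p b ↔ a ≡ b [MOD p] := by
  constructor
  · intro h
    have h1 := rho_dvd hp a
    have h2 := rho_dvd hp b
    rw [h] at h1
    have h3 : rho p b + a ≡ rho p b + b [MOD p] :=
      (Nat.modEq_zero_iff_dvd.2 h1).trans (Nat.modEq_zero_iff_dvd.2 h2).symm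
    exact Nat.ModEq.add_left_cancel' _ h3
  · intro h
    unfold rho
    rw [h]

theorem rho_mul {p q : ℕ} (hp : p.Prime) (hq : ¬ p ∣ q) (a b : ℕ) :
    rho p (a * q) = rho p (b * q) ↔ rho p a = rho p b := by
  rw [rho_eq_iff hp.one_le, rho_eq_iff hp.one_le]
  constructor
  · intro h
    exact Nat.ModEq.cancel_right_of_coprime ((Nat.Prime.coprime_iff_not_dvd hp).2 hq) h
  · intro h
    exact h.mul_right q

theorem sm2q (k : ℕ) (Λ s : ℝ) (hΛ : 0 < Λ) (hs : 0 < s) : ∃ X₀ : ℕ, ∀ X : ℕ, X₀ ≤ X →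
    ∀ q : ℕ, 1 ≤ q → ∀ P : Finset ℕ, (∀ p ∈ P, p.Prime ∧ HH X < p ∧ ¬ p ∣ q) →
    ∀ U : Finset ℕ, U.card ≤ k →
    (∀ a ∈ U, ∃ j : ℕ, 1 ≤ j ∧ (j : ℝ) ≤ Λ * Real.log X ∧ a = j * q) → ∀ o : Option ℕ,
    (∀ a ∈ o, (∃ j : ℕ, 1 ≤ j ∧ (j : ℝ) ≤ Λ * Real.log X ∧ a = j * q) ∧ a ∉ U) →
    EN.dl (ee o) rho P U ≤ s := by
  classical
  obtain ⟨X₀, h⟩ := Pool.Agent.H804R2.PPSm2.sm2 k Λ s hΛ hs
  refine ⟨X₀, fun X hX q hq P hP U hU hUj o ho => ?_⟩
  have hq0 : 0 < q := hq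
  have hU1 : ∀ a ∈ U, a / q * q = a := by
    intro a ha
    obtain ⟨j, -, -, rfl⟩ := hUj a ha
    rw [Nat.mul_div_cancel _ hq0]
  have ho1 : ∀ a ∈ o, a / q * q = a := by
    intro a ha
    obtain ⟨⟨j, -, -, rfl⟩, -⟩ := ho a ha
    rw [Nat.mul_div_cancel _ hq0]
  have hmain := h X hX P (fun p hp => ⟨(hP p hp).1, (hP p hp).2.1⟩) (U.image (fun a => a / q))
    (card_image_le.trans hU) (by
      intro a ha
      rw [mem_image] at ha
      obtain ⟨a', ha', rfl⟩ := ha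
      obtain ⟨j, h1, h2, rfl⟩ := hUj a' ha'
      rw [Nat.mul_div_cancel _ hq0]
      exact ⟨h1, h2⟩) (o.map (fun a => a / q)) (by
      intro a ha
      rw [Option.mem_map] at ha
      obtain ⟨a', ha', rfl⟩ := ha
      obtain ⟨⟨j, h1, h2, hj⟩, h3⟩ := ho a' ha'
      refine ⟨?_, ?_, ?_⟩
      · rw [hj, Nat.mul_div_cancel _ hq0]; exact h1
      · rw [hj, Nat.mul_div_cancel _ hq0]; exact h2
      · intro h4
        rw [mem_image] at h4
        obtain ⟨a'', h5, h6⟩ := h4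
        apply h3
        rw [← ho1 a' ha', ← h6, hU1 a'' h5]
        exact h5)
  refine le_trans ?_ hmain
  unfold EN.dl
  apply add_le_add le_rfl
  apply sum_le_sum_of_subset_of_nonneg
  · intro p hp
    rw [mem_filter] at hp ⊢
    have hpP := hP p hp.1
    refine ⟨hp.1, ?_⟩
    have hr : ∀ a ∈ U, ∀ b ∈ U, rho p a = rho p b → rho p (a / q) = rho p (b / q) := by
      intro a ha b hb h1
      rw [← hU1 a ha, ← hU1 b hb, rho_mul hpP.1 hpP.2.2] at h1
      exact h1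
    rcases hp.2 with ⟨a, ha, b, hb, h1, h2⟩ | ⟨a, ha, h1⟩
    · left
      refine ⟨a / q, mem_image_of_mem _ ha, b / q, mem_image_of_mem _ hb, ?_, hr a ha b hb h2⟩
      intro h3
      apply h1
      rw [← hU1 a ha, ← hU1 b hb, h3]
    · right
      refine ⟨a / q, mem_image_of_mem _ ha, ?_⟩
      rcases o with _ | y
      · exfalso
        have h3 : rho p a = p := h1
        have := rho_lt hpP.1.one_le a
        omega
      · simp only [Option.map_some, ee] at h1 ⊢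
        rw [← hU1 a ha, ← ho1 y rfl, rho_mul hpP.1 hpP.2.2] at h1
        exact h1
  · intro p hp _
    have h1 : (1 : ℝ) < p := by exact_mod_cast (hP p (mem_filter.1 hp).1).1.one_lt
    have : (0 : ℝ) < (p : ℝ) - 1 := by linarith
    positivity

end Pool.Agent.H533.QM
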