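import Pool.Graph.R_seed8.H372R2.PPSM4
import Pool.Graph.R_seed8.H862R2.PP.Sm5

/-!
Progressions to every modulus: the second and fourth moments of the weights for general sets of
sieving primes.  Adapted from `Pool.Graph.R_seed8.H372R2.PPSM4` (the set `P1 (HH X) J` is replaced by
an arbitrary set of primes).
-/

set_option autoImplicit false

open Finset

namespace Pool.Agent.H533.QM

open Pool.Agent.H361R2.PP
open Pool.Agent.H410R2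
open Pool.Agent.H372R2.PPSM4

/-- one-particle functions -/
noncomputable def xq {t : ℕ} {u : Fin t → ℝ} {c0 δ : ℝ} {X : ℕ} (P : Finset ℕ)
    (D : Dat t u c0 δ X) (n : ℕ) (τ : Fin t) (a : ℕ) : ℝ :=
  D.cf a * D.g τ * (rg P a n * FS (D.S τ) a n)

/-- one-particle masses -/
noncomputable def qv {t : ℕ} {u : Fin t → ℝ} {c0 δ : ℝ} {X : ℕ} (V : ℝ)
    (D : Dat t u c0 δ X) (τ : Fin t) (a : ℕ) : ℝ :=
  D.cf a ^ 2 * (D.g τ ^ 2 * (V * AC.GG (D.S τ)))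

/-- main term -/
noncomputable def Zv {t : ℕ} {u : Fin t → ℝ} {c0 δ : ℝ} {X : ℕ} (V : ℝ) (D : Dat t u c0 δ X)
    (B : Finset ℕ) (c : (Fin t → Option ℕ) → ℝ) : ℝ :=
  ∑ σ ∈ AC.cfg t B, c σ ^ 2 * AC.term (qv V D) σ

/-- the body of the moment theorem -/
def BodyQ (t : ℕ) (C c0 : ℝ) (K : ℕ) : Prop :=
  ∀ (o : Option ℕ) (δ : ℝ) (X b J z0 D0 k0 : ℕ) (P1' P2' : Finset ℕ) (S : Finset ℕ) (Ω : ℝ)
    (Er : Finset ℕ → ℝ) (u : Fin t → ℝ) (D : Dat t u c0 δ X) (B : Finset ℕ) (Y : Fin t → ℕ)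
    (Y1 : ℕ) (SS : Finset (Finset ℕ)) (V d E : ℝ),
    K ≤ b → K ≤ z0 → z0 < 2 ^ 2 ^ J → 1 ≤ J →
    (∀ p ∈ P1', p.Prime ∧ z0 < p ∧ p ≤ 2 ^ 2 ^ J) →
    (∀ p ∈ P2', p.Prime ∧ 2 ^ 2 ^ J ≤ p) → (∀ τ, ∀ R ∈ D.S τ, R ⊆ P2' ∧ ∏ p ∈ R, p ≤ Y τ) →
    (∀ τ, 1 ≤ Y τ) → 1 ≤ Y1 → (∀ R ∈ SS, R ⊆ P2' ∧ ∏ p ∈ R, p ≤ Y1) →
    0 ≤ Ω → Eqd o (P1' ∪ P2') S Ω Er →
    ∑ T ∈ (P1' ∪ P2').powerset.filter (fun T : Finset ℕ => ∏ p ∈ T, p ≤ D0),
      (K : ℝ) ^ T.card * Er T ≤ E →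
    (2 ^ 2 ^ J) ^ (K * b) * (Y1 * ∏ τ, Y τ) ^ 2 ≤ D0 → 0 < V → V ≤ 1 → d ≤ 1 →
    AC.Pi1 P2' ≤ C / V → (B.card : ℝ) * EN.V1 P1' ≤ C / V →
    (∀ U ⊆ B, U.card ≤ 4 * t + 2 → EN.dl (ee o) rho (P1' ∪ P2') U ≤ d) →
    (∀ n ∈ S, ∀ a ∈ B, ((P2'.filter (fun p => p ∣ n + a)).card ≤ k0)) →
    (∀ c : (Fin t → Option ℕ) → ℝ, (∀ σ, |c σ| ≤ c0) →
      |∑ n ∈ S, AC.WW B c (xq P1' D n) ^ 2 - Ω * Zv (EN.V1 P1') D B c| ≤
        c0 ^ (2 * t + 2) * EN.EF t K b J B.card Ω V d E ∧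
      (∀ a ∈ B, |∑ n ∈ S, (rg P1' a n * FS SS a n * AC.WW (B.erase a) c (xq P1' D n)) ^ 2 -
        Ω * (EN.V1 P1' * AC.GG SS * Zv (EN.V1 P1') D (B.erase a) c)| ≤
        c0 ^ (2 * t + 2) * EN.EF t K b J B.card (Ω * EN.V1 P1') V d E) ∧
      ∑ n ∈ S, AC.WW B c (xq P1' D n) ^ 4 ≤ c0 ^ (4 * t + 4) * ((K / V) ^ K * 2 ^ (4 * t * k0) *
        (Ω + (B.card + 1 : ℝ) ^ (4 * t) * (((J : ℝ) + 2) * E))))

theorem bodyQ_of (hS2 : EN.SecondW) (hS4 : EN.FourthW) (h1 : Sm1) (h3 : Sm3) (t : ℕ) (C c0 : ℝ)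
    (hC : 1 ≤ C) (hc0 : 1 ≤ c0) : ∃ K : ℕ, 1 ≤ K ∧ BodyQ t C c0 K := by
  obtain ⟨K2, hK2, H2⟩ := hS2 t C hC
  obtain ⟨K4, hK4, H4⟩ := hS4 t C hC
  refine ⟨max K2 K4, le_max_of_le_left hK2, ?_⟩
  intro o δ X b J z0 D0 k0 P1' P2' S Ω Er u D B Y Y1 SS V d E hKb hKH hHJ hJ1 hP1 hP2 hDS hY hY1
    hSS hΩ hEq hE hD0 hV hV1 hd1 hPi hB hdl hk0
  obtain ⟨hr, hrg, hFF⟩ := h1
  set K := max K2 K4 with hKdef
  have hK2K : K2 ≤ K := le_max_left _ _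
  have hK4K : K4 ≤ K := le_max_right _ _
  have hc00 : (0 : ℝ) < c0 := by linarith
  -- the primes
  have hP2a : ∀ p ∈ P2', p.Prime ∧ z0 < p ∧ 2 ^ 2 ^ J < p := by
    intro p hp
    obtain ⟨hpp, hple⟩ := hP2 p hp
    refine ⟨hpp, lt_of_lt_of_le hHJ hple, lt_of_le_of_ne hple ?_⟩
    intro he
    rw [← he] at hpp
    exact not_prime_pow hJ1 hpp
  have hpr : ∀ p ∈ P1' ∪ P2', p.Prime := by
    intro p hp
    rcases Finset.mem_union.mp hp with h | h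
    · exact (hP1 p h).1
    · exact (hP2 p h).1
  have hge1 : ∀ p ∈ P1' ∪ P2', 1 ≤ p := fun p hp => (hpr p hp).one_lt.le
  have hge1a : ∀ p ∈ P1', 1 ≤ p := fun p hp => hge1 p (Finset.mem_union_left _ hp)
  have hge1b : ∀ p ∈ P2', 1 ≤ p := fun p hp => hge1 p (Finset.mem_union_right _ hp)
  have hErn : ∀ T, 0 ≤ Er T := hEq.2.1
  have hM : ∀ n ∈ S, n < S.sup id + 1 := by
    intro n hn
    exact Nat.lt_succ_of_le (Finset.le_sup (f := id) hn)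
  obtain ⟨hEqd, hDens⟩ := h3 o (P1' ∪ P2') S Ω Er (S.sup id + 1) D0 hpr hEq hM
  set M := S.sup id + 1 with hMdef
  set w : ℕ → ℝ := fun n => if n ∈ S then 1 else 0 with hw
  have hw0 : ∀ m, 0 ≤ w m := by
    intro m; simp only [hw]; split_ifs <;> norm_num
  have hd0 : 0 ≤ d := by
    have := hdl ∅ (Finset.empty_subset _) (by simp)
    exact le_trans (dl_nonneg _ _ _ _ hge1) this
  have hsetup : ∀ K' ≤ K, EN.Setup K' b J z0 D0 P1' P2' B rho (kk o) (ee o) w M Ω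
      Er := by
    intro K' hK'
    refine ⟨hK'.trans hKb, hK'.trans hKH, hP1, hP2a, hDens, hw0, hΩ, hEqd, ?_⟩
    intro p hp a _
    exact rho_lt a (hge1 p hp)
  have hbase : 1 ≤ 2 ^ 2 ^ J := Nat.one_le_two_pow
  have hpowle : ∀ K' ≤ K, (2 ^ 2 ^ J) ^ (K' * b) ≤ (2 ^ 2 ^ J) ^ (K * b) := by
    intro K' hK'
    exact Nat.pow_le_pow_right hbase (Nat.mul_le_mul_right b hK')
  have hYY : 1 ≤ (Y1 * ∏ τ, Y τ) ^ 2 := by
    apply Nat.one_le_pow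
    apply Nat.mul_pos hY1
    exact Finset.prod_pos (fun τ _ => hY τ)
  have hETE : ∀ K' ≤ K, EN.ET K' (P1' ∪ P2') D0 Er ≤ E := by
    intro K' hK'
    exact (ET_mono hK' _ _ _ hErn).trans hE
  have hVV0 : 0 ≤ EN.V1 P1' := by
    unfold EN.V1
    apply Finset.prod_nonneg
    intro p hp
    have h2 : (1 : ℝ) ≤ p := by exact_mod_cast hge1a p hp
    have : 1 / (p : ℝ) ≤ 1 := by
      rw [div_le_one (by linarith)]; exact h2
    linarith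
  have hxx : ∀ n τ a, - D.cf a * EN.xx rho P1' D.S D.g n τ a = xq P1' D n τ a := by
    intro n τ a
    unfold EN.xx xq
    rw [hrg _ _ _ hge1a, hFF (D.S τ) a n
      (fun R hR p hp => hge1b p ((hDS τ R hR).1 hp))]
    ring
  have hqq : ∀ τ a, D.cf a ^ 2 * (D.g τ ^ 2 * (EN.V1 P1' * AC.GG (D.S τ))) =
      qv (EN.V1 P1') D τ a := by
    intro τ a
    rfl
  have hE2 := H2 b J z0 D0 P1' P2' B rho (kk o) (ee o) w M Ω Er D.S D.g Y Y1 V d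
    (hsetup K2 hK2K) (le_trans (Nat.mul_le_mul_right _ (hpowle K2 hK2K)) hD0) hV hV1 hd1 hPi
    hB (fun τ => ⟨(D.hg τ).1, (D.hg τ).2.trans hC⟩)
    (fun τ R hR => (hDS τ R hR).1) D.h0 D.hd
    (fun U hU hc => hdl U hU (hc.trans (by omega)))
    (fun τ => ⟨hY τ, fun R hR => (hDS τ R hR).2⟩) hY1
  obtain ⟨hE2a, hE2b⟩ := hE2
  have hE4 := H4 b J z0 D0 k0 P1' P2' B rho (kk o) (ee o) w M Ω Er D.S D.g V
    (hsetup K4 hK4K)
    (le_trans (le_trans (hpowle K4 hK4K) (Nat.le_mul_of_pos_right _ hYY)) hD0) hV hV1 hPi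
    hB (fun τ => ⟨(D.hg τ).1, (D.hg τ).2.trans hC⟩)
    (fun τ R hR => (hDS τ R hR).1)
    (fun U hU hc => (hdl U hU (hc.trans (by omega))).trans hd1)
    (by
      intro m _ hwm a ha _
      have hmS : m ∈ S := by
        by_contra hcon
        apply hwm
        simp only [hw, if_neg hcon]
      have := hk0 m hmS a ha
      have he : P2'.filter (fun p => m % p = rho p a) = P2'.filter (fun p => p ∣ m + a) := by
        apply Finset.filter_congr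
        intro p hp
        exact hr p a m (hge1b p hp)
      rw [he]; exact this)
  intro c hc
  have hcc : ∀ σ, |cc D.cf c0 c σ| ≤ 1 := abs_cc_le D.cf c0 c hc0 D.hc hc
  have hc2 : (0 : ℝ) < c0 ^ (2 * t + 2) := pow_pos hc00 _
  have hc4 : (0 : ℝ) < c0 ^ (4 * t + 4) := pow_pos hc00 _
  have hWWn : ∀ (B' : Finset ℕ) (n : ℕ), AC.WW B' (cc D.cf c0 c) (EN.xx rho P1' D.S D.g n) =
      AC.WW B' c (xq P1' D n) / c0 ^ (t + 1) := by
    intro B' n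
    exact WW_cc B' D.cf c0 c _ _ (hxx n)
  have hmain : ∀ B' : Finset ℕ, ∑ σ ∈ AC.cfg t B', cc D.cf c0 c σ ^ 2 *
      AC.occ (fun τ => D.g τ ^ 2 * (EN.V1 P1' * AC.GG (D.S τ))) σ =
      Zv (EN.V1 P1') D B' c / c0 ^ (2 * t + 2) := by
    intro B'
    exact main_cc B' D.cf c0 hc00 c _ _ hqq
  have hpow2 : (c0 ^ (t + 1)) ^ 2 = c0 ^ (2 * t + 2) := by ring
  have hpow4 : (c0 ^ (t + 1)) ^ 4 = c0 ^ (4 * t + 4) := by ring
  refine ⟨?_, ?_, ?_⟩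
  · have h := hE2a (cc D.cf c0 c) hcc
    rw [hmain B] at h
    simp only [hWWn] at h
    simp only [hw] at h
    rw [sum_ind S M hM] at h
    simp only [div_pow, hpow2] at h
    rw [← Finset.sum_div, ← mul_div_assoc, ← sub_div, abs_div, abs_of_pos hc2,
      div_le_iff₀ hc2] at h
    refine h.trans ?_
    rw [mul_comm]
    apply mul_le_mul_of_nonneg_left _ hc2.le
    exact EF_mono hK2K hΩ hV hV1 hd0 (hETE K2 hK2K) (ET_nonneg _ _ _ _ hErn)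
  · intro a ha
    have h := hE2b SS (fun R hR => (hSS R hR).1) (fun R hR => (hSS R hR).2) a ha
      (cc D.cf c0 c) hcc
    rw [hmain (B.erase a)] at h
    simp only [hWWn] at h
    simp only [hw] at h
    rw [sum_ind S M hM] at h
    have hsum : ∑ n ∈ S, (AC.WW (B.erase a) c (xq P1' D n) / c0 ^ (t + 1) *
        (EN.rg rho P1' a n * AC.FF rho SS (some a) n)) ^ 2 =
        (∑ n ∈ S, (rg P1' a n * FS SS a n * AC.WW (B.erase a) c (xq P1' D n)) ^ 2) /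
          c0 ^ (2 * t + 2) := by
      rw [Finset.sum_div]
      apply Finset.sum_congr rfl
      intro n _
      rw [hrg _ _ _ hge1a, hFF SS a n (fun R hR p hp => hge1b p ((hSS R hR).1 hp)), ← hpow2]
      have : c0 ^ (t + 1) ≠ 0 := (pow_pos hc00 _).ne'
      field_simp
    rw [hsum] at h
    have hrew : Ω * (EN.V1 P1' * AC.GG SS * (Zv (EN.V1 P1') D (B.erase a) c / c0 ^ (2 * t + 2))) =
        Ω * (EN.V1 P1' * AC.GG SS * Zv (EN.V1 P1') D (B.erase a) c) / c0 ^ (2 * t + 2) := by ring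
    rw [hrew, ← sub_div, abs_div, abs_of_pos hc2, div_le_iff₀ hc2] at h
    refine h.trans ?_
    rw [mul_comm]
    apply mul_le_mul_of_nonneg_left _ hc2.le
    exact EF_mono hK2K (mul_nonneg hΩ hVV0) hV hV1 hd0 (hETE K2 hK2K) (ET_nonneg _ _ _ _ hErn)
  · have h := hE4 (cc D.cf c0 c) hcc
    simp only [hWWn] at h
    simp only [hw] at h
    rw [sum_ind S M hM] at h
    have hs4 : ∑ n ∈ S, (AC.WW B c (xq P1' D n) / c0 ^ (t + 1)) ^ 4 =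
        (∑ n ∈ S, AC.WW B c (xq P1' D n) ^ 4) / c0 ^ (4 * t + 4) := by
      rw [Finset.sum_div]
      apply Finset.sum_congr rfl
      intro n _
      rw [div_pow, hpow4]
    rw [hs4, div_le_iff₀ hc4] at h
    refine h.trans ?_
    rw [mul_comm]
    apply mul_le_mul_of_nonneg_left _ hc4.le
    have hKV : (K4 / V) ^ K4 ≤ ((K : ℝ) / V) ^ K := by
      have hKr : (K4 : ℝ) ≤ K := by exact_mod_cast hK4K
      have hK1 : (1 : ℝ) ≤ K := by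
        have : 1 ≤ K := hK4.trans hK4K
        exact_mod_cast this
      have h1V : 1 ≤ (K : ℝ) / V := by
        rw [le_div_iff₀ hV]; linarith
      calc ((K4 : ℝ) / V) ^ K4 ≤ ((K : ℝ) / V) ^ K4 := by
            apply pow_le_pow_left₀ (by positivity)
            exact div_le_div_of_nonneg_right hKr hV.le
        _ ≤ ((K : ℝ) / V) ^ K := pow_le_pow_right₀ h1V hK4K
    apply mul_le_mul
    · exact mul_le_mul_of_nonneg_right hKV (by positivity)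
    · have := hETE K4 hK4K
      gcongr
    · have := ET_nonneg K4 (P1' ∪ P2') D0 Er hErn
      positivity
    · positivity

end Pool.Agent.H533.QM
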